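import Pool.Agent.PSB.Stmts

set_option autoImplicit false

namespace Pool.Agent.PSB

open MeasureTheory Complex Metric Set Filter Topology

open scoped ComplexConjugate Real

namespace ARE_

lemma orth (j k : ℕ) :
    ∫ θ in (0 : ℝ)..(2 * π), Complex.exp (j * θ * I) * Complex.exp (-(k * θ * I)) =
      if j = k then ((2 * π : ℝ) : ℂ) else 0 := by
  have e : ∀ θ : ℝ, Complex.exp (j * θ * I) * Complex.exp (-(k * θ * I)) =
      Complex.exp ((((j : ℂ) - k) * I) * θ) := by
    intro θ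
    rw [← Complex.exp_add]
    congr 1
    ring
  simp only [e]
  by_cases h : j = k
  · subst h
    rw [if_pos rfl]
    simp
  · rw [if_neg h]
    have hc : ((j : ℂ) - k) * I ≠ 0 :=
      mul_ne_zero (sub_ne_zero.2 (by exact_mod_cast h)) I_ne_zero
    rw [integral_exp_mul_complex hc]
    have h1 : Complex.exp (((j : ℂ) - k) * I * ((2 * π : ℝ) : ℂ)) = 1 := by
      rw [Complex.exp_eq_one_iff]
      refine ⟨(j : ℤ) - k, ?_⟩
      push_cast
      ring
    rw [h1]
    simp

lemma bessel (G : ℝ → ℂ) (hG : Continuous G) (b : ℕ → ℂ) (N : ℕ)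
    (h : ∀ k : ℕ, ∫ θ in (0 : ℝ)..(2 * π), G θ * Complex.exp (-(k * θ * I)) =
      ((2 * π : ℝ) : ℂ) * b k) :
    2 * π * ∑ k ∈ Finset.range N, ‖b k‖ ^ 2 ≤ ∫ θ in (0 : ℝ)..(2 * π), ‖G θ‖ ^ 2 := by
  set P : ℝ → ℂ := fun θ => ∑ k ∈ Finset.range N, b k * Complex.exp (k * θ * I) with hP
  have cP : Continuous P := by
    rw [hP]
    fun_prop
  have ce : ∀ k : ℕ, Continuous fun θ : ℝ => Complex.exp (-(k * θ * I)) := fun k => by fun_prop
  have hconj : ∀ θ : ℝ, conj (P θ) =
      ∑ k ∈ Finset.range N, conj (b k) * Complex.exp (-(k * θ * I)) := by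
    intro θ
    rw [hP]
    simp only [map_sum, map_mul]
    refine Finset.sum_congr rfl (fun k _ => ?_)
    rw [← Complex.exp_conj]
    congr 2
    simp
  have hPk : ∀ k ∈ Finset.range N,
      ∫ θ in (0 : ℝ)..(2 * π), P θ * Complex.exp (-(k * θ * I)) = ((2 * π : ℝ) : ℂ) * b k := by
    intro k hk
    have e : ∀ θ : ℝ, P θ * Complex.exp (-(k * θ * I)) = ∑ j ∈ Finset.range N,
        b j * (Complex.exp (j * θ * I) * Complex.exp (-(k * θ * I))) := by
      intro θ
      rw [hP]
      simp only [Finset.sum_mul, mul_assoc]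
    simp only [e]
    rw [intervalIntegral.integral_finsetSum (fun j _ =>
      (Continuous.intervalIntegrable (by fun_prop) _ _))]
    simp only [intervalIntegral.integral_const_mul, orth]
    rw [Finset.sum_eq_single k]
    · rw [if_pos rfl, mul_comm]
    · intro j _ hj
      rw [if_neg hj, mul_zero]
    · intro hk'
      exact absurd hk hk'
  have hexp : ∀ F : ℝ → ℂ, Continuous F → ∫ θ in (0 : ℝ)..(2 * π), F θ * conj (P θ) =
      ∑ k ∈ Finset.range N, conj (b k) *
        ∫ θ in (0 : ℝ)..(2 * π), F θ * Complex.exp (-(k * θ * I)) := by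
    intro F hF
    have e : ∀ θ : ℝ, F θ * conj (P θ) = ∑ k ∈ Finset.range N,
        conj (b k) * (F θ * Complex.exp (-(k * θ * I))) := by
      intro θ
      rw [hconj, Finset.mul_sum]
      exact Finset.sum_congr rfl (fun k _ => by ring)
    simp only [e]
    rw [intervalIntegral.integral_finsetSum (fun j _ =>
      (Continuous.intervalIntegrable (by fun_prop) _ _))]
    simp only [intervalIntegral.integral_const_mul]
  have hcross : ∫ θ in (0 : ℝ)..(2 * π), (G θ - P θ) * conj (P θ) = 0 := by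
    have hx := hexp (fun θ => G θ - P θ) (hG.sub cP)
    rw [hx]
    refine Finset.sum_eq_zero (fun k hk => ?_)
    have e : ∀ θ : ℝ, (G θ - P θ) * Complex.exp (-(k * θ * I)) =
        G θ * Complex.exp (-(k * θ * I)) - P θ * Complex.exp (-(k * θ * I)) := by
      intro θ
      ring
    simp only [e]
    have ja : IntervalIntegrable (fun θ : ℝ => G θ * Complex.exp (-(k * θ * I))) volume
        0 (2 * π) := (hG.mul (ce k)).intervalIntegrable _ _
    have jb : IntervalIntegrable (fun θ : ℝ => P θ * Complex.exp (-(k * θ * I))) volume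
        0 (2 * π) := (cP.mul (ce k)).intervalIntegrable _ _
    rw [intervalIntegral.integral_sub ja jb, h k, hPk k hk, sub_self, mul_zero]
  have hPP : ∫ θ in (0 : ℝ)..(2 * π), P θ * conj (P θ) =
      ((2 * π * ∑ k ∈ Finset.range N, ‖b k‖ ^ 2 : ℝ) : ℂ) := by
    rw [hexp _ cP]
    push_cast
    rw [Finset.mul_sum]
    refine Finset.sum_congr rfl (fun k hk => ?_)
    rw [hPk k hk]
    have := Complex.mul_conj (b k)
    rw [Complex.normSq_eq_norm_sq] at this
    push_cast at this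
    rw [← this]
    push_cast
    ring
  have cconjP : Continuous fun θ => conj (P θ) := Complex.continuous_conj.comp cP
  have r1 : ∫ θ in (0 : ℝ)..(2 * π), ((G θ - P θ) * conj (P θ)).re = 0 := by
    have := Complex.reCLM.intervalIntegral_comp_comm
      (f := fun θ => (G θ - P θ) * conj (P θ)) (μ := volume) (a := 0) (b := 2 * π)
      (((hG.sub cP).mul cconjP).intervalIntegrable _ _)
    rw [hcross] at this
    simpa using this
  have r2 : ∫ θ in (0 : ℝ)..(2 * π), (P θ * conj (P θ)).re =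
      2 * π * ∑ k ∈ Finset.range N, ‖b k‖ ^ 2 := by
    have := Complex.reCLM.intervalIntegral_comp_comm
      (f := fun θ => P θ * conj (P θ)) (μ := volume) (a := 0) (b := 2 * π)
      ((cP.mul cconjP).intervalIntegrable _ _)
    rw [hPP] at this
    have e2 : Complex.reCLM ((2 * π * ∑ k ∈ Finset.range N, ‖b k‖ ^ 2 : ℝ) : ℂ) =
      2 * π * ∑ k ∈ Finset.range N, ‖b k‖ ^ 2 := Complex.ofReal_re _
    rw [e2] at this
    exact this
  have hpt : ∀ θ, ‖G θ‖ ^ 2 = ‖G θ - P θ‖ ^ 2 + (2 * ((G θ - P θ) * conj (P θ)).re +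
      (P θ * conj (P θ)).re) := by
    intro θ
    rw [← Complex.normSq_eq_norm_sq, ← Complex.normSq_eq_norm_sq, Complex.normSq_apply,
      Complex.normSq_apply]
    simp only [Complex.sub_re, Complex.sub_im, Complex.mul_re, Complex.conj_re, Complex.conj_im]
    ring
  simp only [hpt]
  have i1 : IntervalIntegrable (fun θ => ‖G θ - P θ‖ ^ 2) volume 0 (2 * π) :=
    ((hG.sub cP).norm.pow 2).intervalIntegrable _ _
  have i2 : IntervalIntegrable (fun θ => ((G θ - P θ) * conj (P θ)).re) volume 0 (2 * π) :=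
    (Complex.continuous_re.comp ((hG.sub cP).mul cconjP)).intervalIntegrable _ _
  have i3 : IntervalIntegrable (fun θ => (P θ * conj (P θ)).re) volume 0 (2 * π) :=
    (Complex.continuous_re.comp (cP.mul cconjP)).intervalIntegrable _ _
  rw [intervalIntegral.integral_add i1 ((i2.const_mul 2).add i3),
    intervalIntegral.integral_add (i2.const_mul 2) i3, intervalIntegral.integral_const_mul, r1, r2]
  have hnn : 0 ≤ ∫ θ in (0 : ℝ)..(2 * π), ‖G θ - P θ‖ ^ 2 :=
    intervalIntegral.integral_nonneg (by positivity) (fun θ _ => by positivity)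
  linarith

/-- Cauchy: the coefficients on a circle -/
lemma cauchy (g : ℂ → ℂ) (hg : DifferentiableOn ℂ g (ball 0 1)) (t : ℝ) (h0 : 0 < t) (h1 : t < 1)
    (k : ℕ) :
    ∫ θ in (0 : ℝ)..(2 * π), g (t * Complex.exp (θ * I)) * Complex.exp (-(k * θ * I)) =
      ((2 * π : ℝ) : ℂ) * (iteratedDeriv k g 0 / (k.factorial : ℂ) * (t : ℂ) ^ k) := by
  have hd : DifferentiableOn ℂ g (closedBall 0 t) :=
    hg.mono (closedBall_subset_ball h1)
  have h := hd.circleIntegral_one_div_sub_center_pow_smul h0 k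
  rw [circleIntegral] at h
  have ht : (t : ℂ) ≠ 0 := by exact_mod_cast h0.ne'
  have e : ∀ θ : ℝ, deriv (circleMap 0 t) θ • (1 / (circleMap 0 t θ - 0) ^ (k + 1)) •
      g (circleMap 0 t θ) = (I * ((t : ℂ) ^ k)⁻¹) *
        (g (t * Complex.exp (θ * I)) * Complex.exp (-(k * θ * I))) := by
    intro θ
    have he : Complex.exp (θ * I) ≠ 0 := Complex.exp_ne_zero _
    have hk : Complex.exp (-(k * θ * I)) = (Complex.exp (θ * I) ^ k)⁻¹ := by
      rw [← Complex.exp_nat_mul, ← Complex.exp_neg]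
      congr 1
      ring
    rw [deriv_circleMap, hk]
    simp only [circleMap, zero_add, sub_zero, smul_eq_mul]
    field_simp
    ring
  simp only [e] at h
  rw [intervalIntegral.integral_const_mul] at h
  have hI := I_ne_zero
  have htk : (t : ℂ) ^ k ≠ 0 := pow_ne_zero _ ht
  have hf : (k.factorial : ℂ) ≠ 0 := by exact_mod_cast k.factorial_ne_zero
  rw [smul_eq_mul] at h
  generalize (∫ θ in (0 : ℝ)..(2 * π), g (t * Complex.exp (θ * I)) *
    Complex.exp (-(k * θ * I))) = J at h ⊢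
  have h2 : J = (t : ℂ) ^ k * I⁻¹ * (2 * π * I / k.factorial * iteratedDeriv k g 0) := by
    rw [← h]
    field_simp
  rw [h2]
  push_cast
  field_simp

lemma circ (g : ℂ → ℂ) (hg : DifferentiableOn ℂ g (ball 0 1)) (t : ℝ) (h0 : 0 < t) (h1 : t < 1)
    (N : ℕ) :
    2 * π * ∑ k ∈ Finset.range N, ‖iteratedDeriv k g 0 / (k.factorial : ℂ)‖ ^ 2 * t ^ (2 * k) ≤
      ∫ θ in (-π)..π, ‖g (t * Complex.exp (θ * I))‖ ^ 2 := by
  have hc : Continuous fun θ : ℝ => g (t * Complex.exp (θ * I)) := by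
    have := hg.continuousOn
    refine this.comp_continuous (by fun_prop) (fun θ => ?_)
    rw [mem_ball_zero_iff, norm_mul, Complex.norm_exp_ofReal_mul_I, mul_one, Complex.norm_real,
      Real.norm_eq_abs, abs_of_pos h0]
    exact h1
  have h := bessel _ hc (fun k => iteratedDeriv k g 0 / (k.factorial : ℂ) * (t : ℂ) ^ k) N
    (fun k => cauchy g hg t h0 h1 k)
  have e : ∀ k : ℕ, ‖iteratedDeriv k g 0 / (k.factorial : ℂ) * (t : ℂ) ^ k‖ ^ 2 =
      ‖iteratedDeriv k g 0 / (k.factorial : ℂ)‖ ^ 2 * t ^ (2 * k) := by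
    intro k
    rw [norm_mul, mul_pow, norm_pow, Complex.norm_real, Real.norm_eq_abs, abs_of_pos h0,
      ← pow_mul, mul_comm k 2]
  simp only [e] at h
  have hper : Function.Periodic (fun θ : ℝ => ‖g (t * Complex.exp (θ * I))‖ ^ 2) (2 * π) := by
    intro θ
    have : Complex.exp (((θ + 2 * π : ℝ) : ℂ) * I) = Complex.exp (θ * I) := by
      push_cast
      rw [add_mul]
      exact Complex.exp_periodic _
    simp only [this]
  have h3 := hper.intervalIntegral_add_eq 0 (-π)
  rw [zero_add, show -π + 2 * π = π by ring] at h3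
  rwa [h3] at h

/-- area in polar coordinates -/
lemma area (g : ℂ → ℂ) (hg : DifferentiableOn ℂ g (ball 0 1)) (r : ℝ) (h0 : 0 < r) (h1 : r < 1)
    (N : ℕ) :
    π * ∑ k ∈ Finset.range N, ‖iteratedDeriv k g 0 / (k.factorial : ℂ)‖ ^ 2 *
      (r ^ (2 * k + 2) / (k + 1)) ≤ ∫ z in ball (0 : ℂ) r, ‖g z‖ ^ 2 := by
  have e1 : ∫ z in ball (0 : ℂ) r, ‖g z‖ ^ 2 =
      ∫ p in polarCoord.target, p.1 • (ball (0 : ℂ) r).indicator (fun z => ‖g z‖ ^ 2)
        (Complex.polarCoord.symm p) := by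
    rw [Complex.integral_comp_polarCoord_symm, integral_indicator measurableSet_ball]
  set Q : Set (ℝ × ℝ) := Ioo 0 r ×ˢ Ioo (-π) π with hQ
  have hQt : Q ⊆ polarCoord.target := by
    rintro ⟨t, θ⟩ ⟨ht, hθ⟩
    exact ⟨ht.1, hθ⟩
  have hpol : ∀ p : ℝ × ℝ, Complex.polarCoord.symm p = (p.1 : ℂ) * Complex.exp (p.2 * I) := by
    intro p
    rw [Complex.polarCoord_symm_apply, Complex.exp_mul_I, Complex.ofReal_cos, Complex.ofReal_sin]
  have e2 : ∫ p in polarCoord.target, p.1 • (ball (0 : ℂ) r).indicator (fun z => ‖g z‖ ^ 2)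
        (Complex.polarCoord.symm p) =
      ∫ p in Q, p.1 * ‖g ((p.1 : ℂ) * Complex.exp (p.2 * I))‖ ^ 2 := by
    rw [setIntegral_eq_of_subset_of_forall_sdiff_eq_zero (s := Q) (t := polarCoord.target)
      (polarCoord.open_target.measurableSet) hQt]
    · refine setIntegral_congr_fun (measurableSet_Ioo.prod measurableSet_Ioo) ?_
      rintro ⟨t, θ⟩ ⟨ht, hθ⟩
      simp only
      have hm : Complex.polarCoord.symm (t, θ) ∈ ball (0 : ℂ) r := by
        rw [mem_ball_zero_iff, Complex.norm_polarCoord_symm]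
        simp only
        rw [abs_of_pos ht.1]
        exact ht.2
      rw [indicator_of_mem hm, hpol, smul_eq_mul]
    · rintro ⟨t, θ⟩ ⟨⟨ht, hθ⟩, hn⟩
      have hm : Complex.polarCoord.symm (t, θ) ∉ ball (0 : ℂ) r := by
        rw [mem_ball_zero_iff, Complex.norm_polarCoord_symm]
        simp only
        intro h
        have ht' : 0 < t := ht
        rw [abs_of_pos ht'] at h
        exact hn ⟨⟨ht', h⟩, hθ⟩
      rw [indicator_of_notMem hm, smul_zero]
  have hcont : ContinuousOn (fun p : ℝ × ℝ => p.1 * ‖g ((p.1 : ℂ) * Complex.exp (p.2 * I))‖ ^ 2)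
      (Icc 0 r ×ˢ Icc (-π) π) := by
    refine continuousOn_fst.mul (ContinuousOn.pow (ContinuousOn.norm ?_) 2)
    refine hg.continuousOn.comp (by fun_prop) ?_
    rintro ⟨t, θ⟩ ⟨ht, hθ⟩
    rw [mem_ball_zero_iff, norm_mul, Complex.norm_exp_ofReal_mul_I, mul_one, Complex.norm_real,
      Real.norm_eq_abs, abs_of_nonneg ht.1]
    exact lt_of_le_of_lt ht.2 h1
  have hint : IntegrableOn (fun p : ℝ × ℝ => p.1 * ‖g ((p.1 : ℂ) * Complex.exp (p.2 * I))‖ ^ 2)
      (Icc 0 r ×ˢ Icc (-π) π) :=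
    hcont.integrableOn_compact (isCompact_Icc.prod isCompact_Icc)
  have hintQ : IntegrableOn (fun p : ℝ × ℝ => p.1 * ‖g ((p.1 : ℂ) * Complex.exp (p.2 * I))‖ ^ 2)
      Q (volume.prod volume) := by
    have := hint.mono_set (prod_mono (Ioo_subset_Icc_self (a := (0 : ℝ)) (b := r))
      (Ioo_subset_Icc_self (a := -π) (b := π)))
    exact this
  have e3 : ∫ p in Q, p.1 * ‖g ((p.1 : ℂ) * Complex.exp (p.2 * I))‖ ^ 2 =
      ∫ t in Ioo 0 r, ∫ θ in Ioo (-π) π, t * ‖g ((t : ℂ) * Complex.exp (θ * I))‖ ^ 2 := by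
    have := setIntegral_prod _ hintQ
    exact this
  rw [e1, e2, e3]
  have e4 : ∀ t ∈ Ioo 0 r, 2 * π * ∑ k ∈ Finset.range N,
      ‖iteratedDeriv k g 0 / (k.factorial : ℂ)‖ ^ 2 * t ^ (2 * k + 1) ≤
      ∫ θ in Ioo (-π) π, t * ‖g ((t : ℂ) * Complex.exp (θ * I))‖ ^ 2 := by
    intro t ht
    have h := circ g hg t ht.1 (ht.2.trans h1) N
    rw [intervalIntegral.integral_of_le (by linarith [Real.pi_pos]),
      integral_Ioc_eq_integral_Ioo] at h
    rw [integral_const_mul]
    refine le_trans (le_of_eq ?_) (mul_le_mul_of_nonneg_left h ht.1.le)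
    rw [Finset.mul_sum, Finset.mul_sum, Finset.mul_sum]
    refine Finset.sum_congr rfl (fun k _ => ?_)
    rw [pow_succ]
    ring
  have hcp : Continuous fun t : ℝ => 2 * π * ∑ k ∈ Finset.range N,
      ‖iteratedDeriv k g 0 / (k.factorial : ℂ)‖ ^ 2 * t ^ (2 * k + 1) := by fun_prop
  have hi2 : IntegrableOn (fun t : ℝ => ∫ θ in Ioo (-π) π,
      t * ‖g ((t : ℂ) * Complex.exp (θ * I))‖ ^ 2) (Ioo 0 r) := by
    have h2 : Integrable (fun p : ℝ × ℝ => p.1 * ‖g ((p.1 : ℂ) * Complex.exp (p.2 * I))‖ ^ 2)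
        ((volume.restrict (Ioo 0 r)).prod (volume.restrict (Ioo (-π) π))) := by
      rw [Measure.prod_restrict]
      exact hintQ
    exact h2.integral_prod_left
  have h5 := setIntegral_mono_on ((hcp.integrableOn_Icc (a := 0) (b := r)).mono_set
    Ioo_subset_Icc_self) hi2 measurableSet_Ioo e4
  refine le_trans (le_of_eq ?_) h5
  rw [← integral_Ioc_eq_integral_Ioo, ← intervalIntegral.integral_of_le h0.le,
    intervalIntegral.integral_const_mul, intervalIntegral.integral_finsetSum (fun k _ =>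
      (Continuous.intervalIntegrable (by fun_prop) _ _)), Finset.mul_sum, Finset.mul_sum]
  refine Finset.sum_congr rfl (fun k _ => ?_)
  rw [intervalIntegral.integral_const_mul, integral_pow]
  have hk : ((k : ℝ) + 1) ≠ 0 := by positivity
  push_cast
  rw [zero_pow (by omega), sub_zero]
  have : (2 * (k : ℝ) + 1 + 1) = 2 * (k + 1) := by ring
  rw [this, show 2 * k + 1 + 1 = 2 * k + 2 by ring]
  field_simp

lemma det_holo (c : ℂ) :
    ((ContinuousLinearMap.toSpanSingleton ℂ c).restrictScalars ℝ : ℂ →L[ℝ] ℂ).det = ‖c‖ ^ 2 := by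
  simp [ContinuousLinearMap.det, LinearMap.det_restrictScalars, Algebra.norm_complex_apply,
    Complex.normSq_eq_norm_sq]

end ARE_

open ARE_ in
theorem are_proof : Stmt_ARE := by
  intro M f hM hf N
  have hg : DifferentiableOn ℂ (deriv f) (ball 0 1) := hf.diff.deriv isOpen_ball
  have key : ∀ r : ℝ, 0 < r → r < 1 → ∑ k ∈ Finset.range N,
      ‖iteratedDeriv k (deriv f) 0 / (k.factorial : ℂ)‖ ^ 2 * (r ^ (2 * k + 2) / (k + 1)) ≤
      M ^ 2 := by
    intro r h0 h1
    have hsub : ball (0 : ℂ) r ⊆ ball 0 1 := ball_subset_ball h1.le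
    have a1 := area (deriv f) hg r h0 h1 N
    have a2 := integral_image_eq_integral_abs_det_fderiv_smul (volume : Measure ℂ)
      (measurableSet_ball (x := (0 : ℂ)) (ε := r)) (f := f)
      (f' := fun z => (ContinuousLinearMap.toSpanSingleton ℂ (deriv f z)).restrictScalars ℝ)
      (fun z hz => (((hf.diff.differentiableAt (isOpen_ball.mem_nhds
        (hsub hz))).hasDerivAt).hasFDerivAt.restrictScalars ℝ).hasFDerivWithinAt)
      (hf.inj.mono hsub) (fun _ => (1 : ℝ))
    simp only [det_holo, smul_eq_mul, mul_one] at a2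
    have a3 : ∫ z in ball (0 : ℂ) r, |‖deriv f z‖ ^ 2| = ∫ z in ball (0 : ℂ) r, ‖deriv f z‖ ^ 2 :=
      setIntegral_congr_fun measurableSet_ball (fun z _ => abs_of_nonneg (by positivity))
    rw [a3] at a2
    rw [← a2] at a1
    have a4 : ∫ _z in f '' ball (0 : ℂ) r, (1 : ℝ) ≤ π * M ^ 2 := by
      rw [setIntegral_const, smul_eq_mul, mul_one]
      have hs : f '' ball (0 : ℂ) r ⊆ closedBall 0 M := by
        rintro _ ⟨z, hz, rfl⟩
        rw [mem_closedBall_zero_iff]
        exact hf.bdd z (hsub hz)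
      have h5 : volume.real (f '' ball (0 : ℂ) r) ≤ volume.real (closedBall (0 : ℂ) M) :=
        measureReal_mono hs (measure_closedBall_lt_top).ne
      refine h5.trans (le_of_eq ?_)
      rw [Measure.real, Complex.volume_closedBall]
      rw [ENNReal.toReal_mul, ENNReal.toReal_pow, ENNReal.toReal_ofReal (by linarith)]
      simp
      ring
    have a5 := a1.trans a4
    exact le_of_mul_le_mul_left a5 Real.pi_pos
  have hlim : Tendsto (fun r : ℝ => ∑ k ∈ Finset.range N,
      ‖iteratedDeriv k (deriv f) 0 / (k.factorial : ℂ)‖ ^ 2 * (r ^ (2 * k + 2) / (k + 1)))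
      (𝓝[<] 1) (𝓝 (∑ k ∈ Finset.range N,
      ‖iteratedDeriv k (deriv f) 0 / (k.factorial : ℂ)‖ ^ 2 * ((1 : ℝ) ^ (2 * k + 2) / (k + 1)))) := by
    have hc : Continuous (fun r : ℝ => ∑ k ∈ Finset.range N,
      ‖iteratedDeriv k (deriv f) 0 / (k.factorial : ℂ)‖ ^ 2 * (r ^ (2 * k + 2) / (k + 1))) := by
      fun_prop
    exact (hc.tendsto 1).mono_left nhdsWithin_le_nhds
  have hfin := le_of_tendsto hlim (by
    have : Ioo (0 : ℝ) 1 ∈ 𝓝[<] (1 : ℝ) := Ioo_mem_nhdsLT one_pos
    filter_upwards [this] with r hr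
    exact key r hr.1 hr.2)
  rw [Finset.sum_range_succ']
  simp only [Nat.cast_zero, zero_mul, add_zero]
  refine le_trans (le_of_eq ?_) hfin
  refine Finset.sum_congr rfl (fun k _ => ?_)
  have hk : ((k : ℝ) + 1) ≠ 0 := by positivity
  rw [coeff, iteratedDeriv_succ', one_pow, norm_div, norm_div, Complex.norm_natCast,
    Complex.norm_natCast, Nat.factorial_succ]
  have hf2 : (k.factorial : ℝ) ≠ 0 := by exact_mod_cast k.factorial_ne_zero
  push_cast
  field_simp

end Pool.Agent.PSB
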