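import Mathlib

/-!
Partial sums of bounded univalent functions (MP_910507_an): definitions.
-/

namespace Pool.Agent.PSB

open MeasureTheory Complex

/-- The class `S(M)`: normalised injective holomorphic functions of the unit disc bounded by `M`. -/
structure InS (M : ℝ) (f : ℂ → ℂ) : Prop where
  diff : DifferentiableOn ℂ f (Metric.ball 0 1)
  inj : Set.InjOn f (Metric.ball 0 1)
  zero : f 0 = 0
  one : deriv f 0 = 1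
  bdd : ∀ z ∈ Metric.ball (0 : ℂ) 1, ‖f z‖ ≤ M

/-- Taylor coefficients at `0`. -/
noncomputable def coeff (f : ℂ → ℂ) (k : ℕ) : ℂ := iteratedDeriv k f 0 / (k.factorial : ℂ)

/-- The `n`-th partial sum. -/
noncomputable def psum (f : ℂ → ℂ) (n : ℕ) (z : ℂ) : ℂ :=
  ∑ k ∈ Finset.range (n + 1), coeff f k * z ^ k

/-- `Λ_n(M)`. -/
noncomputable def Lam (n : ℕ) (M : ℝ) : ℝ :=
  sSup {r : ℝ | ∃ f : ℂ → ℂ, InS M f ∧ ∃ z : ℂ, ‖z‖ = 1 ∧ r = ‖psum f n z‖}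

/-- Injective holomorphic self-maps of the unit disc fixing `0`. -/
structure SelfU (F : ℂ → ℂ) : Prop where
  diff : DifferentiableOn ℂ F (Metric.ball 0 1)
  inj : Set.InjOn F (Metric.ball 0 1)
  zero : F 0 = 0
  maps : ∀ z ∈ Metric.ball (0 : ℂ) 1, ‖F z‖ < 1

/-- `F z = c1 z + c2 z^2 + c3 z^3 + O(z^4)`. -/
def Jet3 (F : ℂ → ℂ) (c1 c2 c3 : ℂ) : Prop :=
  (fun z : ℂ => F z - (c1 * z + c2 * z ^ 2 + c3 * z ^ 3)) =O[nhds 0] (fun z : ℂ => z ^ 4)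

/-- `e^{iθ}`. -/
noncomputable def ee (θ : ℝ) : ℂ := Complex.exp (θ * Complex.I)

/-- The real trigonometric polynomial `x0 + 2 Re (x1 e^{iθ})`. -/
noncomputable def phi (x0 : ℝ) (x1 : ℂ) (θ : ℝ) : ℝ := x0 + 2 * (x1 * ee θ).re

/-- Lebesgue measure on `(0, 2π]`. -/
noncomputable def nu : Measure ℝ := volume.restrict (Set.Ioc 0 (2 * Real.pi))

/-- Double integral over the square. -/
noncomputable def I2 (K : ℝ → ℝ → ℝ) : ℝ := ∫ p : ℝ × ℝ, K p.1 p.2 ∂(nu.prod nu)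

/-- Green kernel of the disc. -/
noncomputable def GD (w w' : ℂ) : ℝ :=
  Real.log ‖1 - (starRingEnd ℂ) w * w'‖ - Real.log ‖w - w'‖

/-- Regularised Green kernel. -/
noncomputable def GT (τ : ℝ) (w w' : ℂ) : ℝ :=
  Real.log ‖1 - (τ : ℂ) * ((starRingEnd ℂ) w * w')‖
    - Real.log ‖((max ‖w‖ ‖w'‖ : ℝ) : ℂ) ^ 2 - (τ : ℂ) * ((starRingEnd ℂ) w * w')‖
    + Real.log (max ‖w‖ ‖w'‖)

open Classical in
/-- Poisson type kernel at level `s`. -/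
noncomputable def KS (τ s : ℝ) (w w' : ℂ) : ℝ :=
  if ‖w‖ ≤ s ∧ ‖w'‖ ≤ s then
    (((s : ℂ) ^ 2 + (τ : ℂ) * ((starRingEnd ℂ) w * w')) /
      ((s : ℂ) ^ 2 - (τ : ℂ) * ((starRingEnd ℂ) w * w'))).re
  else 0

/-- `ρ(ε) = 1 - √(2ε/(1+2ε))`. -/
noncomputable def rho (ε : ℝ) : ℝ := 1 - Real.sqrt (2 * ε / (1 + 2 * ε))

/-- `s(ε) = 1/√(1+2ε)`. -/
noncomputable def sc (ε : ℝ) : ℝ := 1 / Real.sqrt (1 + 2 * ε)

/-- The elementary step map `s (w - 2ε ρκ w²/(1 - ρκ w))`. -/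
noncomputable def stp (ε : ℝ) (κ w : ℂ) : ℂ :=
  (sc ε : ℂ) * (w - 2 * (ε : ℂ) * ((rho ε : ℂ) * κ * w ^ 2) / (1 - (rho ε : ℂ) * κ * w))

/-- Compositions of step maps. -/
noncomputable def chain (ε : ℝ) (κ : ℕ → ℂ) : ℕ → ℂ → ℂ
  | 0 => fun z => z
  | j + 1 => fun z => stp ε (κ j) (chain ε κ j z)

/-- `A_N = -2ερ Σ_{i<N} κ_i s^i`. -/
noncomputable def chA (ε : ℝ) (κ : ℕ → ℂ) (N : ℕ) : ℂ :=
  -2 * (ε : ℂ) * (rho ε : ℂ) * ∑ i ∈ Finset.range N, κ i * (sc ε : ℂ) ^ i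

/-- `Q_N = Σ_{i<N} κ_i² s^{2i}`. -/
noncomputable def chQ (ε : ℝ) (κ : ℕ → ℂ) (N : ℕ) : ℂ :=
  ∑ i ∈ Finset.range N, κ i ^ 2 * (sc ε : ℂ) ^ (2 * i)

/-- `B_N = A_N² - 2ε(1+2ε)ρ² Q_N`. -/
noncomputable def chB (ε : ℝ) (κ : ℕ → ℂ) (N : ℕ) : ℂ :=
  chA ε κ N ^ 2 - 2 * (ε : ℂ) * (1 + 2 * (ε : ℂ)) * (rho ε : ℂ) ^ 2 * chQ ε κ N

/-- `ε` with `1 + 2ε = M^{1/m}`. -/
noncomputable def epm (M : ℝ) (m : ℕ) : ℝ := (M ^ ((1 : ℝ) / m) - 1) / 2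

/-- The slope `c_n = max_φ (-2 Σ_{0<k<n} cos kφ)`. -/
noncomputable def slope' (n : ℕ) : ℝ := ⨆ φ : ℝ, -2 * ∑ k ∈ Finset.Ico 1 n, Real.cos (k * φ)

end Pool.Agent.PSB
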