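import Pool.Agent.PSB.Stmts

/-!
PSB, module FC: Fourier coefficients of the real part of a holomorphic function.
-/

set_option autoImplicit false

namespace Pool.Agent.PSB

open MeasureTheory Complex Metric Topology

theorem FC_ee_ne (θ : ℝ) : ee θ ≠ 0 := Complex.exp_ne_zero _

theorem FC_conj_ee (θ : ℝ) : (starRingEnd ℂ) (ee θ) = (ee θ)⁻¹ := by
  rw [ee, ← Complex.exp_conj, ← Complex.exp_neg]
  congr 1
  simp

theorem FC_circle (r θ : ℝ) : circleMap 0 r θ = r * ee θ := by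
  simp [circleMap, ee]

theorem FC_mem (r θ : ℝ) (hr : 0 < r) (hr1 : r < 1) : (r : ℂ) * ee θ ∈ ball (0 : ℂ) 1 := by
  rw [mem_ball_zero_iff, norm_mul, ee, Complex.norm_exp_ofReal_mul_I, mul_one,
    Complex.norm_real, Real.norm_of_nonneg hr.le]
  exact hr1

theorem FC_cont (h : ℂ → ℂ) (hh : DifferentiableOn ℂ h (ball 0 1)) (r : ℝ) (hr : 0 < r)
    (hr1 : r < 1) : Continuous (fun θ : ℝ => h (r * ee θ)) := by
  refine hh.continuousOn.comp_continuous ?_ (fun θ => FC_mem r θ hr hr1)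
  unfold ee
  fun_prop

theorem FC_cont_ee : Continuous ee := by
  unfold ee
  fun_prop

theorem FC_mean (h : ℂ → ℂ) (hh : DifferentiableOn ℂ h (ball 0 1)) (r : ℝ) (hr : 0 < r)
    (hr1 : r < 1) (k : ℕ) :
    ∫ θ in (0 : ℝ)..(2 * Real.pi), h (r * ee θ) * (starRingEnd ℂ) (ee θ) ^ k =
      2 * Real.pi * ((r : ℂ) ^ k * coeff h k) := by
  have hcl : DifferentiableOn ℂ h (closedBall 0 r) :=
    hh.mono (closedBall_subset_ball hr1)
  have h1 := DifferentiableOn.circleIntegral_one_div_sub_center_pow_smul hr k hcl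
  have hrc : (r : ℂ) ≠ 0 := by exact_mod_cast hr.ne'
  have h2 : (∮ z in C((0 : ℂ), r), (1 / (z - 0) ^ (k + 1)) • h z) =
      (I * ((r : ℂ) ^ k)⁻¹) *
        ∫ θ in (0 : ℝ)..(2 * Real.pi), h (r * ee θ) * (starRingEnd ℂ) (ee θ) ^ k := by
    rw [circleIntegral, ← intervalIntegral.integral_const_mul]
    refine intervalIntegral.integral_congr (fun θ _ => ?_)
    simp only [deriv_circleMap, FC_circle, sub_zero, smul_eq_mul, FC_conj_ee, inv_pow]
    have he := FC_ee_ne θ
    have hek : ee θ ^ k ≠ 0 := pow_ne_zero _ he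
    have hrk : (r : ℂ) ^ k ≠ 0 := pow_ne_zero _ hrc
    rw [pow_succ, mul_pow]
    field_simp
  rw [h2] at h1
  have h3 : (I * ((r : ℂ) ^ k)⁻¹) ≠ 0 :=
    mul_ne_zero I_ne_zero (inv_ne_zero (pow_ne_zero _ hrc))
  apply mul_left_cancel₀ h3
  rw [h1, coeff, smul_eq_mul]
  have h4 : ((k.factorial : ℕ) : ℂ) ≠ 0 := by exact_mod_cast k.factorial_ne_zero
  field_simp

theorem FC_pos (h : ℂ → ℂ) (hh : DifferentiableOn ℂ h (ball 0 1)) (r : ℝ) (hr : 0 < r)
    (hr1 : r < 1) (k : ℕ) :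
    ∫ θ in (0 : ℝ)..(2 * Real.pi), h (r * ee θ) * (ee θ) ^ k =
      2 * Real.pi * (h 0 * 0 ^ k) := by
  have hrc : (r : ℂ) ≠ 0 := by exact_mod_cast hr.ne'
  have h1 := FC_mean (fun z => h z * z ^ k) (hh.mul (differentiableOn_id.pow k)) r hr hr1 0
  simp only [pow_zero, mul_one, one_mul, coeff, iteratedDeriv_zero, Nat.factorial_zero,
    Nat.cast_one, div_one] at h1
  have h2 : (∫ θ in (0 : ℝ)..(2 * Real.pi), h (r * ee θ) * (r * ee θ) ^ k) =
      (r : ℂ) ^ k * ∫ θ in (0 : ℝ)..(2 * Real.pi), h (r * ee θ) * (ee θ) ^ k := by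
    rw [← intervalIntegral.integral_const_mul]
    refine intervalIntegral.integral_congr (fun θ _ => ?_)
    simp only [mul_pow]
    ring
  rw [h2] at h1
  rcases Nat.eq_zero_or_pos k with hk | hk
  · subst hk
    simpa using h1
  · have h3 : (0 : ℂ) ^ k = 0 := zero_pow hk.ne'
    rw [h3, mul_zero, mul_zero] at h1 ⊢
    exact (mul_eq_zero.1 h1).resolve_left (pow_ne_zero _ hrc)

theorem fc_proof : Stmt_FC := by
  intro h hh r hr hr1 k
  have hc1 := FC_cont h hh r hr hr1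
  have hc2 := FC_cont_ee
  have hs : ∀ θ : ℝ, (((h (r * ee θ)).re : ℝ) : ℂ) * (starRingEnd ℂ) (ee θ) ^ k =
      (1 / 2) * (h (r * ee θ) * (starRingEnd ℂ) (ee θ) ^ k) +
      (1 / 2) * (starRingEnd ℂ) (h (r * ee θ) * (ee θ) ^ k) := by
    intro θ
    rw [Complex.re_eq_add_conj, map_mul, map_pow]
    ring
  have hi1 : IntervalIntegrable (fun θ : ℝ => (1 / 2 : ℂ) *
      (h (r * ee θ) * (starRingEnd ℂ) (ee θ) ^ k)) volume 0 (2 * Real.pi) := by
    apply Continuous.intervalIntegrable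
    exact continuous_const.mul (hc1.mul ((Complex.continuous_conj.comp hc2).pow k))
  have hi2 : IntervalIntegrable (fun θ : ℝ => (1 / 2 : ℂ) *
      (starRingEnd ℂ) (h (r * ee θ) * (ee θ) ^ k)) volume 0 (2 * Real.pi) := by
    apply Continuous.intervalIntegrable
    exact continuous_const.mul (Complex.continuous_conj.comp (hc1.mul (hc2.pow k)))
  have hconj : (∫ θ in (0 : ℝ)..(2 * Real.pi), (starRingEnd ℂ) (h (r * ee θ) * (ee θ) ^ k)) =
      (starRingEnd ℂ) (∫ θ in (0 : ℝ)..(2 * Real.pi), h (r * ee θ) * (ee θ) ^ k) := by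
    rw [intervalIntegral.integral_of_le Real.two_pi_pos.le,
      intervalIntegral.integral_of_le Real.two_pi_pos.le]
    exact integral_conj
  simp_rw [hs]
  rw [intervalIntegral.integral_add hi1 hi2, intervalIntegral.integral_const_mul,
    intervalIntegral.integral_const_mul, hconj, FC_mean h hh r hr hr1 k, FC_pos h hh r hr hr1 k]
  rcases Nat.eq_zero_or_pos k with hk | hk
  · subst hk
    simp only [pow_zero, mul_one, one_mul, coeff, iteratedDeriv_zero, Nat.factorial_zero,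
      Nat.cast_one, div_one, if_true]
    have h2 : (starRingEnd ℂ) 2 = 2 := Complex.conj_ofNat 2
    rw [Complex.re_eq_add_conj, map_mul, map_mul, Complex.conj_ofReal, h2]
    ring
  · rw [zero_pow hk.ne', if_neg hk.ne']
    simp
    ring

end Pool.Agent.PSB
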