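import Pool.Agent.PSB.Stmts

/-!
PSB, module CHN: compositions of step maps.
-/

set_option autoImplicit false

namespace Pool.Agent.PSB

open MeasureTheory Complex Metric

namespace CHN_

lemma selfU_id : SelfU (fun z : ℂ => z) where
  diff := differentiableOn_id
  inj := fun _ _ _ _ h => h
  zero := rfl
  maps := fun z hz => by simpa using hz

lemma selfU_comp {F G : ℂ → ℂ} (hF : SelfU F) (hG : SelfU G) :
    SelfU (fun z => G (F z)) where
  diff := hG.diff.comp hF.diff (fun z hz => mem_ball_zero_iff.2 (hF.maps z hz))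
  inj := fun z hz w hw h => hF.inj hz hw (hG.inj (mem_ball_zero_iff.2 (hF.maps z hz))
    (mem_ball_zero_iff.2 (hF.maps w hw)) h)
  zero := by
    show G (F 0) = 0
    rw [hF.zero, hG.zero]
  maps := fun z hz => hG.maps (F z) (mem_ball_zero_iff.2 (hF.maps z hz))

end CHN_

open CHN_ in
theorem chn_proof (h1 : Stmt_JCM) (h2 : Stmt_STP) : Stmt_CHN := by
  intro ε κ hε hκ N
  induction N with
  | zero =>
    refine ⟨selfU_id, ?_⟩
    have e1 : chA ε κ 0 = 0 := by simp [chA]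
    have e2 : chB ε κ 0 = 0 := by simp [chB, chQ, e1]
    rw [e1, e2]
    unfold Jet3
    have e3 : (fun z : ℂ => chain ε κ 0 z
        - ((sc ε : ℂ) ^ 0 * z + (sc ε : ℂ) ^ 0 * 0 * z ^ 2 + (sc ε : ℂ) ^ 0 * 0 * z ^ 3))
        = fun _ => 0 := by
      funext z
      show z - _ = 0
      ring
    rw [e3]
    exact Asymptotics.isBigO_zero _ _
  | succ N ih =>
    obtain ⟨hS, hJ⟩ := ih
    obtain ⟨hS', hJ'⟩ := h2 ε (κ N) hε (hκ N)
    have hC : SelfU (fun z => stp ε (κ N) (chain ε κ N z)) :=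
      selfU_comp (F := chain ε κ N) (G := stp ε (κ N)) hS hS'
    refine ⟨hC, ?_⟩
    have h := h1 _ _ _ _ _ _ _ _ hJ hJ'
    have a1 : chA ε κ (N + 1) = chA ε κ N - 2 * (ε : ℂ) * (rho ε : ℂ) * κ N * (sc ε : ℂ) ^ N := by
      unfold chA
      rw [Finset.sum_range_succ]
      ring
    have a2 : chQ ε κ (N + 1) = chQ ε κ N + κ N ^ 2 * (sc ε : ℂ) ^ (2 * N) := by
      unfold chQ
      rw [Finset.sum_range_succ]
    have c1 : (sc ε : ℂ) ^ (N + 1) = (sc ε : ℂ) * (sc ε : ℂ) ^ N := by ring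
    have c2 : (sc ε : ℂ) ^ (N + 1) * chA ε κ (N + 1) =
        (sc ε : ℂ) * ((sc ε : ℂ) ^ N * chA ε κ N)
          + (sc ε : ℂ) * (-2 * ε * rho ε * κ N) * ((sc ε : ℂ) ^ N) ^ 2 := by
      rw [a1]
      ring
    have c3 : (sc ε : ℂ) ^ (N + 1) * chB ε κ (N + 1) =
        (sc ε : ℂ) * ((sc ε : ℂ) ^ N * chB ε κ N)
          + 2 * ((sc ε : ℂ) * (-2 * ε * rho ε * κ N)) * (sc ε : ℂ) ^ N
            * ((sc ε : ℂ) ^ N * chA ε κ N)
          + (sc ε : ℂ) * (-2 * ε * rho ε ^ 2 * κ N ^ 2) * ((sc ε : ℂ) ^ N) ^ 3 := by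
      unfold chB
      rw [a1, a2]
      ring
    rw [c2, c3, c1]
    exact h

end Pool.Agent.PSB
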