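import Pool.Agent.PSB.Stmts

/-!
Partial sums of bounded univalent functions (MP_910507_an): closed forms for the optimal choice of
directions.
-/

set_option autoImplicit false

namespace Pool.Agent.PSB

namespace CLS_

theorem sum_pairs {E : Type*} [AddCommMonoid E] (f : ℕ → E) (m : ℕ) :
    ∑ i ∈ Finset.range (2 * m), f i = ∑ i ∈ Finset.range m, (f (2 * i) + f (2 * i + 1)) := by
  induction m with
  | zero => simp
  | succ m ih =>
    rw [show 2 * (m + 1) = 2 * m + 1 + 1 by ring, Finset.sum_range_succ, Finset.sum_range_succ, ih,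
      Finset.sum_range_succ, add_assoc]

theorem one_add_epm {M : ℝ} {m : ℕ} : 1 + 2 * epm M m = M ^ ((1 : ℝ) / m) := by
  unfold epm; ring

theorem one_lt_root {M : ℝ} (hM : 1 < M) {m : ℕ} (hm : 1 ≤ m) : 1 < M ^ ((1 : ℝ) / m) := by
  apply Real.one_lt_rpow hM
  have : (0 : ℝ) < m := by exact_mod_cast hm
  positivity

theorem epm_pos {M : ℝ} (hM : 1 < M) {m : ℕ} (hm : 1 ≤ m) : 0 < epm M m := by
  have := one_lt_root hM hm
  unfold epm; linarith

theorem root_pow {M : ℝ} (hM : 1 < M) {m : ℕ} (hm : 1 ≤ m) : (M ^ ((1 : ℝ) / m)) ^ m = M := by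
  rw [one_div]
  exact Real.rpow_inv_natCast_pow (by linarith) (by omega)

theorem sc_pos {M : ℝ} (hM : 1 < M) {m : ℕ} (hm : 1 ≤ m) : 0 < sc (epm M m) := by
  unfold sc
  rw [one_add_epm]
  have := one_lt_root hM hm
  positivity

theorem sc_sq {M : ℝ} (hM : 1 < M) {m : ℕ} (hm : 1 ≤ m) :
    sc (epm M m) ^ 2 = 1 / M ^ ((1 : ℝ) / m) := by
  unfold sc
  rw [one_add_epm, div_pow, Real.sq_sqrt, one_pow]
  have := one_lt_root hM hm
  linarith

theorem sc_pow {M : ℝ} (hM : 1 < M) {m : ℕ} (hm : 1 ≤ m) :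
    sc (epm M m) ^ (2 * m) = 1 / M := by
  rw [pow_mul, sc_sq hM hm, div_pow, one_pow, root_pow hM hm]

theorem sc_lt_one {M : ℝ} (hM : 1 < M) {m : ℕ} (hm : 1 ≤ m) : sc (epm M m) < 1 := by
  have h1 := sc_sq hM hm
  have h2 := one_lt_root hM hm
  have h3 : sc (epm M m) ^ 2 < 1 := by
    rw [h1, div_lt_one (by linarith)]; exact h2
  nlinarith [sc_pos hM hm]

theorem rho_mem {ε : ℝ} (h : 0 < ε) : 0 ≤ rho ε ∧ rho ε ≤ 1 := by
  unfold rho
  have h1 : 0 ≤ Real.sqrt (2 * ε / (1 + 2 * ε)) := Real.sqrt_nonneg _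
  have h2 : Real.sqrt (2 * ε / (1 + 2 * ε)) ≤ 1 := by
    rw [Real.sqrt_le_one]
    rw [div_le_one (by linarith)]
    linarith
  exact ⟨by linarith, by linarith⟩

/-- The directions. -/
noncomputable def kap (s σ : ℝ) (m : ℕ) (j : ℕ) : ℂ :=
  if j < 2 * m then
    (if j % 2 = 0 then ⟨-σ / s ^ (2 * (j / 2)), Real.sqrt (1 - (-σ / s ^ (2 * (j / 2))) ^ 2)⟩
    else ⟨-σ / s ^ (2 * (j / 2)), -Real.sqrt (1 - (-σ / s ^ (2 * (j / 2))) ^ 2)⟩)
  else 1

theorem c_sq {s σ : ℝ} {m : ℕ} (hs : 0 < s) (hs1 : s < 1) (h0 : 0 ≤ σ) (h1 : σ ≤ s ^ (2 * m))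
    {i : ℕ} (hi : i < m) : (-σ / s ^ (2 * i)) ^ 2 ≤ 1 := by
  have hp : 0 < s ^ (2 * i) := pow_pos hs _
  have hle : s ^ (2 * m) ≤ s ^ (2 * i) := pow_le_pow_of_le_one hs.le hs1.le (by omega)
  have h2 : σ / s ^ (2 * i) ≤ 1 := by
    rw [div_le_one hp]; exact h1.trans hle
  have h3 : 0 ≤ σ / s ^ (2 * i) := by positivity
  rw [neg_div, neg_sq]
  nlinarith

theorem kap_norm {s σ : ℝ} {m : ℕ} (hs : 0 < s) (hs1 : s < 1) (h0 : 0 ≤ σ)
    (h1 : σ ≤ s ^ (2 * m)) (j : ℕ) : ‖kap s σ m j‖ = 1 := by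
  have key : ∀ c : ℝ, c ^ 2 ≤ 1 → ∀ d : ℝ, d ^ 2 = 1 - c ^ 2 → ‖(⟨c, d⟩ : ℂ)‖ = 1 := by
    intro c _ d hd
    rw [Complex.norm_def, Complex.normSq_mk, show c * c + d * d = 1 by nlinarith, Real.sqrt_one]
  unfold kap
  split_ifs with h h'
  · have hc := c_sq hs hs1 h0 h1 (i := j / 2) (by omega)
    exact key _ hc _ (Real.sq_sqrt (by linarith))
  · have hc := c_sq hs hs1 h0 h1 (i := j / 2) (by omega)
    exact key _ hc _ (by rw [neg_sq]; exact Real.sq_sqrt (by linarith))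
  · simp

theorem kap_even {s σ : ℝ} {m i : ℕ} (hi : i < m) :
    kap s σ m (2 * i) =
      ⟨-σ / s ^ (2 * i), Real.sqrt (1 - (-σ / s ^ (2 * i)) ^ 2)⟩ := by
  unfold kap
  rw [if_pos (by omega), if_pos (by omega), show 2 * i / 2 = i by omega]

theorem kap_odd {s σ : ℝ} {m i : ℕ} (hi : i < m) :
    kap s σ m (2 * i + 1) =
      ⟨-σ / s ^ (2 * i), -Real.sqrt (1 - (-σ / s ^ (2 * i)) ^ 2)⟩ := by
  unfold kap
  rw [if_pos (by omega), if_neg (by omega), show (2 * i + 1) / 2 = i by omega]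

theorem re_mul_pow (z : ℂ) (s : ℝ) (k : ℕ) : (z * (s : ℂ) ^ k).re = z.re * s ^ k := by
  rw [← Complex.ofReal_pow, Complex.re_mul_ofReal]

theorem im_mul_pow (z : ℂ) (s : ℝ) (k : ℕ) : (z * (s : ℂ) ^ k).im = z.im * s ^ k := by
  rw [← Complex.ofReal_pow, Complex.im_mul_ofReal]

end CLS_

open CLS_ in
theorem cls_proof : Stmt_CLS := by
  intro M σ m hM h0 h1 hm
  obtain ⟨ε, hε⟩ : ∃ ε, ε = epm M m := ⟨_, rfl⟩
  obtain ⟨s, hs⟩ : ∃ s, s = sc ε := ⟨_, rfl⟩
  have hεpos : 0 < ε := by rw [hε]; exact epm_pos hM hm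
  have hspos : 0 < s := by rw [hs, hε]; exact sc_pos hM hm
  have hs1 : s < 1 := by rw [hs, hε]; exact sc_lt_one hM hm
  have hsp : s ^ (2 * m) = 1 / M := by rw [hs, hε]; exact sc_pow hM hm
  have hσ : σ ≤ s ^ (2 * m) := by rw [hsp]; exact h1
  obtain ⟨hr0, hr1⟩ := rho_mem hεpos
  rw [← hε, ← hs]
  have hm0 : (0 : ℝ) < m := by exact_mod_cast hm
  refine ⟨kap s σ m, kap_norm hspos hs1 h0 hσ, ?_, ?_, ?_⟩
  · have e : (-2 * (ε : ℂ) * (rho ε : ℂ)) = ((-2 * ε * rho ε : ℝ) : ℂ) := by push_cast; ring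
    unfold chA
    rw [← hs, e, Complex.re_ofReal_mul, sum_pairs, Complex.re_sum]
    have : ∀ i ∈ Finset.range m, (kap s σ m (2 * i) * (s : ℂ) ^ (2 * i) +
        kap s σ m (2 * i + 1) * (s : ℂ) ^ (2 * i + 1)).re = -(σ * (1 + s)) := by
      intro i hi
      have hi' : i < m := Finset.mem_range.1 hi
      rw [Complex.add_re, re_mul_pow, re_mul_pow, kap_even hi', kap_odd hi']
      have hp : s ^ (2 * i) ≠ 0 := (pow_pos hspos _).ne'
      simp only [pow_succ]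
      field_simp
      ring
    rw [Finset.sum_congr rfl this, Finset.sum_const, Finset.card_range, nsmul_eq_mul]
    ring
  · have e : (-2 * (ε : ℂ) * (rho ε : ℂ)) = ((-2 * ε * rho ε : ℝ) : ℂ) := by push_cast; ring
    unfold chA
    rw [← hs, e, Complex.im_ofReal_mul, sum_pairs, Complex.im_sum, abs_mul]
    have hb : |∑ i ∈ Finset.range m, (kap s σ m (2 * i) * (s : ℂ) ^ (2 * i) +
        kap s σ m (2 * i + 1) * (s : ℂ) ^ (2 * i + 1)).im| ≤ m * (1 - s) := by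
      refine (Finset.abs_sum_le_sum_abs _ _).trans ?_
      have : ∀ i ∈ Finset.range m, |(kap s σ m (2 * i) * (s : ℂ) ^ (2 * i) +
          kap s σ m (2 * i + 1) * (s : ℂ) ^ (2 * i + 1)).im| ≤ 1 - s := by
        intro i hi
        have hi' : i < m := Finset.mem_range.1 hi
        rw [Complex.add_im, im_mul_pow, im_mul_pow, kap_even hi', kap_odd hi']
        have hd0 := Real.sqrt_nonneg (1 - (-σ / s ^ (2 * i)) ^ 2)
        have hd1 : Real.sqrt (1 - (-σ / s ^ (2 * i)) ^ 2) ≤ 1 := by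
          rw [Real.sqrt_le_one]
          have := sq_nonneg (-σ / s ^ (2 * i))
          linarith
        generalize Real.sqrt (1 - (-σ / s ^ (2 * i)) ^ 2) = d at hd0 hd1
        have hp0 : 0 ≤ s ^ (2 * i) := (pow_pos hspos _).le
        have hp1 : s ^ (2 * i) ≤ 1 := pow_le_one₀ hspos.le hs1.le
        have e2 : d * s ^ (2 * i) + -d * s ^ (2 * i + 1) = d * s ^ (2 * i) * (1 - s) := by ring
        simp only [e2]
        have h2 : 0 ≤ d * s ^ (2 * i) := mul_nonneg hd0 hp0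
        have h3 : d * s ^ (2 * i) ≤ 1 := mul_le_one₀ hd1 hp0 hp1
        rw [abs_of_nonneg (mul_nonneg h2 (by linarith))]
        exact mul_le_of_le_one_left (by linarith) h3
      refine (Finset.sum_le_sum this).trans ?_
      rw [Finset.sum_const, Finset.card_range, nsmul_eq_mul]
    have e3 : |-2 * ε * rho ε| = 2 * ε * rho ε := by
      rw [show -2 * ε * rho ε = -(2 * ε * rho ε) by ring, abs_neg,
        abs_of_nonneg (mul_nonneg (by linarith) hr0)]
    rw [e3]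
    calc 2 * ε * rho ε * _ ≤ 2 * ε * 1 * (m * (1 - s)) := by
          apply mul_le_mul _ hb (abs_nonneg _) (by linarith)
          exact mul_le_mul_of_nonneg_left hr1 (by linarith)
      _ = 2 * ε * (1 - s) * m := by ring
  · unfold chQ
    rw [← hs, sum_pairs, Complex.re_sum]
    have : ∀ i ∈ Finset.range m, (kap s σ m (2 * i) ^ 2 * (s : ℂ) ^ (2 * (2 * i)) +
        kap s σ m (2 * i + 1) ^ 2 * (s : ℂ) ^ (2 * (2 * i + 1))).re =
          (1 + s ^ 2) * (2 * σ ^ 2 - (s ^ 4) ^ i) := by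
      intro i hi
      have hi' : i < m := Finset.mem_range.1 hi
      rw [Complex.add_re, re_mul_pow, re_mul_pow, kap_even hi', kap_odd hi']
      have hc := c_sq hspos hs1 h0 hσ hi'
      have hd : Real.sqrt (1 - (-σ / s ^ (2 * i)) ^ 2) ^ 2 = 1 - (-σ / s ^ (2 * i)) ^ 2 :=
        Real.sq_sqrt (by linarith)
      generalize Real.sqrt (1 - (-σ / s ^ (2 * i)) ^ 2) = d at hd
      have hp : s ^ (2 * i) ≠ 0 := (pow_pos hspos _).ne'
      have e1 : ((⟨-σ / s ^ (2 * i), d⟩ : ℂ) ^ 2).re = (-σ / s ^ (2 * i)) ^ 2 - d ^ 2 := by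
        rw [sq, Complex.mul_re]; ring
      have e2 : ((⟨-σ / s ^ (2 * i), -d⟩ : ℂ) ^ 2).re = (-σ / s ^ (2 * i)) ^ 2 - d ^ 2 := by
        rw [sq, Complex.mul_re]; ring
      rw [e1, e2, hd]
      have e3 : s ^ (2 * (2 * i)) = s ^ (2 * i) * s ^ (2 * i) := by ring
      have e4 : s ^ (2 * (2 * i + 1)) = s ^ (2 * i) * s ^ (2 * i) * s ^ 2 := by ring
      have e5 : (s ^ 4) ^ i = s ^ (2 * i) * s ^ (2 * i) := by
        rw [← pow_mul, ← pow_add]; congr 1; ring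
      rw [e3, e4, e5]
      field_simp
      ring
    rw [Finset.sum_congr rfl this, ← Finset.mul_sum, Finset.sum_sub_distrib, Finset.sum_const,
      Finset.card_range, nsmul_eq_mul, geom_sum_eq]
    · have e6 : (s ^ 4) ^ m = (1 / M) ^ 2 := by
        rw [← hsp, ← pow_mul, ← pow_mul]; congr 1; ring
      rw [e6]
      have hlt : s ^ 4 < 1 := pow_lt_one₀ hspos.le hs1 (by norm_num)
      have h5 : s ^ 4 - 1 ≠ 0 := by linarith
      have h6 : 1 - s ^ 4 ≠ 0 := by linarith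
      have hM0 : M ≠ 0 := by linarith
      have e7 : ((1 / M) ^ 2 - 1) / (s ^ 4 - 1) = (1 - 1 / M ^ 2) / (1 - s ^ 4) := by
        rw [div_eq_div_iff h5 h6]
        field_simp
        ring
      rw [e7]
      ring
    · have hlt : s ^ 4 < 1 := pow_lt_one₀ hspos.le hs1 (by norm_num)
      exact hlt.ne

end Pool.Agent.PSB
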