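import Pool.Agent.PSB.Stmts
import Pool.Agent.StarN.InjDeriv

/-!
PSB, module DSL: divided differences of an injective holomorphic function.
-/

set_option autoImplicit false

namespace Pool.Agent.PSB

open MeasureTheory Complex Metric Topology

theorem dsl_proof : Stmt_DSL := by
  intro F hF hinj h0 ζ hζ
  have hopen : ball (0 : ℂ) 1 ∈ 𝓝 ζ := isOpen_ball.mem_nhds hζ
  have hopen0 : ball (0 : ℂ) 1 ∈ 𝓝 (0 : ℂ) := isOpen_ball.mem_nhds (by simp)
  refine ⟨(Complex.differentiableOn_dslope hopen).2 hF, ?_, ?_⟩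
  · intro z hz
    by_cases h : z = ζ
    · rw [h, dslope_same]
      exact Pool.Agent.StarN.deriv_ne_zero_of_injOn hopen (hF.analyticAt hopen) hinj
    · rw [dslope_of_ne _ h, slope_def_field]
      exact div_ne_zero (sub_ne_zero.2 (fun e => h (hinj hz hζ e))) (sub_ne_zero.2 h)
  · intro hne
    have key : dslope F ζ =ᶠ[𝓝 0] fun z => (F z - F ζ) / (z - ζ) := by
      filter_upwards [isOpen_ne.mem_nhds hne.symm] with z hz
      rw [dslope_of_ne _ hz, slope_def_field]
    have e0 : dslope F ζ 0 = F ζ / ζ := by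
      rw [key.self_of_nhds]
      simp only [h0]
      field_simp
      ring
    have hFζ : F ζ ≠ 0 := by
      intro e
      exact hne (hinj hζ (mem_ball_self one_pos) (e.trans h0.symm))
    have hd0 : HasDerivAt F (deriv F 0) 0 := (hF.differentiableAt hopen0).hasDerivAt
    have hd : HasDerivAt (fun z => (F z - F ζ) / (z - ζ))
        ((deriv F 0 * (0 - ζ) - (F 0 - F ζ) * 1) / (0 - ζ) ^ 2) 0 := by
      refine HasDerivAt.div (hd0.sub_const _) ((hasDerivAt_id _).sub_const _) ?_
      simpa using hne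
    have e1 : deriv (dslope F ζ) 0 = (deriv F 0 * (0 - ζ) - (F 0 - F ζ) * 1) / (0 - ζ) ^ 2 := by
      rw [key.deriv_eq, hd.deriv]
    refine ⟨e0, ?_⟩
    rw [e0, e1, h0]
    field_simp
    ring

end Pool.Agent.PSB
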