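import Pool.Agent.PSB.Stmts

/-!
PSB module ENG: the energy inequality on the circle of radius `r`.
-/

set_option autoImplicit false

namespace Pool.Agent.PSB

open MeasureTheory Complex Metric

open scoped ComplexConjugate

namespace ENG_

theorem norm_ee (α : ℝ) : ‖ee α‖ = 1 := by
  unfold ee
  exact Complex.norm_exp_ofReal_mul_I α

theorem cont_ee : Continuous ee := by
  unfold ee
  fun_prop

theorem cont_phi (x0 : ℝ) (x1 : ℂ) : Continuous (phi x0 x1) := by
  unfold phi
  have h := cont_ee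
  have h1 : Continuous fun θ : ℝ => (x1 * ee θ).re :=
    Complex.continuous_re.comp (continuous_const.mul h)
  exact continuous_const.add (continuous_const.mul h1)

theorem norm_ree {r : ℝ} (hr : 0 < r) (α : ℝ) : ‖(r : ℂ) * ee α‖ = r := by
  rw [norm_mul, norm_ee, mul_one, Complex.norm_real, Real.norm_eq_abs, abs_of_pos hr]

theorem ree_mem {r : ℝ} (hr : 0 < r) (hr1 : r < 1) (α : ℝ) :
    (r : ℂ) * ee α ∈ ball (0 : ℂ) 1 := by
  rw [mem_ball_zero_iff, norm_ree hr]
  exact hr1

theorem nu_int (g : ℝ → ℝ) : ∫ x, g x ∂nu = ∫ x in (0 : ℝ)..(2 * Real.pi), g x := by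
  unfold nu
  rw [intervalIntegral.integral_of_le (by positivity)]

end ENG_

open ENG_ in
theorem eng_proof (hG : Stmt_GLM) (hL : Stmt_LOW) (hI : Stmt_INN) (hO : Stmt_OUT) : Stmt_ENG := by
  intro F hF b a2 a3 hb hb0 h2 h3 r hr hr1 x0 x1
  obtain ⟨w, hw⟩ : ∃ w : ℝ → ℂ, w = fun α => F (r * ee α) := ⟨_, rfl⟩
  have hwa : ∀ α, w α = F (r * ee α) := fun α => by rw [hw]
  have hwc : Continuous w := by
    rw [hw]
    exact hF.diff.continuousOn.comp_continuous (continuous_const.mul cont_ee)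
      (fun α => ree_mem hr hr1 α)
  have hφc := cont_phi x0 x1
  have hw0 : ∀ α, w α ≠ 0 := by
    intro α h
    rw [hwa, ← hF.zero] at h
    have h1 := hF.inj (ree_mem hr hr1 α) (mem_ball_self one_pos) h
    have h3 := norm_ree hr α
    rw [h1, norm_zero] at h3
    linarith
  have hw1 : ∀ α, ‖w α‖ < 1 := fun α => by
    rw [hwa]
    exact hF.maps _ (ree_mem hr hr1 α)
  obtain ⟨c, hc, hlow⟩ := hL F hF.diff hF.inj r hr hr1
  have hlow' : ∀ α β, c * r * ‖ee α - ee β‖ ≤ ‖w α - w β‖ := by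
    intro α β
    have h := hlow (r * ee α) (by rw [mem_closedBall_zero_iff, norm_ree hr])
      (r * ee β) (by rw [mem_closedBall_zero_iff, norm_ree hr])
    rw [← mul_sub, norm_mul, Complex.norm_real, Real.norm_eq_abs, abs_of_pos hr] at h
    rw [hwa, hwa]
    linarith
  obtain ⟨hint, hpos⟩ := hG w (phi x0 x1) (c * r) hwc hφc hw0 hw1 (by positivity) hlow'
  have key : I2 (fun α β => GD (w α) (w β) * (phi x0 x1 α * phi x0 x1 β)) =
      2 * Real.pi * (2 * Real.pi * (-(r ^ 2 * ‖b‖ ^ 2 * ‖x1‖ ^ 2) - x0 ^ 2 * Real.log ‖b‖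
        - 2 * r * x0 * (conj x1 * a2).re - r ^ 2 * (conj x1 ^ 2 * (a3 - a2 ^ 2)).re
        - x0 ^ 2 * Real.log r + ‖x1‖ ^ 2)) := by
    rw [← hO F hF b a2 a3 hb hb0 h2 h3 r hr hr1 x0 x1]
    have : SFinite nu := by
      unfold nu
      infer_instance
    unfold I2
    rw [integral_prod_symm _ hint, nu_int, ← intervalIntegral.integral_const_mul]
    refine intervalIntegral.integral_congr (fun β _ => ?_)
    show ∫ α, GD (w α) (w β) * (phi x0 x1 α * phi x0 x1 β) ∂nu = _
    have e1 : (fun α => GD (w α) (w β) * (phi x0 x1 α * phi x0 x1 β)) =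
        fun α => GD (w α) (w β) * phi x0 x1 α * phi x0 x1 β := by
      funext α
      ring
    rw [e1, integral_mul_const, nu_int]
    have e2 := hI F hF r hr hr1 x0 x1 β
    simp only [hwa]
    rw [e2]
    ring
  rw [key] at hpos
  have hpi := Real.pi_pos
  have h4 : 0 < 2 * Real.pi := by positivity
  have h5 := nonneg_of_mul_nonneg_right hpos h4
  exact nonneg_of_mul_nonneg_right h5 h4

end Pool.Agent.PSB
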