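import Pool.Agent.PSB.Stmts

/-!
PSB, module GEO: the extremal map `M * stp` and its Taylor coefficients.
-/

set_option autoImplicit false

namespace Pool.Agent.PSB

open Metric Set Filter Topology

namespace GEO_

theorem coeff_of {f : ℂ → ℂ} {c : ℕ → ℂ}
    (h : ∀ᶠ z in 𝓝 (0 : ℂ), HasSum (fun n => z ^ n * c n) (f z)) (n : ℕ) : coeff f n = c n := by
  have h1 : HasFPowerSeriesAt f (FormalMultilinearSeries.ofScalars ℂ c) 0 := by
    rw [hasFPowerSeriesAt_iff]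
    filter_upwards [h] with z hz
    rw [zero_add]
    simpa [FormalMultilinearSeries.coeff_ofScalars] using hz
  have h2 := (h1.analyticAt).hasFPowerSeriesAt
  have h3 := h2.eq_formalMultilinearSeries h1
  have h4 : (FormalMultilinearSeries.ofScalars ℂ
      (fun n ↦ iteratedDeriv n f 0 / n.factorial)).coeff n =
      (FormalMultilinearSeries.ofScalars ℂ c).coeff n := by rw [h3]
  rw [FormalMultilinearSeries.coeff_ofScalars, FormalMultilinearSeries.coeff_ofScalars] at h4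
  exact h4

/-- the coefficients -/
noncomputable def cc (b a : ℂ) (n : ℕ) : ℂ :=
  if n = 0 then 0 else if n = 1 then 1 else -b * a ^ (n - 1)

theorem hasSum_cc (b a : ℂ) {z : ℂ} (h : ‖a * z‖ < 1) :
    HasSum (fun n => z ^ n * cc b a n) (z - b * (a * z ^ 2) / (1 - a * z)) := by
  rw [← hasSum_nat_add_iff' 2]
  have h1 := (hasSum_geometric_of_norm_lt_one h).mul_left (-b * (a * z ^ 2))
  have e : z - b * (a * z ^ 2) / (1 - a * z) - ∑ i ∈ Finset.range 2, z ^ i * cc b a i =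
      -b * (a * z ^ 2) * (1 - a * z)⁻¹ := by
    simp [Finset.sum_range_succ, cc]
    ring
  rw [e]
  refine h1.congr_fun ?_
  intro n
  simp only [cc]
  rw [if_neg (by omega), if_neg (by omega)]
  have : n + 2 - 1 = n + 1 := by omega
  rw [this]
  ring

theorem sc_eq {M : ℝ} (hM : 1 < M) : sc ((M ^ 2 - 1) / 2) = 1 / M := by
  unfold sc
  have e : 1 + 2 * ((M ^ 2 - 1) / 2) = M ^ 2 := by ring
  rw [e, Real.sqrt_sq (by linarith)]

theorem rho_eq {M : ℝ} (hM : 1 < M) : rho ((M ^ 2 - 1) / 2) = 1 - Real.sqrt (1 - 1 / M ^ 2) := by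
  unfold rho
  have hM0 : M ≠ 0 := by linarith
  have e : 2 * ((M ^ 2 - 1) / 2) / (1 + 2 * ((M ^ 2 - 1) / 2)) = 1 - 1 / M ^ 2 := by
    have e1 : 1 + 2 * ((M ^ 2 - 1) / 2) = M ^ 2 := by ring
    rw [e1]
    field_simp
  rw [e]

theorem fun_eq {M : ℝ} (hM : 1 < M) (κ w : ℂ) : (M : ℂ) * stp ((M ^ 2 - 1) / 2) κ w =
    w - ((M : ℂ) ^ 2 - 1) * (((1 - Real.sqrt (1 - 1 / M ^ 2) : ℝ) : ℂ) * κ * w ^ 2) /
      (1 - ((1 - Real.sqrt (1 - 1 / M ^ 2) : ℝ) : ℂ) * κ * w) := by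
  unfold stp
  rw [sc_eq hM, rho_eq hM]
  have hM0 : (M : ℂ) ≠ 0 := by exact_mod_cast (by linarith : M ≠ 0)
  rw [← mul_assoc]
  have e1 : (M : ℂ) * ((1 / M : ℝ) : ℂ) = 1 := by
    push_cast
    field_simp
  have e2 : 2 * (((M ^ 2 - 1) / 2 : ℝ) : ℂ) = (M : ℂ) ^ 2 - 1 := by
    push_cast
    ring
  rw [e1, e2, one_mul]

end GEO_

open GEO_ in
theorem geo_proof (hstp : Stmt_STP) : Stmt_GEO := by
  intro M κ hM hκ
  obtain ⟨hS, -⟩ := hstp ((M ^ 2 - 1) / 2) κ (by nlinarith) hκ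
  obtain ⟨a, ha⟩ : ∃ a : ℂ, a = ((1 - Real.sqrt (1 - 1 / M ^ 2) : ℝ) : ℂ) * κ := ⟨_, rfl⟩
  have hf : (fun w => (M : ℂ) * stp ((M ^ 2 - 1) / 2) κ w) =
      fun w => w - ((M : ℂ) ^ 2 - 1) * (a * w ^ 2) / (1 - a * w) := by
    funext w
    rw [fun_eq hM, ha]
  have hev : ∀ᶠ z in 𝓝 (0 : ℂ), HasSum (fun n => z ^ n * cc ((M : ℂ) ^ 2 - 1) a n)
      ((fun w => (M : ℂ) * stp ((M ^ 2 - 1) / 2) κ w) z) := by
    have h1 : ∀ᶠ z in 𝓝 (0 : ℂ), ‖a * z‖ < 1 := by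
      have hc : ContinuousAt (fun z : ℂ => ‖a * z‖) 0 := by fun_prop
      exact hc.eventually_lt_const (by simp)
    rw [hf]
    filter_upwards [h1] with z hz
    exact hasSum_cc _ _ hz
  have hc := coeff_of hev
  refine ⟨⟨?_, ?_, ?_, ?_, ?_⟩, ?_⟩
  · exact hS.diff.const_mul _
  · intro x hx y hy hxy
    have hM0 : (M : ℂ) ≠ 0 := by exact_mod_cast (by linarith : M ≠ 0)
    exact hS.inj hx hy (mul_left_cancel₀ hM0 hxy)
  · rw [hS.zero, mul_zero]
  · have h1 := hc 1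
    unfold coeff at h1
    rw [iteratedDeriv_one] at h1
    simpa [cc] using h1
  · intro z hz
    rw [norm_mul]
    have h1 := (hS.maps z hz).le
    have h2 : ‖(M : ℂ)‖ = M := by
      rw [Complex.norm_real, Real.norm_eq_abs, abs_of_pos (by linarith)]
    rw [h2]
    have := mul_le_mul_of_nonneg_left h1 (show (0 : ℝ) ≤ M by linarith)
    linarith
  · intro k hk
    rw [hc (k + 1)]
    unfold cc
    rw [if_neg (by omega), if_neg (by omega), Nat.add_sub_cancel, ha]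

end Pool.Agent.PSB
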