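import Pool.Agent.PSB.Stmts

set_option autoImplicit false

namespace Pool.Agent.PSB

open MeasureTheory Complex Metric

namespace GLB_

theorem coeff_zero {M : ℝ} {f : ℂ → ℂ} (h : InS M f) : coeff f 0 = 0 := by
  simp [coeff, h.zero]

theorem coeff_one {M : ℝ} {f : ℂ → ℂ} (h : InS M f) : coeff f 1 = 1 := by
  simp [coeff, iteratedDeriv_one, h.one]

theorem coeff_le {M : ℝ} {f : ℂ → ℂ} (h : InS M f) (k : ℕ) : ‖coeff f k‖ ≤ M * 2 ^ k := by
  have h1 : ‖iteratedDeriv k f 0‖ ≤ k.factorial * M / (1 / 2 : ℝ) ^ k := by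
    apply Complex.norm_iteratedDeriv_le_of_forall_mem_sphere_norm_le k (by norm_num)
    · apply DifferentiableOn.diffContOnCl
      apply h.diff.mono
      rw [closure_ball _ (by norm_num)]
      exact closedBall_subset_ball (by norm_num)
    · intro z hz
      apply h.bdd
      rw [mem_sphere_iff_norm] at hz
      rw [mem_ball_iff_norm, hz]
      norm_num
  unfold coeff
  rw [norm_div, Complex.norm_natCast, div_le_iff₀ (by positivity)]
  calc ‖iteratedDeriv k f 0‖ ≤ k.factorial * M / (1 / 2 : ℝ) ^ k := h1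
    _ = M * 2 ^ k * k.factorial := by
      rw [one_div, inv_pow]
      field_simp

theorem bdd (n : ℕ) (M : ℝ) :
    BddAbove {r : ℝ | ∃ f : ℂ → ℂ, InS M f ∧ ∃ z : ℂ, ‖z‖ = 1 ∧ r = ‖psum f n z‖} := by
  refine ⟨∑ k ∈ Finset.range (n + 1), M * 2 ^ k, ?_⟩
  rintro r ⟨f, hf, z, hz, rfl⟩
  unfold psum
  refine (norm_sum_le _ _).trans (Finset.sum_le_sum fun k _ => ?_)
  rw [norm_mul, norm_pow, hz, one_pow, mul_one]
  exact coeff_le hf k

end GLB_

theorem glb_proof (h1 : Stmt_GEO) : Stmt_GLB := by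
  intro M hM n hn φ
  obtain ⟨hS, hc⟩ := h1 M (ee φ) hM (by unfold ee; exact Complex.norm_exp_ofReal_mul_I φ)
  refine le_csSup (GLB_.bdd n M) ⟨_, hS, 1, norm_one, ?_⟩
  congr 1
  unfold psum
  obtain ⟨m, rfl⟩ : ∃ m, n = m + 1 := ⟨n - 1, by omega⟩
  rw [Finset.sum_range_succ', Finset.sum_range_succ']
  rw [GLB_.coeff_zero hS]
  have h2 := GLB_.coeff_one hS
  simp only [zero_add, one_pow, mul_one]
  rw [h2, add_zero, Finset.sum_Ico_eq_sum_range, Finset.mul_sum]
  simp only [Nat.add_sub_cancel]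
  rw [sub_eq_add_neg, add_comm, ← Finset.sum_neg_distrib]
  congr 1
  refine Finset.sum_congr rfl fun k _ => ?_
  rw [hc (k + 1) (by omega), mul_pow]
  have h3 : ee (φ) ^ (k + 1) = ee (((1 + k : ℕ) : ℝ) * φ) := by
    unfold ee
    rw [← Complex.exp_nat_mul]
    congr 1
    push_cast
    ring
  rw [h3]
  rw [add_comm k 1]
  ring

end Pool.Agent.PSB
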