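import Pool.Agent.PSB.Stmts

set_option autoImplicit false

/-!
PSB, module GPD: positive definiteness of the regularised Green kernel.
-/

namespace Pool.Agent.PSB

open MeasureTheory Complex Set

namespace GPD_

/-- The integrand as a function of the point and the level. -/
noncomputable def F (τ : ℝ) (w : ℝ → ℂ) (φ : ℝ → ℝ) (p : ℝ × ℝ) (s : ℝ) : ℝ :=
  KS τ s (w p.1) (w p.2) / s * (φ p.1 * φ p.2)

theorem meas (τ : ℝ) (w : ℝ → ℂ) (φ : ℝ → ℝ) (hw : Continuous w) (hφ : Continuous φ) :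
    Measurable (Function.uncurry (F τ w φ)) := by
  have hw1 : Measurable (fun x : (ℝ × ℝ) × ℝ => w x.1.1) :=
    hw.measurable.comp (measurable_fst.comp measurable_fst)
  have hw2 : Measurable (fun x : (ℝ × ℝ) × ℝ => w x.1.2) :=
    hw.measurable.comp (measurable_snd.comp measurable_fst)
  have hp1 : Measurable (fun x : (ℝ × ℝ) × ℝ => φ x.1.1) :=
    hφ.measurable.comp (measurable_fst.comp measurable_fst)
  have hp2 : Measurable (fun x : (ℝ × ℝ) × ℝ => φ x.1.2) :=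
    hφ.measurable.comp (measurable_snd.comp measurable_fst)
  have hs : Measurable (fun x : (ℝ × ℝ) × ℝ => x.2) := measurable_snd
  have hsc : Measurable (fun x : (ℝ × ℝ) × ℝ => (x.2 : ℂ)) := measurable_ofReal.comp hs
  have hc1 : Measurable (fun x : (ℝ × ℝ) × ℝ => (starRingEnd ℂ) (w x.1.1)) :=
    Complex.continuous_conj.measurable.comp hw1
  have hset : MeasurableSet {x : (ℝ × ℝ) × ℝ | ‖w x.1.1‖ ≤ x.2 ∧ ‖w x.1.2‖ ≤ x.2} := by
    apply MeasurableSet.inter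
    · exact measurableSet_le hw1.norm hs
    · exact measurableSet_le hw2.norm hs
  have hK : Measurable (fun x : (ℝ × ℝ) × ℝ => KS τ x.2 (w x.1.1) (w x.1.2)) := by
    unfold KS
    refine Measurable.ite hset ?_ measurable_const
    apply Complex.measurable_re.comp
    have h1 : Measurable (fun x : (ℝ × ℝ) × ℝ =>
        (τ : ℂ) * ((starRingEnd ℂ) (w x.1.1) * w x.1.2)) :=
      (hc1.mul hw2).const_mul _
    have h2 : Measurable (fun x : (ℝ × ℝ) × ℝ => (x.2 : ℂ) ^ 2) := hsc.pow_const 2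
    exact (h2.add h1).div (h2.sub h1)
  exact (hK.div hs).mul (hp1.mul hp2)

theorem KS_bound {τ s : ℝ} (h0 : 0 < τ) (h1 : τ < 1) (hs : 0 < s) (w w' : ℂ) :
    |KS τ s w w'| ≤ (1 + τ) / (1 - τ) := by
  have hpos : 0 ≤ (1 + τ) / (1 - τ) := div_nonneg (by linarith) (by linarith)
  unfold KS
  split_ifs with h
  · obtain ⟨ha, hb⟩ := h
    refine (Complex.abs_re_le_norm _).trans ?_
    rw [norm_div]
    have hprod : ‖(starRingEnd ℂ) w * w'‖ ≤ s ^ 2 := by
      rw [norm_mul, RCLike.norm_conj]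
      have := norm_nonneg w'
      have := norm_nonneg w
      nlinarith
    have hτa : ‖(τ : ℂ) * ((starRingEnd ℂ) w * w')‖ ≤ τ * s ^ 2 := by
      rw [norm_mul, Complex.norm_real, Real.norm_of_nonneg h0.le]
      exact mul_le_mul_of_nonneg_left hprod h0.le
    have hs2 : ‖((s : ℂ)) ^ 2‖ = s ^ 2 := by
      rw [norm_pow, Complex.norm_real, Real.norm_of_nonneg hs.le]
    have hnum : ‖(s : ℂ) ^ 2 + (τ : ℂ) * ((starRingEnd ℂ) w * w')‖ ≤ (1 + τ) * s ^ 2 := by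
      refine (norm_add_le _ _).trans ?_
      rw [hs2]
      linarith
    have hden : (1 - τ) * s ^ 2 ≤ ‖(s : ℂ) ^ 2 - (τ : ℂ) * ((starRingEnd ℂ) w * w')‖ := by
      have := norm_sub_norm_le ((s : ℂ) ^ 2) ((τ : ℂ) * ((starRingEnd ℂ) w * w'))
      rw [hs2] at this
      linarith
    have hd0 : 0 < (1 - τ) * s ^ 2 := mul_pos (by linarith) (by positivity)
    calc ‖(s : ℂ) ^ 2 + (τ : ℂ) * ((starRingEnd ℂ) w * w')‖ /
          ‖(s : ℂ) ^ 2 - (τ : ℂ) * ((starRingEnd ℂ) w * w')‖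
        ≤ ((1 + τ) * s ^ 2) / ((1 - τ) * s ^ 2) :=
          div_le_div₀ (by positivity) hnum hd0 hden
      _ = (1 + τ) / (1 - τ) := by
          rw [mul_div_mul_right]
          positivity
  · simpa using hpos

theorem integ (τ : ℝ) (h0 : 0 < τ) (h1 : τ < 1) (w : ℝ → ℂ) (φ : ℝ → ℝ) (hw : Continuous w)
    (hφ : Continuous φ) (hw0 : ∀ α, w α ≠ 0) :
    Integrable (Function.uncurry (F τ w φ)) ((nu.prod nu).prod (volume.restrict (Ioc 0 1))) := by
  have hfin : IsFiniteMeasure nu := by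
    unfold nu
    infer_instance
  -- bounds on the compact interval
  have hK : IsCompact (Icc (0 : ℝ) (2 * Real.pi)) := isCompact_Icc
  have hne : (Icc (0 : ℝ) (2 * Real.pi)).Nonempty := ⟨0, by
    constructor
    · exact le_refl _
    · positivity⟩
  obtain ⟨a, ha, hamin⟩ := hK.exists_isMinOn hne (hw.norm.continuousOn)
  obtain ⟨b, hb, hbmax⟩ := hK.exists_isMaxOn hne (hφ.norm.continuousOn)
  have hc0 : 0 < ‖w a‖ := norm_pos_iff.2 (hw0 a)
  have hmin : ∀ x ∈ Ioc (0 : ℝ) (2 * Real.pi), ‖w a‖ ≤ ‖w x‖ := fun x hx =>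
    hamin (Ioc_subset_Icc_self hx)
  have hmax : ∀ x ∈ Ioc (0 : ℝ) (2 * Real.pi), |φ x| ≤ ‖φ b‖ := fun x hx =>
    hbmax (Ioc_subset_Icc_self hx)
  have hpos : 0 ≤ (1 + τ) / (1 - τ) := div_nonneg (by linarith) (by linarith)
  refine Integrable.of_bound (meas τ w φ hw hφ).aestronglyMeasurable
    ((1 + τ) / (1 - τ) / ‖w a‖ * (‖φ b‖ * ‖φ b‖)) ?_
  have hrew : (nu.prod nu).prod (volume.restrict (Ioc (0 : ℝ) 1)) =
      ((volume.prod volume).prod volume).restrict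
        ((Ioc (0 : ℝ) (2 * Real.pi) ×ˢ Ioc (0 : ℝ) (2 * Real.pi)) ×ˢ Ioc (0 : ℝ) 1) := by
    unfold nu
    rw [Measure.prod_restrict, Measure.prod_restrict]
  rw [hrew]
  filter_upwards [ae_restrict_mem
    ((measurableSet_Ioc.prod measurableSet_Ioc).prod measurableSet_Ioc)] with x hx
  obtain ⟨⟨hx1, hx2⟩, hx3⟩ := hx
  obtain ⟨hs0, hs1⟩ := hx3
  have hb1 := hmax x.1.1 hx1
  have hb2 := hmax x.1.2 hx2
  have hphi : |φ x.1.1 * φ x.1.2| ≤ ‖φ b‖ * ‖φ b‖ := by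
    rw [abs_mul]
    exact mul_le_mul hb1 hb2 (abs_nonneg _) (norm_nonneg _)
  have hKb : |KS τ x.2 (w x.1.1) (w x.1.2) / x.2| ≤ (1 + τ) / (1 - τ) / ‖w a‖ := by
    by_cases hcond : ‖w x.1.1‖ ≤ x.2 ∧ ‖w x.1.2‖ ≤ x.2
    · rw [abs_div, abs_of_pos hs0]
      exact div_le_div₀ hpos (KS_bound h0 h1 hs0 _ _) hc0 ((hmin _ hx1).trans hcond.1)
    · have : KS τ x.2 (w x.1.1) (w x.1.2) = 0 := by
        unfold KS
        rw [if_neg hcond]
      rw [this, zero_div, abs_zero]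
      positivity
  change ‖KS τ x.2 (w x.1.1) (w x.1.2) / x.2 * (φ x.1.1 * φ x.1.2)‖ ≤ _
  rw [Real.norm_eq_abs, abs_mul]
  exact mul_le_mul hKb hphi (abs_nonneg _) (by positivity)

end GPD_

open GPD_ in
theorem gpd_proof (hKPD : Stmt_KPD) (hKIN : Stmt_KIN) : Stmt_GPD := by
  intro τ h0 h1 w φ hw hφ hw0 hw1
  have hfin : IsFiniteMeasure nu := by
    unfold nu
    infer_instance
  have hpt : ∀ p : ℝ × ℝ, GT τ (w p.1) (w p.2) * (φ p.1 * φ p.2) =
      ∫ s in Ioc (0 : ℝ) 1, F τ w φ p s := by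
    intro p
    rw [hKIN τ h0 h1 (w p.1) (w p.2) (hw0 _) (hw0 _) (hw1 _) (hw1 _),
      intervalIntegral.integral_of_le zero_le_one, ← integral_mul_const]
    rfl
  unfold I2
  have e : ∫ p : ℝ × ℝ, GT τ (w p.1) (w p.2) * (φ p.1 * φ p.2) ∂(nu.prod nu) =
      ∫ s in Ioc (0 : ℝ) 1, ∫ p : ℝ × ℝ, F τ w φ p s ∂(nu.prod nu) := by
    simp_rw [hpt]
    exact integral_integral_swap (integ τ h0 h1 w φ hw hφ hw0)
  rw [e]
  refine setIntegral_nonneg measurableSet_Ioc ?_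
  intro s hs
  have h := hKPD τ s h0 h1 hs.1 hs.2 w φ hw hφ
  unfold I2 at h
  have e2 : ∫ p : ℝ × ℝ, F τ w φ p s ∂(nu.prod nu) =
      (1 / s) * ∫ p : ℝ × ℝ, KS τ s (w p.1) (w p.2) * (φ p.1 * φ p.2) ∂(nu.prod nu) := by
    rw [← integral_const_mul]
    refine integral_congr_ae (Filter.Eventually.of_forall ?_)
    intro p
    unfold F
    simp only
    ring
  rw [e2]
  exact mul_nonneg (one_div_nonneg.2 hs.1.le) h

end Pool.Agent.PSB
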