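import Pool.Agent.PSB.Stmts

/-!
Module GUB: the upper bound for all `n`.
-/

set_option autoImplicit false

namespace Pool.Agent.PSB

namespace GUB_

open MeasureTheory Complex Metric FormalMultilinearSeries

open scoped ComplexConjugate

theorem coeff_eq {g : ℂ → ℂ} {p : FormalMultilinearSeries ℂ ℂ ℂ} (hg : HasFPowerSeriesAt g p 0)
    (k : ℕ) : coeff g k = p.coeff k := by
  have h1 := hg.analyticAt.hasFPowerSeriesAt
  have h2 := h1.eq_formalMultilinearSeries hg
  have h3 : (FormalMultilinearSeries.ofScalars ℂ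
      (fun n ↦ iteratedDeriv n g 0 / n.factorial)).coeff k = coeff g k := by
    rw [FormalMultilinearSeries.coeff_ofScalars]; rfl
  rw [← h3, h2]

theorem coeff_dslope {f : ℂ → ℂ} (hf : AnalyticAt ℂ f 0) (k : ℕ) :
    coeff (dslope f 0) k = coeff f (k + 1) := by
  obtain ⟨p, hp⟩ := hf
  rw [coeff_eq hp.has_fpower_series_dslope_fslope, coeff_eq hp, coeff_fslope]

theorem coeff_const_sub (M : ℂ) (g : ℂ → ℂ) {k : ℕ} (hk : k ≠ 0) :
    coeff (fun w => M - g w) k = - coeff g k := by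
  unfold coeff
  have h1 : iteratedDeriv k (fun w => M - g w) 0 = - iteratedDeriv k g 0 := by
    rw [iteratedDeriv_const_sub (Nat.pos_of_ne_zero hk)]
    simp
  rw [h1, neg_div]

theorem norm_ee (θ : ℝ) : ‖ee θ‖ = 1 := by
  unfold ee; exact Complex.norm_exp_ofReal_mul_I θ

theorem ee_nat_mul (k : ℕ) (θ : ℝ) : ee (k * θ) = ee θ ^ k := by
  unfold ee
  rw [← Complex.exp_nat_mul]
  congr 1
  push_cast
  ring

theorem continuous_ee : Continuous ee := by
  unfold ee; fun_prop

theorem exists_ee {u : ℂ} (hu : ‖u‖ = 1) : ∃ θ : ℝ, ee θ = u := by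
  refine ⟨Complex.arg u, ?_⟩
  unfold ee
  have := Complex.norm_mul_exp_arg_mul_I u
  rw [hu] at this
  simpa using this

/-- the maximum over the circle. -/
theorem exists_max (c : ℂ) (n : ℕ) : ∃ φ : ℝ, ∀ u : ℂ, ‖u‖ = 1 →
    ‖1 - 2 * c * ∑ k ∈ Finset.Ico 1 n, u ^ k‖ ≤
      ‖1 - 2 * c * ∑ k ∈ Finset.Ico 1 n, ee (k * φ)‖ := by
  have hc : IsCompact (sphere (0 : ℂ) 1) := isCompact_sphere 0 1
  have hne : (sphere (0 : ℂ) 1).Nonempty := ⟨1, by simp⟩
  have hcont : ContinuousOn (fun u : ℂ => ‖1 - 2 * c * ∑ k ∈ Finset.Ico 1 n, u ^ k‖)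
      (sphere (0 : ℂ) 1) := by
    apply Continuous.continuousOn
    fun_prop
  obtain ⟨u0, hu0, hmax⟩ := hc.exists_isMaxOn hne hcont
  obtain ⟨φ, hφ⟩ := exists_ee (u := u0) (by simpa using hu0)
  refine ⟨φ, fun u hu => ?_⟩
  have h1 := hmax (show u ∈ sphere (0 : ℂ) 1 by simpa using hu)
  have h2 : ∑ k ∈ Finset.Ico 1 n, ee (k * φ) = ∑ k ∈ Finset.Ico 1 n, u0 ^ k := by
    apply Finset.sum_congr rfl
    intro k _
    rw [ee_nat_mul, hφ]
  rw [h2]
  exact h1

end GUB_

open MeasureTheory Complex Metric GUB_ in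
theorem gub_proof (h1 : Stmt_FC) : Stmt_GUB := by
  intro M f hM hf n hn z hz
  have hM0 : (0 : ℝ) < M - 1 := by linarith
  have hnhds : ball (0 : ℂ) 1 ∈ nhds (0 : ℂ) := isOpen_ball.mem_nhds (mem_ball_self one_pos)
  have hfa : AnalyticAt ℂ f 0 := hf.diff.analyticAt hnhds
  set h : ℂ → ℂ := fun w => (M : ℂ) - dslope f 0 w with hh
  have hds : DifferentiableOn ℂ (dslope f 0) (ball 0 1) := (differentiableOn_dslope hnhds).mpr hf.diff
  have hd : DifferentiableOn ℂ h (ball 0 1) := hds.const_sub _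
  have hmaps : Set.MapsTo f (ball 0 1) (closedBall (f 0) M) := by
    intro w hw
    rw [hf.zero]
    simpa using hf.bdd w hw
  have hre : ∀ w ∈ ball (0 : ℂ) 1, 0 ≤ (h w).re := by
    intro w hw
    have h2 := norm_dslope_le_div_of_mapsTo_ball hf.diff hmaps hw
    rw [div_one] at h2
    have h3 : (dslope f 0 w).re ≤ M := le_trans (Complex.re_le_norm _) h2
    simp only [hh, Complex.sub_re, Complex.ofReal_re]
    linarith
  have hh0 : (h 0).re = M - 1 := by
    simp only [hh, dslope_same, hf.one, Complex.sub_re, Complex.ofReal_re, Complex.one_re]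
  have hcoef : ∀ k : ℕ, k ≠ 0 → coeff h k = - coeff f (k + 1) := by
    intro k hk
    rw [hh, coeff_const_sub _ _ hk, coeff_dslope hfa]
  have hc0 : coeff f 0 = 0 := by unfold coeff; simp [hf.zero]
  have hc1 : coeff f 1 = 1 := by unfold coeff; simp [iteratedDeriv_one, hf.one]
  obtain ⟨φ, hφ⟩ := exists_max ((M : ℂ) - 1) n
  refine ⟨φ, ?_⟩
  set B : ℝ := ‖1 - 2 * ((M : ℂ) - 1) * ∑ k ∈ Finset.Ico 1 n, ee (k * φ)‖ with hB
  -- the weight
  have hmem : ∀ r : ℝ, 0 < r → r < 1 → ∀ θ : ℝ, (r : ℂ) * ee θ ∈ ball (0 : ℂ) 1 := by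
    intro r hr0 hr1 θ
    rw [mem_ball_zero_iff, norm_mul, norm_ee, Complex.norm_real, Real.norm_eq_abs, abs_of_pos hr0]
    linarith
  have hcontp : ∀ r : ℝ, 0 < r → r < 1 → Continuous (fun θ : ℝ => (h (r * ee θ)).re) := by
    intro r hr0 hr1
    apply Complex.continuous_re.comp
    exact hd.continuousOn.comp_continuous (continuous_const.mul continuous_ee) (hmem r hr0 hr1)
  have key : ∀ r : ℝ, 0 < r → r < 1 →
      ‖1 + ∑ k ∈ Finset.Ico 1 n, (r : ℂ) ^ k * coeff f (k + 1) * z ^ k‖ ≤ B := by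
    intro r hr0 hr1
    have hcp := hcontp r hr0 hr1
    set p : ℝ → ℝ := fun θ => (h (r * ee θ)).re with hp
    have hp0 : ∀ θ, 0 ≤ p θ := fun θ => hre _ (hmem r hr0 hr1 θ)
    have hI0 : ∫ θ in (0 : ℝ)..(2 * Real.pi), ((p θ : ℝ) : ℂ) = 2 * Real.pi * ((M : ℂ) - 1) := by
      have := h1 h hd r hr0 hr1 0
      simp only [pow_zero, mul_one, if_true, hh0] at this
      rw [this]
      push_cast
      ring
    have hIk : ∀ k ∈ Finset.Ico 1 n, ∫ θ in (0 : ℝ)..(2 * Real.pi),
        ((p θ : ℝ) : ℂ) * (starRingEnd ℂ) (ee θ) ^ k = - (Real.pi * (r : ℂ) ^ k * coeff f (k + 1)) := by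
      intro k hk
      have hk0 : k ≠ 0 := by
        have := (Finset.mem_Ico.mp hk).1
        omega
      have := h1 h hd r hr0 hr1 k
      rw [if_neg hk0, hcoef k hk0] at this
      rw [hp, this]
      ring
    have hcc : Continuous (fun θ : ℝ => (starRingEnd ℂ) (ee θ)) :=
      Complex.continuous_conj.comp continuous_ee
    have hsum : ∫ θ in (0 : ℝ)..(2 * Real.pi), ((p θ : ℝ) : ℂ) *
        (1 - 2 * ((M : ℂ) - 1) * ∑ k ∈ Finset.Ico 1 n, ((starRingEnd ℂ) (ee θ) * z) ^ k) =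
        2 * Real.pi * ((M : ℂ) - 1) *
          (1 + ∑ k ∈ Finset.Ico 1 n, (r : ℂ) ^ k * coeff f (k + 1) * z ^ k) := by
      have e1 : ∀ θ : ℝ, ((p θ : ℝ) : ℂ) *
          (1 - 2 * ((M : ℂ) - 1) * ∑ k ∈ Finset.Ico 1 n, ((starRingEnd ℂ) (ee θ) * z) ^ k) =
          ((p θ : ℝ) : ℂ) - ∑ k ∈ Finset.Ico 1 n, (2 * ((M : ℂ) - 1) * z ^ k) *
            (((p θ : ℝ) : ℂ) * (starRingEnd ℂ) (ee θ) ^ k) := by
        intro θ
        rw [mul_sub, mul_one]
        congr 1
        rw [Finset.mul_sum, Finset.mul_sum]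
        apply Finset.sum_congr rfl
        intro k _
        rw [mul_pow]
        ring
      simp_rw [e1]
      rw [intervalIntegral.integral_sub, intervalIntegral.integral_finsetSum, hI0]
      · rw [mul_add, mul_one, sub_eq_add_neg, ← Finset.sum_neg_distrib, Finset.mul_sum]
        congr 1
        apply Finset.sum_congr rfl
        intro k hk
        rw [intervalIntegral.integral_const_mul, hIk k hk]
        ring
      · intro k _
        apply Continuous.intervalIntegrable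
        exact continuous_const.mul ((Complex.continuous_ofReal.comp hcp).mul (hcc.pow k))
      · apply Continuous.intervalIntegrable
        exact Complex.continuous_ofReal.comp hcp
      · apply Continuous.intervalIntegrable
        apply continuous_finsetSum
        intro k _
        exact continuous_const.mul ((Complex.continuous_ofReal.comp hcp).mul (hcc.pow k))
    have hIr : ∫ θ in (0 : ℝ)..(2 * Real.pi), p θ = 2 * Real.pi * (M - 1) := by
      have h5 : ((∫ θ in (0 : ℝ)..(2 * Real.pi), p θ : ℝ) : ℂ) = ((2 * Real.pi * (M - 1) : ℝ) : ℂ) := by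
        rw [← intervalIntegral.integral_ofReal, hI0]
        push_cast
        ring
      exact_mod_cast h5
    have hle : ‖∫ θ in (0 : ℝ)..(2 * Real.pi), ((p θ : ℝ) : ℂ) *
        (1 - 2 * ((M : ℂ) - 1) * ∑ k ∈ Finset.Ico 1 n, ((starRingEnd ℂ) (ee θ) * z) ^ k)‖ ≤
        ∫ θ in (0 : ℝ)..(2 * Real.pi), p θ * B := by
      apply intervalIntegral.norm_integral_le_of_norm_le (by positivity)
      · refine Filter.Eventually.of_forall (fun θ _ => ?_)
        rw [norm_mul, Complex.norm_real, Real.norm_eq_abs, abs_of_nonneg (hp0 θ)]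
        apply mul_le_mul_of_nonneg_left _ (hp0 θ)
        apply hφ
        rw [norm_mul, RCLike.norm_conj, norm_ee, hz, one_mul]
      · apply Continuous.intervalIntegrable
        exact hcp.mul continuous_const
    rw [hsum, intervalIntegral.integral_mul_const, hIr, norm_mul] at hle
    have hn1 : ‖2 * (Real.pi : ℂ) * ((M : ℂ) - 1)‖ = 2 * Real.pi * (M - 1) := by
      have : 2 * (Real.pi : ℂ) * ((M : ℂ) - 1) = ((2 * Real.pi * (M - 1) : ℝ) : ℂ) := by
        push_cast; ring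
      rw [this, Complex.norm_real, Real.norm_eq_abs, abs_of_pos]
      have := Real.pi_pos
      positivity
    rw [hn1] at hle
    have hpos : 0 < 2 * Real.pi * (M - 1) := by
      have := Real.pi_pos
      positivity
    exact le_of_mul_le_mul_left hle hpos
  -- the limit
  have hlim : ‖1 + ∑ k ∈ Finset.Ico 1 n, ((1 : ℝ) : ℂ) ^ k * coeff f (k + 1) * z ^ k‖ ≤ B := by
    have hcont : Continuous (fun r : ℝ =>
        ‖1 + ∑ k ∈ Finset.Ico 1 n, (r : ℂ) ^ k * coeff f (k + 1) * z ^ k‖) := by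
      fun_prop
    have ht : Filter.Tendsto (fun r : ℝ =>
        ‖1 + ∑ k ∈ Finset.Ico 1 n, (r : ℂ) ^ k * coeff f (k + 1) * z ^ k‖)
        (nhdsWithin 1 (Set.Iio 1)) (nhds
          ‖1 + ∑ k ∈ Finset.Ico 1 n, ((1 : ℝ) : ℂ) ^ k * coeff f (k + 1) * z ^ k‖) :=
      (hcont.tendsto 1).mono_left nhdsWithin_le_nhds
    apply le_of_tendsto ht
    have : Set.Ioo (0 : ℝ) 1 ∈ nhdsWithin (1 : ℝ) (Set.Iio 1) := Ioo_mem_nhdsLT one_pos
    filter_upwards [this] with r hr
    exact key r hr.1 hr.2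
  -- conclusion
  have hps : psum f n z = z * (1 + ∑ k ∈ Finset.Ico 1 n, ((1 : ℝ) : ℂ) ^ k * coeff f (k + 1) * z ^ k) := by
    unfold psum
    rw [Finset.sum_range_succ', hc0, zero_mul, add_zero]
    obtain ⟨m, rfl⟩ : ∃ m, n = m + 1 := ⟨n - 1, by omega⟩
    rw [Finset.range_eq_Ico, Finset.sum_eq_sum_Ico_succ_bot (Nat.succ_pos m)]
    rw [zero_add, hc1, mul_add, mul_one, pow_one, one_mul, Finset.mul_sum]
    congr 1
    apply Finset.sum_congr rfl
    intro k _
    simp only [Complex.ofReal_one, one_pow, one_mul]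
    ring
  rw [hps, norm_mul, hz, one_mul]
  exact hlim

end Pool.Agent.PSB
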