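import Pool.Agent.PSB.Stmts

set_option autoImplicit false

/-! The inner integral. -/

namespace Pool.Agent.PSB

open MeasureTheory Complex Metric

namespace INN_

lemma ee_cont : Continuous ee := by
  unfold ee
  fun_prop

lemma norm_ee (θ : ℝ) : ‖ee θ‖ = 1 := Complex.norm_exp_ofReal_mul_I θ

lemma phi_cont (x0 : ℝ) (x1 : ℂ) : Continuous (phi x0 x1) := by
  unfold phi
  have := ee_cont
  fun_prop

lemma norm_mem {r : ℝ} (h0 : 0 < r) (θ : ℝ) : ‖(r : ℂ) * ee θ‖ = r := by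
  rw [norm_mul, norm_ee, mul_one, Complex.norm_real, Real.norm_eq_abs, abs_of_pos h0]

lemma mem {r : ℝ} (h0 : 0 < r) (h1 : r < 1) (θ : ℝ) : (r : ℂ) * ee θ ∈ ball (0 : ℂ) 1 := by
  rw [mem_ball_zero_iff, norm_mem h0]
  exact h1

lemma cont_log {g : ℂ → ℂ} (hg : DifferentiableOn ℂ g (ball 0 1))
    (hz : ∀ z ∈ ball (0 : ℂ) 1, g z ≠ 0) {r : ℝ} (h0 : 0 < r) (h1 : r < 1) :
    Continuous (fun θ : ℝ => Real.log ‖g (r * ee θ)‖) := by
  have h2 : Continuous (fun θ : ℝ => (r : ℂ) * ee θ) := continuous_const.mul ee_cont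
  have h3 : Continuous (fun θ : ℝ => g (r * ee θ)) :=
    hg.continuousOn.comp_continuous h2 (fun θ => mem h0 h1 θ)
  exact h3.norm.log (fun θ => norm_ne_zero_iff.2 (hz _ (mem h0 h1 θ)))

lemma int_phi (hMV : Stmt_MV) (x0 : ℝ) (x1 : ℂ) :
    ∫ θ in (0 : ℝ)..(2 * Real.pi), phi x0 x1 θ = 2 * Real.pi * x0 := by
  have h := hMV (fun _ => ((Real.exp 1 : ℝ) : ℂ)) (differentiableOn_const _)
    (fun z _ => by
      rw [Complex.ofReal_ne_zero]
      exact (Real.exp_pos 1).ne') (1 / 2) (by norm_num) (by norm_num) x0 x1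
  have e1 : Real.log ‖((Real.exp 1 : ℝ) : ℂ)‖ = 1 := by
    rw [Complex.norm_real, Real.norm_eq_abs, abs_of_pos (Real.exp_pos 1), Real.log_exp]
  simp only [e1, one_mul, deriv_const, zero_div, mul_zero, Complex.zero_re, add_zero, mul_one] at h
  exact h

lemma count (β : ℝ) : {α : ℝ | ee α = ee β}.Countable := by
  refine Set.Countable.mono (s₂ := Set.range (fun n : ℤ => β + n * (2 * Real.pi))) ?_
    (Set.countable_range _)
  intro α hα
  have h : Complex.exp (α * Complex.I) = Complex.exp (β * Complex.I) := hα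
  rw [Complex.exp_eq_exp_iff_exists_int] at h
  obtain ⟨n, hn⟩ := h
  refine ⟨n, ?_⟩
  have h2 : ((α : ℂ)) = (β : ℂ) + n * (2 * Real.pi) := by
    have h3 : (α : ℂ) * Complex.I = ((β : ℂ) + n * (2 * Real.pi)) * Complex.I := by
      rw [hn]
      ring
    exact mul_right_cancel₀ Complex.I_ne_zero h3
  have h4 : ((α : ℝ) : ℂ) = ((β + n * (2 * Real.pi) : ℝ) : ℂ) := by
    rw [h2]
    push_cast
    ring
  exact (Complex.ofReal_injective h4).symm

end INN_

open INN_ in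
theorem inn_proof (h1 : Stmt_MV) (h2 : Stmt_LC) (h3 : Stmt_DSL) : Stmt_INN := by
  intro F hF r r0 r1 x0 x1 β
  obtain ⟨ζ, hζ⟩ : ∃ ζ : ℂ, ζ = r * ee β := ⟨_, rfl⟩
  rw [← hζ]
  have hζm : ζ ∈ ball (0 : ℂ) 1 := by rw [hζ]; exact mem r0 r1 β
  have hζ0 : ζ ≠ 0 := by
    rw [← norm_ne_zero_iff, hζ, norm_mem r0]
    exact r0.ne'
  obtain ⟨W, hW⟩ : ∃ W : ℂ, W = F ζ := ⟨_, rfl⟩
  rw [← hW]
  have hW1 : ‖W‖ < 1 := by rw [hW]; exact hF.maps ζ hζm
  obtain ⟨hd1, hd2, hd3⟩ := h3 F hF.diff hF.inj hF.zero ζ hζm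
  obtain ⟨hd4, hd5⟩ := hd3 hζ0
  -- the first function
  obtain ⟨g1, hg1⟩ : ∃ g1 : ℂ → ℂ, g1 = fun z => 1 - F z * (starRingEnd ℂ) W := ⟨_, rfl⟩
  have hg1d : DifferentiableOn ℂ g1 (ball 0 1) := by
    rw [hg1]
    exact (differentiableOn_const _).sub (hF.diff.mul (differentiableOn_const _))
  have hg1z : ∀ z ∈ ball (0 : ℂ) 1, g1 z ≠ 0 := by
    intro z hz h
    rw [hg1] at h
    have e1 : F z * (starRingEnd ℂ) W = 1 := (sub_eq_zero.1 h).symm
    have e2 : ‖F z * (starRingEnd ℂ) W‖ = 1 := by rw [e1, norm_one]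
    rw [norm_mul, RCLike.norm_conj] at e2
    have e3 := hF.maps z hz
    have e4 : ‖F z‖ * ‖W‖ < 1 := by
      calc ‖F z‖ * ‖W‖ ≤ ‖F z‖ * 1 := mul_le_mul_of_nonneg_left hW1.le (norm_nonneg _)
        _ < 1 := by rw [mul_one]; exact e3
    linarith
  have hF0 : HasDerivAt F (deriv F 0) 0 :=
    ((hF.diff 0 (mem_ball_self one_pos)).differentiableAt
      (isOpen_ball.mem_nhds (mem_ball_self one_pos))).hasDerivAt
  have hg10 : g1 0 = 1 := by rw [hg1]; simp [hF.zero]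
  have hg1' : deriv g1 0 = -deriv F 0 * (starRingEnd ℂ) W := by
    have : HasDerivAt g1 (-(deriv F 0 * (starRingEnd ℂ) W)) 0 := by
      rw [hg1]
      exact (hF0.mul_const _).const_sub 1
    rw [this.deriv]
    ring
  have I1 := h1 g1 hg1d hg1z r r0 r1 x0 x1
  rw [hg10, hg1', norm_one, Real.log_one, mul_zero, zero_add, div_one] at I1
  have I2' := h1 (dslope F ζ) hd1 hd2 r r0 r1 x0 x1
  rw [hd5, hd4] at I2'
  obtain ⟨L1, L2⟩ := h2 x0 x1 β
  have P := int_phi h1 x0 x1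
  -- integrability
  have c1 : IntervalIntegrable (fun θ => Real.log ‖g1 (r * ee θ)‖ * phi x0 x1 θ) volume 0
      (2 * Real.pi) := ((cont_log hg1d hg1z r0 r1).mul (phi_cont x0 x1)).intervalIntegrable _ _
  have c2 : IntervalIntegrable (fun θ => Real.log ‖dslope F ζ (r * ee θ)‖ * phi x0 x1 θ) volume 0
      (2 * Real.pi) := ((cont_log hd1 hd2 r0 r1).mul (phi_cont x0 x1)).intervalIntegrable _ _
  have c3 : IntervalIntegrable (fun θ => Real.log r * phi x0 x1 θ) volume 0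
      (2 * Real.pi) := (continuous_const.mul (phi_cont x0 x1)).intervalIntegrable _ _
  have c4 : IntervalIntegrable (fun θ => Real.log ‖ee θ - ee β‖ * phi x0 x1 θ) volume 0
      (2 * Real.pi) := L1.mul_continuousOn (phi_cont x0 x1).continuousOn
  -- almost everywhere equality
  have hae : ∫ α in (0 : ℝ)..(2 * Real.pi), GD (F (r * ee α)) W * phi x0 x1 α =
      ∫ α in (0 : ℝ)..(2 * Real.pi), (Real.log ‖g1 (r * ee α)‖ * phi x0 x1 α -
        Real.log ‖dslope F ζ (r * ee α)‖ * phi x0 x1 α - Real.log r * phi x0 x1 α -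
        Real.log ‖ee α - ee β‖ * phi x0 x1 α) := by
    refine intervalIntegral.integral_congr_ae ?_
    filter_upwards [(count β).ae_notMem volume] with α hα _
    have hne : ee α ≠ ee β := hα
    have hn : 0 < ‖ee α - ee β‖ := norm_pos_iff.2 (sub_ne_zero.2 hne)
    have e1 : ‖1 - (starRingEnd ℂ) (F (r * ee α)) * W‖ = ‖g1 (r * ee α)‖ := by
      rw [hg1, ← RCLike.norm_conj (1 - (starRingEnd ℂ) (F (r * ee α)) * W)]
      simp
    have e2 : ‖F (r * ee α) - W‖ = ‖dslope F ζ (r * ee α)‖ * (r * ‖ee α - ee β‖) := by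
      have := sub_smul_dslope F ζ (r * ee α)
      rw [← hW] at this
      rw [← this, smul_eq_mul, norm_mul, hζ, ← mul_sub, norm_mul, Complex.norm_real,
        Real.norm_eq_abs, abs_of_pos r0]
      ring
    have hdp : 0 < ‖dslope F ζ (r * ee α)‖ := norm_pos_iff.2 (hd2 _ (mem r0 r1 α))
    unfold GD
    rw [e1, e2, Real.log_mul hdp.ne' (mul_pos r0 hn).ne', Real.log_mul r0.ne' hn.ne']
    ring
  rw [hae, intervalIntegral.integral_sub ((c1.sub c2).sub c3) c4,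
    intervalIntegral.integral_sub (c1.sub c2) c3, intervalIntegral.integral_sub c1 c2, I1, I2', L2,
    intervalIntegral.integral_const_mul, P, ← hW]
  ring

end Pool.Agent.PSB
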