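import Pool.Agent.PSB.Stmts

/-!
# JCM: jets of compositions
-/

set_option autoImplicit false

open Filter Asymptotics Topology

namespace Pool.Agent.PSB

namespace JCM_

lemma tendsto_one {R : ℂ → ℂ} (h : Continuous R) : R =O[𝓝 0] (fun _ : ℂ => (1 : ℂ)) :=
  (h.tendsto 0).isBigO_one ℂ

lemma z4_one : (fun z : ℂ => z ^ 4) =O[𝓝 0] (fun z : ℂ => z) := by
  have h : (fun z : ℂ => z * z ^ 3) =O[𝓝 0] (fun z : ℂ => z * 1) :=
    (isBigO_refl (fun z : ℂ => z) (𝓝 0)).mul (tendsto_one (by fun_prop))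
  have h1 : (fun z : ℂ => z ^ 4) = fun z : ℂ => z * z ^ 3 := by
    funext z; ring
  rw [h1]
  simpa using h

end JCM_

open JCM_ in
theorem jcm_proof : Stmt_JCM := by
  intro F G c1 c2 c3 d1 d2 d3 hF hG
  unfold Jet3 at hF hG ⊢
  -- the polynomial
  set P : ℂ → ℂ := fun z => c1 * z + c2 * z ^ 2 + c3 * z ^ 3 with hP
  have hF' : (fun z : ℂ => F z - P z) =O[𝓝 0] (fun z : ℂ => z ^ 4) := hF
  have hPz : P =O[𝓝 0] (fun z : ℂ => z) := by
    have h : (fun z : ℂ => z * (c1 + c2 * z + c3 * z ^ 2)) =O[𝓝 0] (fun z : ℂ => z * 1) :=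
      (isBigO_refl (fun z : ℂ => z) (𝓝 0)).mul (tendsto_one (by fun_prop))
    have h1 : P = fun z : ℂ => z * (c1 + c2 * z + c3 * z ^ 2) := by
      funext z; simp only [hP]; ring
    rw [h1]
    simpa using h
  have hFz : F =O[𝓝 0] (fun z : ℂ => z) := by
    have h := (hF'.trans z4_one).add hPz
    simpa using h
  have hP1 : P =O[𝓝 0] (fun _ : ℂ => (1 : ℂ)) := tendsto_one (by fun_prop)
  have hid1 : (fun z : ℂ => z) =O[𝓝 0] (fun _ : ℂ => (1 : ℂ)) := tendsto_one continuous_id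
  have hF1 : F =O[𝓝 0] (fun _ : ℂ => (1 : ℂ)) := hFz.trans hid1
  have hF0 : Tendsto F (𝓝 0) (𝓝 0) := hFz.trans_tendsto tendsto_id
  have hGF : (fun z : ℂ => G (F z) - (d1 * F z + d2 * F z ^ 2 + d3 * F z ^ 3))
      =O[𝓝 0] (fun z : ℂ => F z ^ 4) := hG.comp_tendsto hF0
  have hF4 : (fun z : ℂ => F z ^ 4) =O[𝓝 0] (fun z : ℂ => z ^ 4) := hFz.pow 4
  have hA := hGF.trans hF4
  have hB : (fun z : ℂ => d1 * (F z - P z)) =O[𝓝 0] (fun z : ℂ => z ^ 4) :=
    hF'.const_mul_left d1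
  have hC : (fun z : ℂ => d2 * ((F z - P z) * (F z + P z))) =O[𝓝 0] (fun z : ℂ => z ^ 4) := by
    have h := hF'.mul (hF1.add hP1)
    simp only [mul_one] at h
    exact h.const_mul_left d2
  have hD : (fun z : ℂ => d3 * ((F z - P z) * (F z * F z + F z * P z + P z * P z)))
      =O[𝓝 0] (fun z : ℂ => z ^ 4) := by
    have h0 : (fun z : ℂ => F z * F z + F z * P z + P z * P z) =O[𝓝 0]
        (fun _ : ℂ => (1 : ℂ)) := by
      have := ((hF1.mul hF1).add (hF1.mul hP1)).add (hP1.mul hP1)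
      simpa using this
    have h := hF'.mul h0
    simp only [mul_one] at h
    exact h.const_mul_left d3
  have hE : (fun z : ℂ => z ^ 4 * (d2 * (c2 ^ 2 + 2 * c1 * c3 + 2 * c2 * c3 * z + c3 ^ 2 * z ^ 2)
      + d3 * ((c2 + c3 * z) * ((c1 + c2 * z + c3 * z ^ 2) ^ 2
        + (c1 + c2 * z + c3 * z ^ 2) * c1 + c1 ^ 2)))) =O[𝓝 0] (fun z : ℂ => z ^ 4) := by
    have h := (isBigO_refl (fun z : ℂ => z ^ 4) (𝓝 0)).mul
      (tendsto_one (R := fun z : ℂ =>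
        d2 * (c2 ^ 2 + 2 * c1 * c3 + 2 * c2 * c3 * z + c3 ^ 2 * z ^ 2)
        + d3 * ((c2 + c3 * z) * ((c1 + c2 * z + c3 * z ^ 2) ^ 2
          + (c1 + c2 * z + c3 * z ^ 2) * c1 + c1 ^ 2))) (by fun_prop))
    simpa only [mul_one] using h
  have hall := (((hA.add hB).add hC).add hD).add hE
  refine hall.congr_left (fun z => ?_)
  simp only [hP]
  ring

end Pool.Agent.PSB
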