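import Pool.Agent.PSB.Stmts

set_option autoImplicit false

namespace Pool.Agent.PSB

open Complex Asymptotics Filter Topology

namespace JET_

theorem zero_of_isBigO (a : ℂ) (n : ℕ)
    (h : (fun z : ℂ => a * z ^ n) =O[𝓝 0] (fun z : ℂ => z ^ (n + 1))) : a = 0 := by
  by_contra ha
  have h1 : (fun z : ℂ => z ^ n) =O[𝓝 0] (fun z : ℂ => a * z ^ n) :=
    isBigO_self_const_mul ha _ _
  have h2 : (fun z : ℂ => z ^ (n + 1)) =o[𝓝 0] (fun z : ℂ => z ^ n) :=
    isLittleO_pow_pow (Nat.lt_succ_self n)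
  have h3 : (fun z : ℂ => z ^ n) =o[𝓝 0] (fun z : ℂ => z ^ n) :=
    (h1.trans h).trans_isLittleO h2
  refine isLittleO_irrefl ?_ h3
  have h4 : ∃ᶠ z : ℂ in 𝓝[≠] (0 : ℂ), z ^ n ≠ 0 := by
    apply Eventually.frequently
    filter_upwards [self_mem_nhdsWithin] with z hz
    exact pow_ne_zero n hz
  exact h4.filter_mono nhdsWithin_le_nhds

theorem pow_isBigO (c : ℂ) {m n : ℕ} (h : n ≤ m) :
    (fun z : ℂ => c * z ^ m) =O[𝓝 0] (fun z : ℂ => z ^ n) := by
  refine IsBigO.const_mul_left ?_ c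
  rcases h.lt_or_eq with h | h
  · exact (isLittleO_pow_pow h).isBigO
  · subst h
    exact isBigO_refl _ _

theorem poly_zero (a0 a1 a2 a3 : ℂ)
    (h : (fun z : ℂ => a0 + a1 * z + a2 * z ^ 2 + a3 * z ^ 3) =O[𝓝 0] (fun z : ℂ => z ^ 4)) :
    a0 = 0 ∧ a1 = 0 ∧ a2 = 0 ∧ a3 = 0 := by
  have e0 : a0 = 0 := by
    apply zero_of_isBigO a0 0
    have h1 : (fun z : ℂ => z ^ 4) =O[𝓝 0] (fun z : ℂ => z ^ (0 + 1)) :=
      (isLittleO_pow_pow (by norm_num)).isBigO
    have h2 := (((h.trans h1).sub (pow_isBigO a1 (le_refl 1))).sub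
      (pow_isBigO a2 (show (1 : ℕ) ≤ 2 by norm_num))).sub (pow_isBigO a3 (show (1 : ℕ) ≤ 3 by norm_num))
    refine h2.congr_left ?_
    intro z
    ring
  subst e0
  have e1 : a1 = 0 := by
    apply zero_of_isBigO a1 1
    have h1 : (fun z : ℂ => z ^ 4) =O[𝓝 0] (fun z : ℂ => z ^ (1 + 1)) :=
      (isLittleO_pow_pow (by norm_num)).isBigO
    have h2 := ((h.trans h1).sub
      (pow_isBigO a2 (show (1 + 1 : ℕ) ≤ 2 by norm_num))).sub
        (pow_isBigO a3 (show (1 + 1 : ℕ) ≤ 3 by norm_num))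
    refine h2.congr_left ?_
    intro z
    ring
  subst e1
  have e2 : a2 = 0 := by
    apply zero_of_isBigO a2 2
    have h1 : (fun z : ℂ => z ^ 4) =O[𝓝 0] (fun z : ℂ => z ^ (2 + 1)) :=
      (isLittleO_pow_pow (by norm_num)).isBigO
    have h2 := (h.trans h1).sub
        (pow_isBigO a3 (show (2 + 1 : ℕ) ≤ 3 by norm_num))
    refine h2.congr_left ?_
    intro z
    ring
  subst e2
  have e3 : a3 = 0 := by
    apply zero_of_isBigO a3 3
    refine h.congr_left ?_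
    intro z
    ring
  exact ⟨rfl, rfl, rfl, e3⟩

end JET_

open JET_ in
theorem jet_proof : Stmt_JET := by
  intro F c1 c2 c3 hF hJ
  have hp := hF.hasFPowerSeriesAt
  have h4 := hp.isBigO_sub_partialSum_pow 4
  have h5 : (fun z : ℂ => F z - (coeff F 0 + coeff F 1 * z + coeff F 2 * z ^ 2 + coeff F 3 * z ^ 3))
      =O[𝓝 0] (fun z : ℂ => z ^ 4) := by
    have h6 : (fun z : ℂ => ‖z‖ ^ 4) =O[𝓝 0] (fun z : ℂ => z ^ 4) := by
      refine IsBigO.of_norm_left ?_
      refine IsBigO.of_norm_right ?_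
      simp only [norm_pow, norm_norm]
      exact isBigO_refl _ _
    refine (h4.trans h6).congr_left ?_
    intro z
    simp [FormalMultilinearSeries.partialSum, Finset.sum_range_succ, coeff, zero_add]
    ring
  have h7 := hJ.sub h5
  have h8 := poly_zero (coeff F 0) (coeff F 1 - c1) (coeff F 2 - c2) (coeff F 3 - c3)
    (h7.congr_left (by intro z; ring))
  obtain ⟨g0, g1, g2, g3⟩ := h8
  have k0 : coeff F 0 = F 0 := by simp [coeff]
  have k1 : coeff F 1 = deriv F 0 := by simp [coeff]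
  refine ⟨by rw [← k0]; exact g0, ?_, sub_eq_zero.mp g1, sub_eq_zero.mp g2, sub_eq_zero.mp g3⟩
  rw [← k1]
  exact sub_eq_zero.mp g1

end Pool.Agent.PSB
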