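import Pool.Agent.PSB.Stmts

/-!
PSB: module KIN (the regularised Green kernel as an integral of the kernels KS).
-/

set_option autoImplicit false

namespace Pool.Agent.PSB

open MeasureTheory Complex Set

namespace KIN_

/-- the integrand on `[m, 1]` -/
noncomputable def g (a : ℂ) (s : ℝ) : ℝ := (((s : ℂ) ^ 2 + a) / ((s : ℂ) ^ 2 - a)).re / s

lemma ne_of_lt {a : ℂ} {m s : ℝ} (ha : ‖a‖ < m ^ 2) (hm : 0 < m) (hs : m ≤ s) :
    0 < ((s : ℂ) ^ 2 - a).re := by
  have h1 : ((s : ℂ) ^ 2 - a).re = s ^ 2 - a.re := by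
    rw [Complex.sub_re, ← Complex.ofReal_pow, Complex.ofReal_re]
  rw [h1]
  have h2 : a.re ≤ ‖a‖ := Complex.re_le_norm a
  have h3 : m ^ 2 ≤ s ^ 2 := pow_le_pow_left₀ hm.le hs 2
  linarith

lemma deriv_F {a : ℂ} {m s : ℝ} (ha : ‖a‖ < m ^ 2) (hm : 0 < m) (hs : m ≤ s) :
    HasDerivAt (fun t : ℝ => (Complex.log ((t : ℂ) ^ 2 - a)).re - Real.log t) (g a s) s := by
  have hs0 : 0 < s := lt_of_lt_of_le hm hs
  have hre := ne_of_lt ha hm hs
  have hne : ((s : ℂ) ^ 2 - a) ≠ 0 := by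
    intro h
    rw [h, Complex.zero_re] at hre
    exact lt_irrefl _ hre
  have h1 : HasDerivAt (fun t : ℝ => (t : ℂ) ^ 2 - a) (2 * (s : ℂ)) s := by
    have h2 : HasDerivAt (fun t : ℝ => (t : ℂ)) 1 s := Complex.ofRealCLM.hasDerivAt
    have h3 := (h2.pow 2).sub_const a
    have e : ((2 : ℕ) : ℂ) * (s : ℂ) ^ (2 - 1) * 1 = 2 * (s : ℂ) := by
      push_cast
      ring
    rw [e] at h3
    exact h3
  have h4 := h1.clog_real (Or.inl hre)
  have h5 : HasDerivAt (fun t : ℝ => (Complex.log ((t : ℂ) ^ 2 - a)).re)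
      ((2 * (s : ℂ) / ((s : ℂ) ^ 2 - a)).re) s :=
    (Complex.reCLM.hasFDerivAt.comp_hasDerivAt s h4)
  have h6 := h5.sub (Real.hasDerivAt_log hs0.ne')
  have e2 : (2 * (s : ℂ) / ((s : ℂ) ^ 2 - a)).re - s⁻¹ = g a s := by
    unfold g
    have e3 : ((s : ℂ) ^ 2 + a) / ((s : ℂ) ^ 2 - a) =
        (s : ℂ) * (2 * (s : ℂ) / ((s : ℂ) ^ 2 - a)) - 1 := by
      field_simp
      ring
    rw [e3, Complex.sub_re, Complex.re_ofReal_mul, Complex.one_re]
    field_simp
  rw [e2] at h6
  exact h6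

lemma cont_g {a : ℂ} {m : ℝ} (ha : ‖a‖ < m ^ 2) (hm : 0 < m) :
    ContinuousOn (g a) (Icc m 1) := by
  unfold g
  apply ContinuousOn.div
  · apply Complex.continuous_re.comp_continuousOn
    apply ContinuousOn.div
    · exact ((Complex.continuous_ofReal.pow 2).add continuous_const).continuousOn
    · exact ((Complex.continuous_ofReal.pow 2).sub continuous_const).continuousOn
    · intro s hs h
      have := ne_of_lt ha hm hs.1
      rw [h, Complex.zero_re] at this
      exact lt_irrefl _ this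
  · exact continuousOn_id
  · intro s hs h
    have := lt_of_lt_of_le hm hs.1
    exact this.ne' h

end KIN_

open KIN_

theorem kin_proof : Stmt_KIN := by
  intro τ hτ0 hτ1 w w' hw hw' hw1 hw1'
  set a : ℂ := (τ : ℂ) * ((starRingEnd ℂ) w * w') with ha_def
  set m : ℝ := max ‖w‖ ‖w'‖ with hm_def
  have hwm : ‖w‖ ≤ m := le_max_left _ _
  have hwm' : ‖w'‖ ≤ m := le_max_right _ _
  have hm : 0 < m := lt_of_lt_of_le (norm_pos_iff.2 hw) hwm
  have hm1 : m < 1 := max_lt hw1 hw1'
  have ha : ‖a‖ < m ^ 2 := by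
    rw [ha_def, norm_mul, norm_mul, Complex.norm_real, RCLike.norm_conj, Real.norm_eq_abs,
      abs_of_pos hτ0]
    have h1 : ‖w‖ * ‖w'‖ ≤ m * m := mul_le_mul hwm hwm' (norm_nonneg _) hm.le
    have h2 : 0 < m * m := mul_pos hm hm
    nlinarith [mul_nonneg (norm_nonneg w) (norm_nonneg w')]
  have hfun1 : ∀ s, s < m → KS τ s w w' / s = 0 := by
    intro s hs
    unfold KS
    rw [if_neg, zero_div]
    rintro ⟨h1, h2⟩
    exact absurd (max_le h1 h2) (not_le.2 hs)
  have hfun2 : ∀ s, m ≤ s → KS τ s w w' / s = g a s := by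
    intro s hs
    unfold KS g
    rw [if_pos ⟨hwm.trans hs, hwm'.trans hs⟩]
  have hae : ∀ᵐ s : ℝ, s ∈ Set.uIoc (0 : ℝ) m → KS τ s w w' / s = 0 := by
    have h0 : ∀ᵐ s : ℝ, s ≠ m := by
      rw [ae_iff]
      simp
    filter_upwards [h0] with s hs hsI
    rw [uIoc_of_le hm.le] at hsI
    exact hfun1 s (lt_of_le_of_ne hsI.2 hs)
  have hint1 : IntervalIntegrable (fun s => KS τ s w w' / s) volume 0 m := by
    have h0 : IntervalIntegrable (fun _ : ℝ => (0 : ℝ)) volume 0 m := intervalIntegrable_const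
    refine h0.congr_ae ?_
    rw [Filter.EventuallyEq, ae_restrict_iff' measurableSet_uIoc]
    filter_upwards [hae] with s hs hsI
    exact (hs hsI).symm
  have hgi : IntervalIntegrable (g a) volume m 1 := by
    apply ContinuousOn.intervalIntegrable
    rw [uIcc_of_le hm1.le]
    exact cont_g ha hm
  have hint2 : IntervalIntegrable (fun s => KS τ s w w' / s) volume m 1 := by
    refine hgi.congr ?_
    intro s hs
    rw [uIoc_of_le hm1.le] at hs
    exact (hfun2 s hs.1.le).symm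
  rw [← intervalIntegral.integral_add_adjacent_intervals hint1 hint2]
  have e1 : ∫ s in (0 : ℝ)..m, KS τ s w w' / s = 0 := by
    rw [intervalIntegral.integral_congr_ae (g := fun _ => (0 : ℝ)) hae]
    simp
  have e2 : ∫ s in m..1, KS τ s w w' / s = ∫ s in m..1, g a s := by
    apply intervalIntegral.integral_congr
    intro s hs
    rw [uIcc_of_le hm1.le] at hs
    exact hfun2 s hs.1
  rw [e1, e2, zero_add]
  rw [intervalIntegral.integral_eq_sub_of_hasDerivAt (f := fun t : ℝ =>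
    (Complex.log ((t : ℂ) ^ 2 - a)).re - Real.log t) _ hgi]
  · unfold GT
    rw [Complex.log_re, Complex.log_re, Real.log_one, sub_zero, Complex.ofReal_one, one_pow]
    ring
  · intro s hs
    rw [uIcc_of_le hm1.le] at hs
    exact deriv_F ha hm hs.1

end Pool.Agent.PSB
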