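import Pool.Agent.PSB.Stmts
import Pool.Agent.PSB.GLB

/-!
# Module KLB of the squad PSB (MP_910507_an): lower bound from truncated Koebe functions
-/

set_option autoImplicit false

namespace Pool.Agent.PSB

open Complex

namespace KLB_

theorem sum_eq (s : ℝ) (hs : s ≠ 0) (n : ℕ) :
    ∑ k ∈ Finset.range n, ((k : ℝ) + 1) * (1 - 1 / s) ^ k =
      s ^ 2 * (1 - (1 - 1 / s) ^ n * (1 + n / s)) := by
  induction n with
  | zero => simp
  | succ n ih =>
    rw [Finset.sum_range_succ, ih, pow_succ (1 - 1 / s) n]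
    push_cast
    field_simp
    ring

end KLB_

theorem klb_proof (h1 : Stmt_KOE) : Stmt_KLB := by
  intro M hM n
  obtain ⟨hS, hc⟩ := h1 M hM
  have hM0 : (0 : ℝ) ≤ M := by linarith
  have hs : Real.sqrt M ≠ 0 := by
    have : 0 < Real.sqrt M := Real.sqrt_pos.mpr (by linarith)
    exact this.ne'
  have hsum := KLB_.sum_eq (Real.sqrt M) hs n
  rw [Real.sq_sqrt hM0] at hsum
  rw [← hsum]
  refine le_trans ?_ (le_csSup (GLB_.bdd n M) ⟨_, hS, 1, norm_one, rfl⟩)
  have hps : psum (fun w => w / (1 - ((1 - 1 / Real.sqrt M : ℝ) : ℂ) * w) ^ 2) n 1 =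
      ((∑ k ∈ Finset.range n, ((k : ℝ) + 1) * (1 - 1 / Real.sqrt M) ^ k : ℝ) : ℂ) := by
    unfold psum
    rw [Finset.sum_range_succ', GLB_.coeff_zero hS]
    simp only [one_pow, mul_one, add_zero]
    rw [Complex.ofReal_sum]
    refine Finset.sum_congr rfl fun k _ => ?_
    rw [hc k]
    push_cast
    ring
  rw [hps, Complex.norm_real]
  exact le_abs_self _

end Pool.Agent.PSB
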