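import Pool.Agent.PSB.Stmts

/-!
# Module KOE of the squad PSB (MP_910507_an): truncated Koebe functions
-/

set_option autoImplicit false

namespace Pool.Agent.PSB

namespace KOE_

open Complex

/-- Taylor coefficients from a power series expansion on the unit disc. -/
lemma coeff_of_hasSum (f : ℂ → ℂ) (c : ℕ → ℂ)
    (h : ∀ z : ℂ, ‖z‖ < 1 → HasSum (fun n => c n * z ^ n) (f z)) (k : ℕ) : coeff f k = c k := by
  have h1 : HasFPowerSeriesAt f (FormalMultilinearSeries.ofScalars ℂ c) 0 := by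
    rw [hasFPowerSeriesAt_iff]
    have : ∀ᶠ z : ℂ in nhds 0, ‖z‖ < 1 := by
      have := Metric.ball_mem_nhds (0 : ℂ) one_pos
      filter_upwards [this] with z hz
      simpa using hz
    filter_upwards [this] with z hz
    have h2 := h z hz
    rw [zero_add]
    refine h2.congr_fun ?_
    intro n
    rw [FormalMultilinearSeries.coeff_ofScalars, smul_eq_mul, mul_comm]
  have h2 := h1.analyticAt.hasFPowerSeriesAt
  have h3 := h2.eq_formalMultilinearSeries h1
  have h4 := congrArg (fun p => FormalMultilinearSeries.coeff p k) h3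
  simp only [FormalMultilinearSeries.coeff_ofScalars] at h4
  exact h4

end KOE_

open KOE_

theorem koe_proof : Stmt_KOE := by
  intro M hM
  set ρ : ℝ := 1 - 1 / Real.sqrt M with hρ
  have hs1 : 1 < Real.sqrt M := by
    rw [show (1 : ℝ) = Real.sqrt 1 by simp]
    exact Real.sqrt_lt_sqrt (by norm_num) hM
  have hs0 : 0 < Real.sqrt M := by linarith
  have hinv : 1 / Real.sqrt M < 1 := by
    rw [div_lt_one hs0]
    exact hs1
  have hinv0 : 0 < 1 / Real.sqrt M := by positivity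
  have hρ0 : 0 < ρ := by rw [hρ]; linarith
  have hρ1 : ρ < 1 := by rw [hρ]; linarith
  have hMsq : (1 - ρ) ^ 2 = 1 / M := by
    rw [hρ]
    have : (1 : ℝ) - (1 - 1 / Real.sqrt M) = 1 / Real.sqrt M := by ring
    rw [this, div_pow, one_pow, Real.sq_sqrt (by linarith)]
  have hnorm : ∀ z : ℂ, ‖z‖ < 1 → 1 - ρ ≤ ‖1 - (ρ : ℂ) * z‖ := by
    intro z hz
    have h1 : ‖(ρ : ℂ) * z‖ ≤ ρ := by
      rw [norm_mul, Complex.norm_real, Real.norm_eq_abs, abs_of_pos hρ0]
      nlinarith [norm_nonneg z]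
    have h2 := norm_sub_norm_le (1 : ℂ) ((ρ : ℂ) * z)
    rw [norm_one] at h2
    linarith
  have hne : ∀ z : ℂ, ‖z‖ < 1 → 1 - (ρ : ℂ) * z ≠ 0 := by
    intro z hz h
    have := hnorm z hz
    rw [h, norm_zero] at this
    linarith
  have hcoeff : ∀ k : ℕ, coeff (fun w : ℂ => w / (1 - (ρ : ℂ) * w) ^ 2) k =
      k * (ρ : ℂ) ^ (k - 1) := by
    intro k
    refine coeff_of_hasSum _ (fun k : ℕ => (k : ℂ) * (ρ : ℂ) ^ (k - 1)) ?_ k
    intro z hz
    have h1 : ‖(ρ : ℂ) * z‖ < 1 := by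
      rw [norm_mul, Complex.norm_real, Real.norm_eq_abs, abs_of_pos hρ0]
      nlinarith [norm_nonneg z]
    have h2 := (hasSum_coe_mul_geometric_of_norm_lt_one h1).mul_left ((ρ : ℂ)⁻¹)
    have hρc : (ρ : ℂ) ≠ 0 := by exact_mod_cast hρ0.ne'
    have h3 : (ρ : ℂ)⁻¹ * ((ρ : ℂ) * z / (1 - (ρ : ℂ) * z) ^ 2) = z / (1 - (ρ : ℂ) * z) ^ 2 := by
      field_simp
    rw [h3] at h2
    have h4 : (fun i : ℕ => (ρ : ℂ)⁻¹ * ((i : ℂ) * ((ρ : ℂ) * z) ^ i)) =
        fun n : ℕ => (n : ℂ) * (ρ : ℂ) ^ (n - 1) * z ^ n := by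
      funext n
      rcases n with _ | n
      · simp
      · rw [Nat.add_sub_cancel, mul_pow, pow_succ (ρ : ℂ) n]
        field_simp
    rw [h4] at h2
    exact h2
  refine ⟨⟨?_, ?_, ?_, ?_, ?_⟩, ?_⟩
  · intro z hz
    have hz1 : ‖z‖ < 1 := by simpa using hz
    refine DifferentiableAt.differentiableWithinAt ?_
    have h1 : DifferentiableAt ℂ (fun w : ℂ => (1 - (ρ : ℂ) * w) ^ 2) z := by fun_prop
    exact differentiableAt_id.div h1 (pow_ne_zero 2 (hne z hz1))
  · intro z hz w hw h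
    have hz1 : ‖z‖ < 1 := by simpa using hz
    have hw1 : ‖w‖ < 1 := by simpa using hw
    simp only [] at h
    rw [div_eq_div_iff (pow_ne_zero 2 (hne z hz1)) (pow_ne_zero 2 (hne w hw1))] at h
    have h2 : (z - w) * (1 - (ρ : ℂ) ^ 2 * z * w) = 0 := by
      linear_combination h
    rcases mul_eq_zero.1 h2 with h3 | h3
    · exact sub_eq_zero.1 h3
    · exfalso
      have h4 : (ρ : ℂ) ^ 2 * z * w = 1 := (sub_eq_zero.1 h3).symm
      have h5 : ‖(ρ : ℂ) ^ 2 * z * w‖ = 1 := by rw [h4, norm_one]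
      rw [norm_mul, norm_mul, norm_pow, Complex.norm_real, Real.norm_eq_abs, abs_of_pos hρ0] at h5
      have h6 : ρ ^ 2 * ‖z‖ ≤ 1 := by nlinarith [norm_nonneg z]
      have h7 : ρ ^ 2 * ‖z‖ * ‖w‖ < 1 := by
        have h8 : 0 ≤ ρ ^ 2 * ‖z‖ := by positivity
        rcases h6.lt_or_eq with h9 | h9
        · nlinarith [norm_nonneg w]
        · rw [h9, one_mul]; exact hw1
      linarith
  · simp
  · have h1 := hcoeff 1
    unfold coeff at h1
    rw [iteratedDeriv_one] at h1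
    simpa using h1
  · intro z hz
    have hz1 : ‖z‖ < 1 := by simpa using hz
    have h1 := hnorm z hz1
    rw [norm_div, norm_pow]
    have h2 : (1 - ρ) ^ 2 ≤ ‖1 - (ρ : ℂ) * z‖ ^ 2 := by
      have : 0 ≤ 1 - ρ := by linarith
      exact pow_le_pow_left₀ this h1 2
    rw [hMsq] at h2
    have hM0 : 0 < M := by linarith
    have h3 : 0 < ‖1 - (ρ : ℂ) * z‖ ^ 2 := lt_of_lt_of_le (by positivity) h2
    rw [div_le_iff₀ h3]
    have h4 : 1 ≤ M * ‖1 - (ρ : ℂ) * z‖ ^ 2 := by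
      have := mul_le_mul_of_nonneg_left h2 hM0.le
      rwa [mul_one_div_cancel hM0.ne'] at this
    linarith
  · intro k
    rw [hcoeff (k + 1), Nat.add_sub_cancel]
    push_cast
    ring

end Pool.Agent.PSB
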