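import Pool.Agent.PSB.Stmts

/-!
# PSB, module KPD : positive definiteness of the Poisson type kernel
-/

set_option autoImplicit false

namespace Pool.Agent.PSB

open MeasureTheory Complex

namespace KPD_

open Classical in
/-- the functions whose squares appear -/
noncomputable def h (w : ℝ → ℂ) (φ : ℝ → ℝ) (s : ℝ) (n : ℕ) (α : ℝ) : ℂ :=
  if ‖w α‖ ≤ s then ((φ α : ℝ) : ℂ) * (w α) ^ n else 0

lemma h_meas {w : ℝ → ℂ} {φ : ℝ → ℝ} (s : ℝ) (n : ℕ) (hw : Continuous w) (hφ : Continuous φ) :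
    Measurable (h w φ s n) := by
  unfold h
  refine Measurable.ite ?_ ?_ measurable_const
  · exact measurableSet_le (hw.norm.measurable) measurable_const
  · exact ((continuous_ofReal.comp hφ).mul (hw.pow n)).measurable

lemma h_bd {w : ℝ → ℂ} {φ : ℝ → ℝ} {s C : ℝ} (hs : 0 < s) (n : ℕ) {α : ℝ} (hC : |φ α| ≤ C) :
    ‖h w φ s n α‖ ≤ C * s ^ n := by
  have hC0 : 0 ≤ C := (abs_nonneg _).trans hC
  unfold h
  split_ifs with h1
  · rw [norm_mul, norm_pow, Complex.norm_real, Real.norm_eq_abs]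
    exact mul_le_mul hC (pow_le_pow_left₀ (norm_nonneg _) h1 n) (by positivity) hC0
  · rw [norm_zero]
    positivity

/-- the terms of the series -/
noncomputable def F (w : ℝ → ℂ) (φ : ℝ → ℝ) (τ s : ℝ) (n : ℕ) (p : ℝ × ℝ) : ℝ :=
  (if n = 0 then 1 else 2) * (τ / s ^ 2) ^ n *
    ((starRingEnd ℂ) (h w φ s n p.1) * h w φ s n p.2).re

lemma coef_nonneg {τ s : ℝ} (h0 : 0 < τ) (hs : 0 < s) (n : ℕ) :
    0 ≤ (if n = 0 then (1 : ℝ) else 2) * (τ / s ^ 2) ^ n := by
  split_ifs <;> positivity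

lemma box {φ : ℝ → ℝ} (hφ : Continuous φ) :
    ∃ C : ℝ, 0 ≤ C ∧ ∀ᵐ p ∂(nu.prod nu), |φ p.1| ≤ C ∧ |φ p.2| ≤ C := by
  obtain ⟨C, hC⟩ := (isCompact_Icc (a := (0 : ℝ)) (b := 2 * Real.pi)).exists_bound_of_continuousOn
    hφ.continuousOn
  refine ⟨max C 0, le_max_right _ _, ?_⟩
  have hm : nu.prod nu = (volume.prod volume).restrict
      ((Set.Ioc (0 : ℝ) (2 * Real.pi)) ×ˢ (Set.Ioc (0 : ℝ) (2 * Real.pi))) := by
    unfold nu
    rw [Measure.prod_restrict]
  rw [hm]
  filter_upwards [ae_restrict_mem (measurableSet_Ioc.prod measurableSet_Ioc)] with p hp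
  have h1 := hC p.1 ⟨hp.1.1.le, hp.1.2⟩
  have h2 := hC p.2 ⟨hp.2.1.le, hp.2.2⟩
  rw [Real.norm_eq_abs] at h1 h2
  exact ⟨h1.trans (le_max_left _ _), h2.trans (le_max_left _ _)⟩

instance : IsFiniteMeasure nu := by
  unfold nu
  infer_instance

lemma F_hasSum (w : ℝ → ℂ) (φ : ℝ → ℝ) {τ s : ℝ} (h0 : 0 < τ) (h1 : τ < 1) (hs : 0 < s)
    (p : ℝ × ℝ) :
    HasSum (fun n => F w φ τ s n p) (KS τ s (w p.1) (w p.2) * (φ p.1 * φ p.2)) := by
  by_cases hp : ‖w p.1‖ ≤ s ∧ ‖w p.2‖ ≤ s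
  · obtain ⟨u, hu⟩ : ∃ u : ℂ, u = ((τ / s ^ 2 : ℝ) : ℂ) * ((starRingEnd ℂ) (w p.1) * w p.2) :=
      ⟨_, rfl⟩
    have hun : ‖u‖ < 1 := by
      rw [hu, norm_mul, norm_mul, RCLike.norm_conj, Complex.norm_real, Real.norm_eq_abs,
        abs_of_pos (by positivity)]
      have : ‖w p.1‖ * ‖w p.2‖ ≤ s * s :=
        mul_le_mul hp.1 hp.2 (norm_nonneg _) hs.le
      calc τ / s ^ 2 * (‖w p.1‖ * ‖w p.2‖) ≤ τ / s ^ 2 * (s * s) :=
            mul_le_mul_of_nonneg_left this (by positivity)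
        _ = τ := by field_simp
        _ < 1 := h1
    have hne : (1 : ℂ) - u ≠ 0 := by
      intro h
      have : u = 1 := by linear_combination -h
      rw [this, norm_one] at hun
      exact lt_irrefl _ hun
    have e1 := ((hasSum_geometric_of_norm_lt_one hun).mul_left (2 : ℂ)).sub
      (hasSum_ite_eq (0 : ℕ) (1 : ℂ))
    have e2 := (Complex.hasSum_re e1).mul_right (φ p.1 * φ p.2)
    have hsC : (s : ℂ) ≠ 0 := by exact_mod_cast hs.ne'
    have eK : (2 * (1 - u)⁻¹ - 1 : ℂ).re = KS τ s (w p.1) (w p.2) := by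
      unfold KS
      rw [if_pos hp]
      congr 1
      have hx : (s : ℂ) ^ 2 * u = (τ : ℂ) * ((starRingEnd ℂ) (w p.1) * w p.2) := by
        rw [hu]
        push_cast
        field_simp
      rw [← hx]
      have h3 : (s : ℂ) ^ 2 - (s : ℂ) ^ 2 * u ≠ 0 := by
        have : (s : ℂ) ^ 2 - (s : ℂ) ^ 2 * u = (s : ℂ) ^ 2 * (1 - u) := by ring
        rw [this]
        exact mul_ne_zero (pow_ne_zero 2 hsC) hne
      rw [eq_div_iff h3]
      field_simp
      ring
    rw [eK] at e2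
    have eF : (fun n => F w φ τ s n p) = fun n =>
        ((2 : ℂ) * u ^ n - if n = 0 then 1 else 0).re * (φ p.1 * φ p.2) := by
      funext n
      unfold F h
      rw [if_pos hp.1, if_pos hp.2]
      have a1 : (starRingEnd ℂ) (((φ p.1 : ℝ) : ℂ) * w p.1 ^ n) *
          (((φ p.2 : ℝ) : ℂ) * w p.2 ^ n) =
          ((φ p.1 * φ p.2 : ℝ) : ℂ) * ((starRingEnd ℂ) (w p.1) * w p.2) ^ n := by
        rw [map_mul, map_pow, Complex.conj_ofReal]
        push_cast
        ring
      have a2 : u ^ n = (((τ / s ^ 2) ^ n : ℝ) : ℂ) * ((starRingEnd ℂ) (w p.1) * w p.2) ^ n := by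
        rw [hu, mul_pow]
        push_cast
        ring
      rw [a1, a2, Complex.re_ofReal_mul]
      rcases Nat.eq_zero_or_pos n with h4 | h4
      · rw [h4]
        norm_num
      · rw [if_neg (by omega), if_neg (by omega), sub_zero]
        have a3 : (2 : ℂ) * ((((τ / s ^ 2) ^ n : ℝ) : ℂ) *
            ((starRingEnd ℂ) (w p.1) * w p.2) ^ n) = ((2 * (τ / s ^ 2) ^ n : ℝ) : ℂ) *
            ((starRingEnd ℂ) (w p.1) * w p.2) ^ n := by
          push_cast
          ring
        rw [a3, Complex.re_ofReal_mul]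
        ring
    rw [eF]
    exact e2
  · have : (fun n => F w φ τ s n p) = fun _ => 0 := by
      funext n
      unfold F h
      rw [not_and_or] at hp
      rcases hp with hp | hp
      · rw [if_neg hp]
        simp
      · rw [if_neg hp]
        simp
    rw [this]
    unfold KS
    rw [if_neg hp, zero_mul]
    exact hasSum_zero

lemma F_int_nonneg {w : ℝ → ℂ} {φ : ℝ → ℝ} (hw : Continuous w) (hφ : Continuous φ) {τ s : ℝ}
    (h0 : 0 < τ) (hs : 0 < s) (n : ℕ) : 0 ≤ ∫ p, F w φ τ s n p ∂(nu.prod nu) := by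
  unfold F
  rw [integral_const_mul]
  refine mul_nonneg (coef_nonneg h0 hs n) ?_
  obtain ⟨C, hC0, hC⟩ := box hφ
  have hm := h_meas s n hw hφ
  have hint : Integrable (fun p : ℝ × ℝ => (starRingEnd ℂ) (h w φ s n p.1) * h w φ s n p.2)
      (nu.prod nu) := by
    refine Integrable.of_bound (C := (C * s ^ n) * (C * s ^ n)) ?_ ?_
    · exact ((Complex.continuous_conj.measurable.comp (hm.comp measurable_fst)).mul
        (hm.comp measurable_snd)).aestronglyMeasurable
    · filter_upwards [hC] with p hp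
      rw [norm_mul, RCLike.norm_conj]
      exact mul_le_mul (h_bd hs n hp.1) (h_bd hs n hp.2) (norm_nonneg _) (by positivity)
  have e : ∫ p : ℝ × ℝ, ((starRingEnd ℂ) (h w φ s n p.1) * h w φ s n p.2).re ∂(nu.prod nu) =
      (∫ p : ℝ × ℝ, (starRingEnd ℂ) (h w φ s n p.1) * h w φ s n p.2 ∂(nu.prod nu)).re :=
    (Complex.reCLM.integral_comp_comm hint)
  rw [e, integral_prod_mul (fun α => (starRingEnd ℂ) (h w φ s n α)) (fun β => h w φ s n β),
    integral_conj, mul_comm, Complex.mul_conj]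
  rw [Complex.ofReal_re]
  exact Complex.normSq_nonneg _

end KPD_

open KPD_ in
theorem kpd_proof : Stmt_KPD := by
  intro τ s h0 h1 hs _ w φ hw hφ
  unfold I2
  obtain ⟨C, hC0, hC⟩ := box hφ
  have key := hasSum_integral_of_dominated_convergence (μ := nu.prod nu)
    (F := fun n p => F w φ τ s n p)
    (f := fun p => KS τ s (w p.1) (w p.2) * (φ p.1 * φ p.2))
    (fun n _ => 2 * C ^ 2 * τ ^ n) ?_ ?_ ?_ ?_ ?_
  · exact key.nonneg fun n => F_int_nonneg hw hφ h0 hs n
  · intro n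
    have hm := h_meas s n hw hφ
    unfold F
    exact (Complex.measurable_re.comp ((Complex.continuous_conj.measurable.comp
      (hm.comp measurable_fst)).mul (hm.comp measurable_snd))).const_mul _
      |>.aestronglyMeasurable
  · intro n
    filter_upwards [hC] with p hp
    unfold F
    rw [norm_mul, Real.norm_eq_abs, abs_of_nonneg (coef_nonneg h0 hs n), Real.norm_eq_abs]
    have b1 : |((starRingEnd ℂ) (h w φ s n p.1) * h w φ s n p.2).re| ≤
        (C * s ^ n) * (C * s ^ n) := by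
      refine (Complex.abs_re_le_norm _).trans ?_
      rw [norm_mul, RCLike.norm_conj]
      exact mul_le_mul (h_bd hs n hp.1) (h_bd hs n hp.2) (norm_nonneg _) (by positivity)
    have b2 : (if n = 0 then (1 : ℝ) else 2) * (τ / s ^ 2) ^ n ≤ 2 * (τ / s ^ 2) ^ n := by
      apply mul_le_mul_of_nonneg_right _ (by positivity)
      split_ifs <;> norm_num
    refine (mul_le_mul b2 b1 (abs_nonneg _) (by positivity)).trans (le_of_eq ?_)
    have : (τ / s ^ 2) ^ n * (s ^ n * s ^ n) = τ ^ n := by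
      rw [← mul_pow, ← mul_pow]
      congr 1
      field_simp
    calc 2 * (τ / s ^ 2) ^ n * (C * s ^ n * (C * s ^ n)) =
        2 * C ^ 2 * ((τ / s ^ 2) ^ n * (s ^ n * s ^ n)) := by ring
      _ = _ := by rw [this]
  · exact Filter.Eventually.of_forall fun _ =>
      (summable_geometric_of_lt_one h0.le h1).mul_left _
  · exact integrable_const _
  · exact Filter.Eventually.of_forall fun p => F_hasSum w φ h0 h1 hs p

end Pool.Agent.PSB
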