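import Pool.Agent.PSB.Stmts

set_option autoImplicit false

namespace Pool.Agent.PSB

open MeasureTheory Complex Metric Filter

namespace LB3_

lemma epm_pos {M : ℝ} (hM : 1 < M) {m : ℕ} (hm : 1 ≤ m) : 0 < epm M m := by
  have h : 1 < M ^ ((1 : ℝ) / m) := Real.one_lt_rpow hM (by positivity)
  unfold epm; linarith

lemma sc_pow {M : ℝ} (hM : 1 < M) {m : ℕ} (hm : 1 ≤ m) :
    (M : ℂ) * (sc (epm M m) : ℂ) ^ (2 * m) = 1 := by
  have h0 : 0 < M := by linarith
  have hX : 1 + 2 * epm M m = M ^ ((1 : ℝ) / m) := by unfold epm; ring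
  have hXm : (1 + 2 * epm M m) ^ m = M := by
    rw [hX, ← Real.rpow_natCast, ← Real.rpow_mul h0.le]
    have hm0 : (m : ℝ) ≠ 0 := by positivity
    rw [one_div, inv_mul_cancel₀ hm0, Real.rpow_one]
  have hXpos : 0 ≤ 1 + 2 * epm M m := by have := epm_pos hM hm; linarith
  have h1 : sc (epm M m) ^ (2 * m) = 1 / M := by
    unfold sc
    rw [pow_mul, div_pow, Real.sq_sqrt hXpos, div_pow, hXm]
    simp
  have h2 : (sc (epm M m) : ℂ) ^ (2 * m) = ((1 / M : ℝ) : ℂ) := by
    rw [← h1]; push_cast; rfl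
  rw [h2]
  have hMC : (M : ℂ) ≠ 0 := by exact_mod_cast h0.ne'
  push_cast
  field_simp

end LB3_

open LB3_ in
theorem lb3_proof (h1 : Stmt_CHN) (h2 : Stmt_CLS) (h3 : Stmt_LIM) (h4 : Stmt_JET) : Stmt_LB3 := by
  intro M σ hM hσ0 hσ1 η hη
  have hlim := h3 M σ hM hσ0 hσ1
  have hev := (hlim.eventually (lt_mem_nhds (show
    1 + 2 * σ * Real.log M + 4 * σ ^ 2 * Real.log M ^ 2 - 4 * σ ^ 2 * Real.log M
        + (1 - 1 / M ^ 2) - η < 1 + 2 * σ * Real.log M + 4 * σ ^ 2 * Real.log M ^ 2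
          - 4 * σ ^ 2 * Real.log M + (1 - 1 / M ^ 2) by linarith))).and (eventually_ge_atTop 1)
  obtain ⟨m, hval, hm⟩ := hev.exists
  have hε := epm_pos hM hm
  obtain ⟨κ, hκ, hre, him, hQ⟩ := h2 M σ m hM hσ0 hσ1 hm
  obtain ⟨hF, hJ⟩ := h1 (epm M m) κ hε hκ (2 * m)
  have hs := sc_pow hM hm
  have h0 : (0 : ℝ) < M := by linarith
  have hMC : (M : ℂ) ≠ 0 := by exact_mod_cast h0.ne'
  set F := chain (epm M m) κ (2 * m) with hFdef
  set A := chA (epm M m) κ (2 * m) with hA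
  set B := chB (epm M m) κ (2 * m) with hB
  have hFan : AnalyticAt ℂ F 0 := hF.diff.analyticAt (ball_mem_nhds 0 one_pos)
  have hfan : AnalyticAt ℂ (fun z => (M : ℂ) * F z) 0 := analyticAt_const.mul hFan
  have hJf : Jet3 (fun z => (M : ℂ) * F z) 1 A B := by
    unfold Jet3 at hJ ⊢
    have h5 := hJ.const_mul_left (M : ℂ)
    have h6 : (fun z : ℂ => (M : ℂ) * F z - (1 * z + A * z ^ 2 + B * z ^ 3)) =
        (fun z : ℂ => (M : ℂ) * (F z - ((sc (epm M m) : ℂ) ^ (2 * m) * z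
          + (sc (epm M m) : ℂ) ^ (2 * m) * A * z ^ 2
          + (sc (epm M m) : ℂ) ^ (2 * m) * B * z ^ 3))) := by
      funext z
      linear_combination (z + A * z ^ 2 + B * z ^ 3) * hs
    rw [h6]
    exact h5
  obtain ⟨hz, hd, hc1, hc2, hc3⟩ := h4 _ 1 A B hfan hJf
  refine ⟨fun z => (M : ℂ) * F z, ⟨?_, ?_, hz, hd, ?_⟩, ?_⟩
  · exact hF.diff.const_mul _
  · intro x hx y hy hxy
    exact hF.inj hx hy (mul_left_cancel₀ hMC hxy)
  · intro z hz'
    rw [norm_mul, Complex.norm_real, Real.norm_of_nonneg h0.le]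
    have := hF.maps z hz'
    nlinarith
  · have hc0 : coeff (fun z => (M : ℂ) * F z) 0 = 0 := by
      unfold coeff
      simp only [iteratedDeriv_zero]
      rw [hz]; simp
    have hps : psum (fun z => (M : ℂ) * F z) 3 1 = 1 + A + B := by
      unfold psum
      rw [Finset.sum_range_succ, Finset.sum_range_succ, Finset.sum_range_succ,
        Finset.sum_range_succ, Finset.sum_range_zero, hc0, hc1, hc2, hc3]
      ring
    rw [hps]
    have hre' : (1 + A + B).re ≤ ‖1 + A + B‖ := Complex.re_le_norm _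
    have hBre : B.re = A.re ^ 2 - A.im ^ 2
        - 2 * epm M m * (1 + 2 * epm M m) * rho (epm M m) ^ 2 * (chQ (epm M m) κ (2 * m)).re := by
      rw [hB]
      unfold chB
      rw [← hA]
      have hcast : (2 * (epm M m : ℂ) * (1 + 2 * (epm M m : ℂ)) * (rho (epm M m) : ℂ) ^ 2
          * chQ (epm M m) κ (2 * m)) =
          ((2 * epm M m * (1 + 2 * epm M m) * rho (epm M m) ^ 2 : ℝ) : ℂ)
            * chQ (epm M m) κ (2 * m) := by push_cast; ring
      rw [hcast, Complex.sub_re, Complex.re_ofReal_mul, sq A, Complex.mul_re]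
      ring
    have himsq : A.im ^ 2 ≤ (2 * epm M m * (1 - sc (epm M m)) * m) ^ 2 := by
      have := sq_le_sq' (by linarith [neg_abs_le A.im, him]) (le_trans (le_abs_self A.im) him)
      exact this
    have hsum : (1 + A + B).re = 1 + A.re + B.re := by simp
    rw [hsum, hBre, hre, hQ] at hre'
    linarith [hval, himsq, hre']

end Pool.Agent.PSB
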