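import Pool.Agent.PSB.Stmts

/-! Module LC: the logarithmic kernel of the circle -/

set_option autoImplicit false

namespace Pool.Agent.PSB

open MeasureTheory Complex Metric Set Filter
open scoped ComplexConjugate Topology

namespace LC_

lemma ee_cont : Continuous ee := by
  unfold ee
  fun_prop

lemma phi_cont (x0 : ℝ) (x1 : ℂ) : Continuous (phi x0 x1) := by
  unfold phi
  have := ee_cont
  fun_prop

lemma norm_ee (θ : ℝ) : ‖ee θ‖ = 1 := Complex.norm_exp_ofReal_mul_I θ

lemma ee_mul_conj (θ : ℝ) : ee θ * conj (ee θ) = 1 := by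
  rw [Complex.mul_conj, Complex.normSq_eq_norm_sq, norm_ee]
  simp

lemma integ (β : ℝ) :
    IntervalIntegrable (fun α => Real.log ‖ee α - ee β‖) volume 0 (2 * Real.pi) := by
  have h := circleIntegrable_log_norm_sub_const (a := ee β) (c := 0) 1
  unfold CircleIntegrable at h
  simpa [circleMap, ee] using h

lemma null (β : ℝ) : ∀ᵐ α : ℝ, ee α ≠ ee β := by
  have hc : ({α : ℝ | ee α = ee β}).Countable := by
    have : {α : ℝ | ee α = ee β} ⊆ Set.range (fun n : ℤ => β + n * (2 * Real.pi)) := by
      intro α hα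
      have h1 : Complex.exp (α * I) = Complex.exp (β * I) := hα
      obtain ⟨n, hn⟩ := Complex.exp_eq_exp_iff_exists_int.1 h1
      refine ⟨n, ?_⟩
      have h2 : ((α : ℝ) : ℂ) = ((β + n * (2 * Real.pi) : ℝ) : ℂ) := by
        have h3 : (α : ℂ) * I = (β + n * (2 * Real.pi)) * I := by
          rw [hn]; ring
        have h4 := mul_right_cancel₀ I_ne_zero h3
        rw [h4]
        push_cast
        ring
      exact (Complex.ofReal_injective h2).symm
    exact (Set.countable_range _).mono this
  have := hc.measure_zero (volume : Measure ℝ)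
  rw [ae_iff]
  simpa using this

lemma lower {α β r : ℝ} (hr : 0 ≤ r) (hr1 : r ≤ 1) : ‖ee α - ee β‖ / 2 ≤ ‖ee β - r * ee α‖ := by
  have h1 : 1 - r ≤ ‖ee β - r * ee α‖ := by
    have := norm_sub_norm_le (ee β) (r * ee α)
    rw [norm_mul, norm_ee, norm_ee, Complex.norm_real, Real.norm_eq_abs, abs_of_nonneg hr] at this
    linarith
  have h2 : ‖ee α - ee β‖ ≤ ‖ee β - r * ee α‖ + (1 - r) := by
    have e : ee α - ee β = -(ee β - r * ee α) + (1 - r : ℝ) * ee α := by
      push_cast
      ring
    rw [e]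
    refine (norm_add_le _ _).trans ?_
    rw [norm_neg, norm_mul, norm_ee, Complex.norm_real, Real.norm_eq_abs,
      abs_of_nonneg (by linarith : (0 : ℝ) ≤ 1 - r), mul_one]
  linarith

lemma upper {α β r : ℝ} (hr : 0 ≤ r) (hr1 : r ≤ 1) : ‖ee β - r * ee α‖ ≤ 2 := by
  refine (norm_sub_le _ _).trans ?_
  rw [norm_mul, norm_ee, norm_ee, Complex.norm_real, Real.norm_eq_abs, abs_of_nonneg hr]
  linarith

lemma log_bd {α β r : ℝ} (hr : 0 ≤ r) (hr1 : r ≤ 1) (h : ee α ≠ ee β) :
    |Real.log ‖ee β - r * ee α‖| ≤ Real.log 2 + |Real.log ‖ee α - ee β‖| := by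
  have d0 : 0 < ‖ee α - ee β‖ := norm_pos_iff.2 (sub_ne_zero.2 h)
  have h1 := lower (α := α) (β := β) hr hr1
  have h2 := upper (α := α) (β := β) hr hr1
  have e0 : 0 < ‖ee β - r * ee α‖ := lt_of_lt_of_le (by positivity) h1
  have h3 := Real.log_le_log (by positivity) h1
  have h4 := Real.log_le_log e0 h2
  rw [Real.log_div d0.ne' (by norm_num)] at h3
  rw [abs_le]
  have := neg_abs_le (Real.log ‖ee α - ee β‖)
  have := abs_nonneg (Real.log ‖ee α - ee β‖)
  constructor <;> linarith

end LC_

open LC_ in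
theorem lc_proof (hMV : Stmt_MV) : Stmt_LC := by
  intro x0 x1 β
  refine ⟨integ β, ?_⟩
  set r : ℕ → ℝ := fun n => 1 - 1 / ((n : ℝ) + 2) with hr
  have r0 : ∀ n, 0 < r n := fun n => by
    simp only [hr]
    have : (0 : ℝ) ≤ n := Nat.cast_nonneg n
    rw [sub_pos, div_lt_one (by positivity)]
    linarith
  have r1 : ∀ n, r n < 1 := fun n => by
    simp only [hr]
    have : (0 : ℝ) < 1 / ((n : ℝ) + 2) := by positivity
    linarith
  have rt : Tendsto r atTop (𝓝 1) := by
    have h1 : Tendsto (fun n : ℕ => 1 / ((n : ℝ) + 2)) atTop (𝓝 0) := by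
      have := tendsto_one_div_add_atTop_nhds_zero_nat (𝕜 := ℝ)
      have h2 := this.comp (tendsto_add_atTop_nat 1)
      refine h2.congr fun n => ?_
      simp only [Function.comp]
      push_cast
      ring
    have := h1.const_sub 1
    simpa [hr] using this
  have val : ∀ n, ∫ α in (0 : ℝ)..(2 * Real.pi), Real.log ‖ee β - r n * ee α‖ * phi x0 x1 α =
      r n * (-(2 * Real.pi * (x1 * ee β).re)) := by
    intro n
    have h1 := hMV (fun z => 1 - z * conj (ee β)) (by fun_prop) (by
      intro z hz h0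
      rw [mem_ball_zero_iff] at hz
      have : ‖z * conj (ee β)‖ = 1 := by
        rw [← sub_eq_zero.1 h0]; simp
      rw [norm_mul, Complex.norm_conj, norm_ee, mul_one] at this
      linarith) (r n) (r0 n) (r1 n) x0 x1
    have hd : deriv (fun z : ℂ => 1 - z * conj (ee β)) 0 = -conj (ee β) := by
      have : HasDerivAt (fun z : ℂ => 1 - z * conj (ee β)) (-(1 * conj (ee β))) 0 :=
        ((hasDerivAt_id (0 : ℂ)).mul_const (conj (ee β))).const_sub 1
      rw [this.deriv, one_mul]
    rw [hd] at h1
    have e : ∀ α : ℝ, ‖1 - (r n : ℂ) * ee α * conj (ee β)‖ = ‖ee β - r n * ee α‖ := by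
      intro α
      have e1 : ee β - r n * ee α = ee β * (1 - (r n : ℂ) * ee α * conj (ee β)) := by
        have := ee_mul_conj β
        linear_combination (r n : ℂ) * ee α * this
      rw [e1, norm_mul, norm_ee, one_mul]
    simp only [e] at h1
    rw [h1]
    simp only [zero_mul, sub_zero, norm_one, Real.log_one, mul_zero, div_one, zero_add]
    have e2 : (conj x1 * -conj (ee β)).re = -(x1 * ee β).re := by
      rw [mul_neg, ← map_mul, Complex.neg_re, Complex.conj_re]
    rw [e2]
    ring
  have lim1 : Tendsto (fun n => ∫ α in (0 : ℝ)..(2 * Real.pi),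
      Real.log ‖ee β - r n * ee α‖ * phi x0 x1 α) atTop
      (𝓝 (∫ α in (0 : ℝ)..(2 * Real.pi), Real.log ‖ee α - ee β‖ * phi x0 x1 α)) := by
    refine intervalIntegral.tendsto_integral_filter_of_dominated_convergence
      (fun α => (Real.log 2 + |Real.log ‖ee α - ee β‖|) * |phi x0 x1 α|) ?_ ?_ ?_ ?_
    · refine Eventually.of_forall fun n => ?_
      have c1 := ee_cont
      have c2 := phi_cont x0 x1
      have m1 : Measurable fun α : ℝ => ‖ee β - r n * ee α‖ :=
        (by fun_prop : Continuous fun α : ℝ => ‖ee β - r n * ee α‖).measurable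
      exact ((Real.measurable_log.comp m1).mul c2.measurable).aestronglyMeasurable
    · refine Eventually.of_forall fun n => ?_
      filter_upwards [null β] with α hα _
      rw [Real.norm_eq_abs, abs_mul]
      exact mul_le_mul_of_nonneg_right (log_bd (r0 n).le (r1 n).le hα) (abs_nonneg _)
    · have c2 := phi_cont x0 x1
      refine IntervalIntegrable.mul_continuousOn ?_ (by fun_prop)
      exact intervalIntegrable_const.add (integ β).abs
    · filter_upwards [null β] with α hα _
      refine Tendsto.mul_const _ ?_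
      have d0 : ‖ee β - ((1 : ℝ) : ℂ) * ee α‖ ≠ 0 := by
        rw [Complex.ofReal_one, one_mul]
        exact norm_ne_zero_iff.2 (sub_ne_zero.2 hα.symm)
      have e3 : ‖ee α - ee β‖ = ‖ee β - ((1 : ℝ) : ℂ) * ee α‖ := by
        rw [Complex.ofReal_one, one_mul, norm_sub_rev]
      rw [e3]
      refine (Real.continuousAt_log d0).tendsto.comp ?_
      have hc : Continuous fun t : ℝ => ‖ee β - (t : ℂ) * ee α‖ := by fun_prop
      exact (hc.tendsto 1).comp rt
  have lim2 : Tendsto (fun n => r n * (-(2 * Real.pi * (x1 * ee β).re))) atTop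
      (𝓝 (1 * (-(2 * Real.pi * (x1 * ee β).re)))) := rt.mul_const _
  simp only [val] at lim1
  have := tendsto_nhds_unique lim1 lim2
  rw [this, one_mul]

end Pool.Agent.PSB
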