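import Pool.Agent.PSB.Stmts

set_option autoImplicit false

namespace Pool.Agent.PSB

open Filter Topology

namespace LIM_

lemma epm_tend (M : ℝ) (hM : 1 < M) : Tendsto (fun m : ℕ => epm M m) atTop (𝓝 0) := by
  have h1 : Tendsto (fun m : ℕ => (1 : ℝ) / m) atTop (𝓝 0) := tendsto_one_div_atTop_nhds_zero_nat
  have hM0 : 0 < M := by linarith
  have h2 : Tendsto (fun x : ℝ => M ^ x) (𝓝 0) (𝓝 (M ^ (0 : ℝ))) :=
    (Real.hasStrictDerivAt_const_rpow hM0 0).hasDerivAt.continuousAt.tendsto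
  have h3 : Tendsto (fun m : ℕ => M ^ ((1 : ℝ) / m)) atTop (𝓝 (M ^ (0 : ℝ))) := h2.comp h1
  have h4 : Tendsto (fun m : ℕ => (M ^ ((1 : ℝ) / m) - 1) / 2) atTop (𝓝 ((M ^ (0 : ℝ) - 1) / 2)) :=
    (h3.sub_const 1).div_const 2
  rw [Real.rpow_zero] at h4
  simpa [epm] using h4

lemma t_tend (M : ℝ) (hM : 1 < M) :
    Tendsto (fun m : ℕ => 2 * epm M m * (m : ℝ)) atTop (𝓝 (Real.log M)) := by
  have hM0 : 0 < M := by linarith
  have hd : HasDerivAt (fun x : ℝ => M ^ x) (Real.log M) 0 := by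
    have := (Real.hasStrictDerivAt_const_rpow hM0 0).hasDerivAt
    rwa [Real.rpow_zero, one_mul] at this
  have hs := hd.tendsto_slope_zero
  have h1 : Tendsto (fun m : ℕ => (1 : ℝ) / m) atTop (𝓝[≠] 0) := by
    rw [tendsto_nhdsWithin_iff]
    refine ⟨tendsto_one_div_atTop_nhds_zero_nat, ?_⟩
    filter_upwards [eventually_gt_atTop 0] with m hm
    have : (0 : ℝ) < m := by exact_mod_cast hm
    have h2 : (0 : ℝ) < 1 / m := by positivity
    exact ne_of_gt h2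
  have h2 := hs.comp h1
  refine h2.congr' ?_
  filter_upwards [eventually_gt_atTop 0] with m hm
  have hm' : (0 : ℝ) < m := by exact_mod_cast hm
  simp only [Function.comp, smul_eq_mul, zero_add, Real.rpow_zero, epm]
  rw [one_div, inv_inv]
  ring

lemma rho_tend (M : ℝ) (hM : 1 < M) : Tendsto (fun m : ℕ => rho (epm M m)) atTop (𝓝 1) := by
  have h : ContinuousAt rho 0 := by
    unfold rho
    have h1 : ContinuousAt (fun x : ℝ => 2 * x / (1 + 2 * x)) 0 := by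
      apply ContinuousAt.div
      · fun_prop
      · fun_prop
      · norm_num
    exact continuousAt_const.sub (Real.continuous_sqrt.continuousAt.comp h1)
  have h2 : Tendsto (fun m : ℕ => rho (epm M m)) atTop (𝓝 (rho 0)) := h.tendsto.comp (epm_tend M hM)
  have h3 : rho 0 = 1 := by simp [rho]
  rwa [h3] at h2

lemma sc_tend (M : ℝ) (hM : 1 < M) : Tendsto (fun m : ℕ => sc (epm M m)) atTop (𝓝 1) := by
  have h : ContinuousAt sc 0 := by
    unfold sc
    apply ContinuousAt.div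
    · exact continuousAt_const
    · exact (Real.continuous_sqrt.comp (by fun_prop : Continuous fun x : ℝ => 1 + 2 * x)).continuousAt
    · norm_num
  have h2 : Tendsto (fun m : ℕ => sc (epm M m)) atTop (𝓝 (sc 0)) := h.tendsto.comp (epm_tend M hM)
  have h3 : sc 0 = 1 := by simp [sc]
  rwa [h3] at h2

lemma epm_pos (M : ℝ) (hM : 1 < M) (m : ℕ) (hm : 0 < m) : 0 < epm M m := by
  have h : 1 < M ^ ((1 : ℝ) / m) := by
    apply Real.one_lt_rpow hM
    have : (0 : ℝ) < m := by exact_mod_cast hm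
    positivity
  unfold epm
  linarith

lemma alg (e s r m σ c : ℝ) (he : 0 < e) (hs : s ^ 2 = 1 / (1 + 2 * e)) :
    2 * e * (1 + 2 * e) * r ^ 2 * ((1 + s ^ 2) * (2 * σ ^ 2 * m - c / (1 - s ^ 4)))
      = (2 * e * m) * (1 + 2 * e) * r ^ 2 * (1 + s ^ 2) * (2 * σ ^ 2)
        - c * r ^ 2 * (1 + 2 * e) ^ 2 := by
  have h1 : (0 : ℝ) < 1 + 2 * e := by linarith
  have h2 : 1 - s ^ 4 = (1 + s ^ 2) * (2 * e / (1 + 2 * e)) := by
    have : s ^ 4 = (s ^ 2) ^ 2 := by ring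
    rw [this, hs]
    field_simp
    ring
  have h3 : (0 : ℝ) < 1 + s ^ 2 := by positivity
  have h4 : c / (1 - s ^ 4) = c * (1 + 2 * e) / ((1 + s ^ 2) * (2 * e)) := by
    rw [h2]
    field_simp
  rw [h4]
  field_simp

end LIM_

open LIM_

theorem lim_proof : Stmt_LIM := by
  intro M σ hM _ _
  have ht := t_tend M hM
  have he := epm_tend M hM
  have hr := rho_tend M hM
  have hs := sc_tend M hM
  obtain ⟨t, ht_def⟩ : ∃ t : ℕ → ℝ, t = fun m : ℕ => 2 * epm M m * (m : ℝ) := ⟨_, rfl⟩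
  rw [← ht_def] at ht
  have hG : Tendsto (fun m : ℕ =>
      1 + t m * rho (epm M m) * (1 + sc (epm M m)) * σ
      + (t m * rho (epm M m) * (1 + sc (epm M m)) * σ) ^ 2
      - (t m * (1 - sc (epm M m))) ^ 2
      - (t m * (1 + 2 * epm M m) * rho (epm M m) ^ 2 * (1 + sc (epm M m) ^ 2) * (2 * σ ^ 2)
        - (1 - 1 / M ^ 2) * rho (epm M m) ^ 2 * (1 + 2 * epm M m) ^ 2))
      atTop
      (𝓝 (1 + Real.log M * 1 * (1 + 1) * σ + (Real.log M * 1 * (1 + 1) * σ) ^ 2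
        - (Real.log M * (1 - 1)) ^ 2
        - (Real.log M * (1 + 2 * 0) * 1 ^ 2 * (1 + 1 ^ 2) * (2 * σ ^ 2)
          - (1 - 1 / M ^ 2) * 1 ^ 2 * (1 + 2 * 0) ^ 2))) := by
    have hs1 := hs.const_add 1
    have hs2 := hs.const_sub 1
    have hs3 := (hs.pow 2).const_add 1
    have he1 := (he.const_mul 2).const_add 1
    have hX := ((ht.mul hr).mul hs1).mul_const σ
    have hZ := (((ht.mul he1).mul (hr.pow 2)).mul hs3).mul_const (2 * σ ^ 2)
    have hW := ((hr.pow 2).const_mul (1 - 1 / M ^ 2)).mul (he1.pow 2)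
    exact (((hX.const_add 1).add (hX.pow 2)).sub ((ht.mul hs2).pow 2)).sub (hZ.sub hW)
  have hval : 1 + Real.log M * 1 * (1 + 1) * σ + (Real.log M * 1 * (1 + 1) * σ) ^ 2
        - (Real.log M * (1 - 1)) ^ 2
        - (Real.log M * (1 + 2 * 0) * 1 ^ 2 * (1 + 1 ^ 2) * (2 * σ ^ 2)
          - (1 - 1 / M ^ 2) * 1 ^ 2 * (1 + 2 * 0) ^ 2)
      = 1 + 2 * σ * Real.log M + 4 * σ ^ 2 * Real.log M ^ 2 - 4 * σ ^ 2 * Real.log M
        + (1 - 1 / M ^ 2) := by ring
  rw [hval] at hG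
  refine hG.congr' ?_
  filter_upwards [eventually_gt_atTop 0] with m hm
  have hpos := epm_pos M hM m hm
  have hs2 : sc (epm M m) ^ 2 = 1 / (1 + 2 * epm M m) := by
    unfold sc
    rw [div_pow, one_pow, Real.sq_sqrt (by linarith)]
  rw [alg (epm M m) (sc (epm M m)) (rho (epm M m)) m σ (1 - 1 / M ^ 2) hpos hs2, ht_def]
  ring

end Pool.Agent.PSB
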