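import Pool.Agent.PSB.Stmts

set_option autoImplicit false

namespace Pool.Agent.PSB

open MeasureTheory Complex

lemma LIN_ee (θ : ℝ) : ee θ = circleMap 0 1 θ := by
  unfold ee circleMap
  simp

lemma LIN_norm (θ : ℝ) : ‖ee θ‖ = 1 := by
  unfold ee
  exact Complex.norm_exp_ofReal_mul_I θ

lemma LIN_shift (x y : ℝ) : ‖ee x - ee y‖ = ‖ee (x - y) - 1‖ := by
  have h : ee x - ee y = ee y * (ee (x - y) - 1) := by
    have h1 : ee x = ee y * ee (x - y) := by
      unfold ee
      rw [← Complex.exp_add]
      congr 1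
      push_cast
      ring
    rw [mul_sub, ← h1, mul_one]
  rw [h, norm_mul, LIN_norm, one_mul]

lemma LIN_cont : Continuous ee := by
  unfold ee
  fun_prop

lemma LIN_per : Function.Periodic (fun x : ℝ => |Real.log ‖ee x - 1‖|) (2 * Real.pi) := by
  intro x
  have h : ee (x + 2 * Real.pi) = ee x := by
    rw [LIN_ee, LIN_ee]
    exact periodic_circleMap 0 1 x
  simp only [h]

theorem lin_proof : Stmt_LIN := by
  unfold Stmt_LIN
  have hm : AEStronglyMeasurable (fun p : ℝ × ℝ => Real.log ‖ee p.1 - ee p.2‖) (nu.prod nu) := by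
    have h1 : Measurable (fun p : ℝ × ℝ => Real.log ‖ee p.1 - ee p.2‖) := by
      refine Real.measurable_log.comp ?_
      exact ((LIN_cont.comp continuous_fst).sub (LIN_cont.comp continuous_snd)).norm.measurable
    exact h1.aestronglyMeasurable
  have hs : SFinite nu := by
    unfold nu
    infer_instance
  rw [integrable_prod_iff' hm]
  have hpi : (0 : ℝ) ≤ 2 * Real.pi := by positivity
  constructor
  · refine Filter.Eventually.of_forall (fun y => ?_)
    have h := circleIntegrable_log_norm_sub_const (a := ee y) (c := 0) 1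
    unfold CircleIntegrable at h
    rw [intervalIntegrable_iff_integrableOn_Ioc_of_le hpi] at h
    unfold nu
    have h2 : (fun x : ℝ => Real.log ‖ee x - ee y‖) =
        fun θ : ℝ => Real.log ‖circleMap 0 1 θ - ee y‖ := by
      funext θ
      rw [LIN_ee θ]
    show Integrable (fun x : ℝ => Real.log ‖ee x - ee y‖) _
    rw [h2]
    exact h
  · have h3 : ∀ y : ℝ, ∫ x, ‖Real.log ‖ee x - ee y‖‖ ∂nu =
        ∫ x in (0 : ℝ)..(2 * Real.pi), |Real.log ‖ee x - 1‖| := by
      intro y
      have h4 : ∫ x, ‖Real.log ‖ee x - ee y‖‖ ∂nu =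
          ∫ x in (0 : ℝ)..(2 * Real.pi), |Real.log ‖ee (x - y) - 1‖| := by
        rw [intervalIntegral.integral_of_le hpi]
        unfold nu
        refine integral_congr_ae (Filter.Eventually.of_forall (fun x => ?_))
        show ‖Real.log ‖ee x - ee y‖‖ = |Real.log ‖ee (x - y) - 1‖|
        rw [LIN_shift, Real.norm_eq_abs]
      rw [h4]
      have h5 := intervalIntegral.integral_comp_sub_right (a := 0) (b := 2 * Real.pi)
        (fun x : ℝ => |Real.log ‖ee x - 1‖|) y
      rw [h5]
      have h6 := LIN_per.intervalIntegral_add_eq (0 - y) 0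
      rw [zero_add] at h6
      rw [← h6]
      congr 1
      ring
    show Integrable (fun y : ℝ => ∫ x, ‖Real.log ‖ee x - ee y‖‖ ∂nu) nu
    simp_rw [h3]
    unfold nu
    refine integrableOn_const ?_
    rw [Real.volume_Ioc]
    exact ENNReal.ofReal_ne_top

end Pool.Agent.PSB
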