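import Pool.Agent.PSB.Stmts
import Pool.Agent.StarN.InjDeriv

/-!
PSB, module LOW: an injective holomorphic function is bi-Lipschitz from below on compact subsets.
-/

set_option autoImplicit false

namespace Pool.Agent.PSB

open Metric Set Filter Topology

namespace LOW_

/-- the lower bound on a set of pairs -/
def Lb (F : ℂ → ℂ) (T : Set (ℂ × ℂ)) : Prop :=
  ∃ c : ℝ, 0 < c ∧ ∀ p ∈ T, c * ‖p.1 - p.2‖ ≤ ‖F p.1 - F p.2‖

theorem near_diag {F : ℂ → ℂ} (hF : DifferentiableOn ℂ F (ball 0 1))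
    (hi : InjOn F (ball 0 1)) {z : ℂ} (hz : z ∈ ball (0 : ℂ) 1) :
    ∃ t ∈ 𝓝 ((z, z) : ℂ × ℂ), Lb F t := by
  have han : AnalyticAt ℂ F z := hF.analyticAt (isOpen_ball.mem_nhds hz)
  have hne : deriv F z ≠ 0 :=
    StarN.deriv_ne_zero_of_injOn (isOpen_ball.mem_nhds hz) han hi
  have hst : HasStrictDerivAt F (deriv F z) z := han.hasStrictDerivAt
  have hpos : 0 < ‖deriv F z‖ / 2 := by positivity
  have h1 := hst.hasStrictFDerivAt.isLittleO.def hpos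
  refine ⟨_, h1, ‖deriv F z‖ / 2, hpos, ?_⟩
  intro p hp
  have hp' : ‖F p.1 - F p.2 - (p.1 - p.2) * deriv F z‖ ≤ ‖deriv F z‖ / 2 * ‖p.1 - p.2‖ := by
    simpa using hp
  have h2 : ‖(p.1 - p.2) * deriv F z‖ ≤
      ‖F p.1 - F p.2‖ + ‖F p.1 - F p.2 - (p.1 - p.2) * deriv F z‖ := by
    have h3 := norm_sub_le (F p.1 - F p.2) (F p.1 - F p.2 - (p.1 - p.2) * deriv F z)
    have h4 : F p.1 - F p.2 - (F p.1 - F p.2 - (p.1 - p.2) * deriv F z) =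
        (p.1 - p.2) * deriv F z := by ring
    rwa [h4] at h3
  rw [norm_mul] at h2
  linarith

theorem off_diag {F : ℂ → ℂ} (hF : DifferentiableOn ℂ F (ball 0 1))
    (hi : InjOn F (ball 0 1)) {z ζ : ℂ} (hz : z ∈ ball (0 : ℂ) 1) (hζ : ζ ∈ ball (0 : ℂ) 1)
    (hne : z ≠ ζ) : ∃ t ∈ 𝓝 ((z, ζ) : ℂ × ℂ), Lb F t := by
  have hd : 0 < ‖F z - F ζ‖ := norm_pos_iff.mpr (sub_ne_zero.mpr (fun h => hne (hi hz hζ h)))
  have h1 : ContinuousAt F z := (hF.differentiableAt (isOpen_ball.mem_nhds hz)).continuousAt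
  have h2 : ContinuousAt F ζ := (hF.differentiableAt (isOpen_ball.mem_nhds hζ)).continuousAt
  have h3 : ContinuousAt (fun p : ℂ × ℂ => ‖F p.1 - F p.2‖) (z, ζ) :=
    ((ContinuousAt.comp (f := Prod.fst) (g := F) h1 continuousAt_fst).sub
      (ContinuousAt.comp (f := Prod.snd) (g := F) h2 continuousAt_snd)).norm
  have h4 : ∀ᶠ p : ℂ × ℂ in 𝓝 (z, ζ), ‖F z - F ζ‖ / 2 < ‖F p.1 - F p.2‖ :=
    h3.eventually_const_lt (by simpa using half_lt_self hd)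
  have h5 : ContinuousAt (fun p : ℂ × ℂ => ‖p.1 - p.2‖) (z, ζ) := by fun_prop
  have h6 : ∀ᶠ p : ℂ × ℂ in 𝓝 (z, ζ), ‖p.1 - p.2‖ < 2 * ‖z - ζ‖ := by
    refine h5.eventually_lt_const ?_
    have : 0 < ‖z - ζ‖ := norm_pos_iff.mpr (sub_ne_zero.mpr hne)
    simp only
    linarith
  have hzz : 0 < ‖z - ζ‖ := norm_pos_iff.mpr (sub_ne_zero.mpr hne)
  refine ⟨_, h4.and h6, ‖F z - F ζ‖ / 2 / (2 * ‖z - ζ‖), by positivity, ?_⟩
  rintro p ⟨hp1, hp2⟩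
  have h7 : ‖F z - F ζ‖ / 2 / (2 * ‖z - ζ‖) * ‖p.1 - p.2‖ ≤
      ‖F z - F ζ‖ / 2 / (2 * ‖z - ζ‖) * (2 * ‖z - ζ‖) :=
    mul_le_mul_of_nonneg_left hp2.le (by positivity)
  have h8 : ‖F z - F ζ‖ / 2 / (2 * ‖z - ζ‖) * (2 * ‖z - ζ‖) = ‖F z - F ζ‖ / 2 := by
    field_simp
  exact h7.trans (h8.le.trans hp1.le)

end LOW_

open LOW_ in
theorem low_proof : Stmt_LOW := by
  intro F hF hi r hr0 hr1
  have hK : IsCompact (closedBall (0 : ℂ) r ×ˢ closedBall (0 : ℂ) r) :=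
    (isCompact_closedBall 0 r).prod (isCompact_closedBall 0 r)
  have hsub : closedBall (0 : ℂ) r ⊆ ball (0 : ℂ) 1 := closedBall_subset_ball hr1
  have h : Lb F (closedBall (0 : ℂ) r ×ˢ closedBall (0 : ℂ) r) := by
    refine hK.induction_on (p := Lb F) ?_ ?_ ?_ ?_
    · exact ⟨1, one_pos, fun p hp => absurd hp (notMem_empty p)⟩
    · rintro s t hst ⟨c, hc, h⟩
      exact ⟨c, hc, fun p hp => h p (hst hp)⟩
    · rintro s t ⟨c, hc, h⟩ ⟨d, hd, h'⟩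
      refine ⟨min c d, lt_min hc hd, ?_⟩
      rintro p (hp | hp)
      · exact (mul_le_mul_of_nonneg_right (min_le_left _ _) (norm_nonneg _)).trans (h p hp)
      · exact (mul_le_mul_of_nonneg_right (min_le_right _ _) (norm_nonneg _)).trans (h' p hp)
    · rintro ⟨z, ζ⟩ ⟨hz, hζ⟩
      by_cases hzζ : z = ζ
      · subst hzζ
        obtain ⟨t, ht, hl⟩ := near_diag hF hi (hsub hz)
        exact ⟨t, mem_nhdsWithin_of_mem_nhds ht, hl⟩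
      · obtain ⟨t, ht, hl⟩ := off_diag hF hi (hsub hz) (hsub hζ) hzζ
        exact ⟨t, mem_nhdsWithin_of_mem_nhds ht, hl⟩
  obtain ⟨c, hc, h'⟩ := h
  exact ⟨c, hc, fun z hz ζ hζ => h' (z, ζ) ⟨hz, hζ⟩⟩

end Pool.Agent.PSB
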