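import Pool.Agent.PSB.Stmts

/-!
# MV: mean values of the logarithm of the modulus of a zero-free function
-/

set_option autoImplicit false

namespace Pool.Agent.PSB

open MeasureTheory Complex Metric
open scoped ComplexConjugate

namespace MV_

/-- a holomorphic logarithm on the unit disc -/
lemma exists_log (g : ℂ → ℂ) (hg : DifferentiableOn ℂ g (ball 0 1))
    (h0 : ∀ z ∈ ball (0 : ℂ) 1, g z ≠ 0) :
    ∃ L : ℂ → ℂ, (∀ z ∈ ball (0 : ℂ) 1, HasDerivAt L (deriv g z / g z) z) ∧
      ∀ z ∈ ball (0 : ℂ) 1, Complex.exp (L z) = g z := by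
  have hd : DifferentiableOn ℂ (fun z => deriv g z / g z) (ball 0 1) :=
    (hg.deriv isOpen_ball).div hg h0
  obtain ⟨L, hL, hL0⟩ := hd.isExactOn_ball.with_val_at 0 (Complex.log (g 0))
  refine ⟨L, hL0, ?_⟩
  have hmem : (0 : ℂ) ∈ ball (0 : ℂ) 1 := by simp
  -- the quotient is constant
  have hq : ∀ z ∈ ball (0 : ℂ) 1, HasDerivAt (fun z => g z * Complex.exp (-L z)) 0 z := by
    intro z hz
    have h1 : HasDerivAt g (deriv g z) z := (hg.differentiableAt (isOpen_ball.mem_nhds hz)).hasDerivAt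
    have h2 := h1.mul ((hL0 z hz).neg.cexp)
    refine h2.congr_deriv ?_
    have := h0 z hz
    field_simp
    ring
  have hconst : ∀ z ∈ ball (0 : ℂ) 1, g z * Complex.exp (-L z) = g 0 * Complex.exp (-L 0) := by
    intro z hz
    refine (convex_ball (0 : ℂ) 1).is_const_of_fderivWithin_eq_zero (𝕜 := ℂ)
      (f := fun z => g z * Complex.exp (-L z))
      (fun w hw => (hq w hw).differentiableAt.differentiableWithinAt) ?_ hz hmem
    intro w hw
    rw [fderivWithin_of_isOpen isOpen_ball hw]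
    ext
    have := (hq w hw).hasFDerivAt.fderiv
    rw [this]
    simp
  intro z hz
  have h1 := hconst z hz
  rw [hL, Complex.exp_neg, Complex.exp_neg, Complex.exp_log (h0 0 hmem),
    mul_inv_cancel₀ (h0 0 hmem), ← div_eq_mul_inv, div_eq_one_iff_eq (Complex.exp_ne_zero _)] at h1
  exact h1.symm

end MV_

theorem mv_proof (h1 : Stmt_MVA) : Stmt_MV := by
  intro g hg h0 r hr0 hr1 x0 x1
  obtain ⟨L, hL, hexp⟩ := MV_.exists_log g hg h0
  have hmem : (0 : ℂ) ∈ ball (0 : ℂ) 1 := by simp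
  have hnorm : ∀ z ∈ ball (0 : ℂ) 1, Real.log ‖g z‖ = (L z).re := by
    intro z hz
    rw [← hexp z hz, Complex.norm_exp, Real.log_exp]
  have h := h1 L (fun z hz => (hL z hz).differentiableAt.differentiableWithinAt) r hr0 hr1 x0 x1
  rw [(hL 0 hmem).deriv, ← hnorm 0 hmem] at h
  rw [← h]
  refine intervalIntegral.integral_congr (fun θ _ => ?_)
  have hz : (r : ℂ) * ee θ ∈ ball (0 : ℂ) 1 := by
    rw [mem_ball_zero_iff, norm_mul, Complex.norm_real, Real.norm_eq_abs, abs_of_pos hr0]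
    have : ‖ee θ‖ = 1 := by
      unfold ee
      exact Complex.norm_exp_ofReal_mul_I θ
    rw [this, mul_one]
    exact hr1
  simp only [hnorm _ hz]

end Pool.Agent.PSB
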