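import Pool.Agent.PSB.Stmts

set_option autoImplicit false

namespace Pool.Agent.PSB

open MeasureTheory Complex Metric
open scoped ComplexConjugate

theorem mva_proof : Stmt_MVA := by
  intro h hh r hr0 hr1 x0 x1
  have hrc : (r : ℂ) ≠ 0 := by exact_mod_cast hr0.ne'
  have hnb : ball (0 : ℂ) 1 ∈ nhds (0 : ℂ) := ball_mem_nhds _ one_pos
  have hds : DifferentiableOn ℂ (dslope h 0) (ball 0 1) :=
    (Complex.differentiableOn_dslope hnb).mpr hh
  set B : ℂ → ℂ := fun z => h z * x0 + h z * x1 * (z / r) + conj x1 * r * dslope h 0 z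
    + x1 * conj (h 0) * (z / r) with hB
  have hBd : DifferentiableOn ℂ B (ball 0 1) := by
    have hid : DifferentiableOn ℂ (fun z : ℂ => z / (r : ℂ)) (ball 0 1) :=
      (differentiable_id.div_const _).differentiableOn
    exact (((hh.mul_const _).add ((hh.mul_const _).mul hid)).add (hds.const_mul _)).add
      (hid.const_mul _)
  have hBc : DiffContOnCl ℂ B (ball 0 |r|) := by
    apply DifferentiableOn.diffContOnCl
    apply hBd.mono
    rw [abs_of_pos hr0, closure_ball _ hr0.ne']
    exact closedBall_subset_ball hr1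
  have hav := hBc.circleAverage
  have hB0 : B 0 = h 0 * x0 + conj x1 * r * deriv h 0 := by
    simp [hB, dslope_same]
  have hBcont : ContinuousOn B (sphere 0 |r|) := by
    apply hBd.continuousOn.mono
    rw [abs_of_pos hr0]
    exact sphere_subset_ball hr1
  have hCI : CircleIntegrable B 0 r := hBcont.circleIntegrable'
  have hre := Complex.reCLM.circleAverage_comp_comm hCI
  rw [hav, hB0] at hre
  unfold Real.circleAverage at hre
  rw [smul_eq_mul, inv_mul_eq_iff_eq_mul₀ (by positivity)] at hre
  have hpt : ∀ θ : ℝ, (h (r * ee θ)).re * phi x0 x1 θ = (Complex.reCLM ∘ B) (circleMap 0 r θ) := by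
    intro θ
    have hz : circleMap 0 r θ = r * ee θ := by simp [circleMap, ee]
    have hee : ee θ ≠ 0 := Complex.exp_ne_zero _
    have hcc : conj (ee θ) * ee θ = 1 := by
      rw [← Complex.normSq_eq_conj_mul_self, Complex.normSq_eq_norm_sq]
      simp [ee, Complex.norm_exp_ofReal_mul_I]
    rw [hz]
    have hzne : (r : ℂ) * ee θ ≠ 0 := mul_ne_zero hrc hee
    have hdv : r * dslope h 0 (r * ee θ) = (h (r * ee θ) - h 0) * conj (ee θ) := by
      rw [dslope_of_ne _ hzne, slope_def_field]
      field_simp
      linear_combination (-((r : ℂ) * (h (r * ee θ) - h 0))) * hcc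
    have h2 : B (r * ee θ) = h (r * ee θ) * (x0 + (x1 * ee θ + conj (x1 * ee θ)))
        + (x1 * conj (h 0) * ee θ - conj (x1 * conj (h 0) * ee θ)) := by
      simp only [hB, map_mul, Complex.conj_conj]
      rw [mul_assoc (conj x1), hdv]
      field_simp
      ring
    rw [Function.comp_apply, h2, Complex.add_conj, Complex.sub_conj]
    have h3 : (x0 : ℂ) + ((2 * (x1 * ee θ).re : ℝ) : ℂ) = ((phi x0 x1 θ : ℝ) : ℂ) := by
      unfold phi; push_cast; ring
    rw [h3]
    simp
  rw [intervalIntegral.integral_congr (fun θ _ => hpt θ), hre]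
  simp only [Complex.reCLM_apply, Complex.add_re]
  have h4 : (h 0 * (x0 : ℂ)).re = x0 * (h 0).re := by simp; ring
  have h5 : (conj x1 * r * deriv h 0).re = r * (conj x1 * deriv h 0).re := by
    have : conj x1 * r * deriv h 0 = (r : ℂ) * (conj x1 * deriv h 0) := by ring
    rw [this, Complex.re_ofReal_mul]
  rw [h4, h5]

end Pool.Agent.PSB
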