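import Pool.Agent.PSB.Stmts

/-!
PSB, module NEH: the inequality of Nehari for the second and third coefficient.
-/

set_option autoImplicit false

namespace Pool.Agent.PSB

open MeasureTheory Complex Metric Filter Topology

open scoped ComplexConjugate

namespace NEH_

/-- Schwarz: the bound is `M ‖z‖`. -/
theorem schwarz (M : ℝ) (f : ℂ → ℂ) (hf : InS M f) (z : ℂ) (hz : z ∈ ball (0 : ℂ) 1) :
    ‖f z‖ ≤ M * ‖z‖ := by
  have key : ∀ δ : ℝ, 0 < δ → ‖f z‖ ≤ (M + δ) * ‖z‖ := by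
    intro δ hδ
    have hmaps : Set.MapsTo f (ball (0 : ℂ) 1) (closedBall (f 0) (M + δ)) := by
      intro w hw
      rw [hf.zero, mem_closedBall_zero_iff]
      have := hf.bdd w hw
      linarith
    have h := dist_le_div_mul_dist_of_mapsTo_ball hf.diff hmaps hz
    rw [hf.zero, dist_zero_right, dist_zero_right, div_one] at h
    exact h
  have hlim : Tendsto (fun δ : ℝ => (M + δ) * ‖z‖) (𝓝[>] 0) (𝓝 ((M + 0) * ‖z‖)) := by
    apply Tendsto.mono_left _ nhdsWithin_le_nhds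
    exact ((continuous_const.add continuous_id).mul continuous_const).tendsto 0
  rw [add_zero] at hlim
  refine ge_of_tendsto hlim ?_
  filter_upwards [self_mem_nhdsWithin] with δ hδ
  exact key δ hδ

theorem selfU (M : ℝ) (hM : 1 < M) (f : ℂ → ℂ) (hf : InS M f) :
    SelfU (fun z => f z / (M : ℂ)) := by
  have hM0 : (0 : ℝ) < M := by linarith
  have hMc : (M : ℂ) ≠ 0 := by exact_mod_cast hM0.ne'
  refine ⟨hf.diff.div_const _, ?_, ?_, ?_⟩
  · intro z hz w hw h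
    apply hf.inj hz hw
    have h' : f z / (M : ℂ) = f w / (M : ℂ) := h
    exact (div_left_inj' hMc).1 h'
  · simp [hf.zero]
  · intro z hz
    have h1 := schwarz M f hf z hz
    have h2 : ‖z‖ < 1 := by simpa using hz
    have h3 : ‖f z / (M : ℂ)‖ = ‖f z‖ / M := by
      rw [norm_div, Complex.norm_real, Real.norm_eq_abs, abs_of_pos hM0]
    rw [h3, div_lt_one hM0]
    calc ‖f z‖ ≤ M * ‖z‖ := h1
      _ < M * 1 := by
        exact mul_lt_mul_of_pos_left h2 hM0
      _ = M := mul_one M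

end NEH_

open NEH_ in
theorem neh_proof (h1 : Stmt_ENG) : Stmt_NEH := by
  intro M f hM hf ω σ hω
  have hM0 : (0 : ℝ) < M := by linarith
  have hMc : (M : ℂ) ≠ 0 := by exact_mod_cast hM0.ne'
  have hF := selfU M hM f hf
  have hd : deriv (fun z => f z / (M : ℂ)) 0 = 1 / (M : ℂ) := by
    rw [deriv_div_const, hf.one]
  have hc : ∀ k : ℕ, coeff (fun z => f z / (M : ℂ)) k = 1 / (M : ℂ) * coeff f k := by
    intro k
    unfold coeff
    rw [iteratedDeriv_div_const]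
    ring
  have hb0 : (1 / (M : ℂ)) ≠ 0 := by
    exact one_div_ne_zero hMc
  have hbn : ‖(1 / (M : ℂ))‖ = 1 / M := by
    rw [norm_div, norm_one, Complex.norm_real, Real.norm_eq_abs, abs_of_pos hM0]
  have hcn : ‖conj ω‖ = 1 := by
    rw [RCLike.norm_conj, hω]
  have hlog : Real.log (1 / M) = -Real.log M := by
    rw [one_div, Real.log_inv]
  have key : ∀ r : ℝ, 0 < r → r < 1 →
      0 ≤ -(r ^ 2 * (1 / M) ^ 2) + (2 * σ) ^ 2 * Real.log M
        - 2 * r * (2 * σ) * (ω * coeff f 2).re - r ^ 2 * (ω ^ 2 * (coeff f 3 - coeff f 2 ^ 2)).re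
        - (2 * σ) ^ 2 * Real.log r + 1 := by
    intro r hr0 hr1
    have h := h1 (fun z => f z / (M : ℂ)) hF (1 / (M : ℂ)) (coeff f 2) (coeff f 3) hd hb0
      (hc 2) (hc 3) r hr0 hr1 (2 * σ) (conj ω)
    rw [hbn, hcn, hlog, Complex.conj_conj] at h
    linarith
  have hlim : Tendsto (fun r : ℝ => -(r ^ 2 * (1 / M) ^ 2) + (2 * σ) ^ 2 * Real.log M
        - 2 * r * (2 * σ) * (ω * coeff f 2).re - r ^ 2 * (ω ^ 2 * (coeff f 3 - coeff f 2 ^ 2)).re
        - (2 * σ) ^ 2 * Real.log r + 1) (𝓝[<] 1)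
      (𝓝 (-((1 : ℝ) ^ 2 * (1 / M) ^ 2) + (2 * σ) ^ 2 * Real.log M
        - 2 * 1 * (2 * σ) * (ω * coeff f 2).re - 1 ^ 2 * (ω ^ 2 * (coeff f 3 - coeff f 2 ^ 2)).re
        - (2 * σ) ^ 2 * Real.log 1 + 1)) := by
    have hcont : ContinuousAt (fun r : ℝ => -(r ^ 2 * (1 / M) ^ 2) + (2 * σ) ^ 2 * Real.log M
        - 2 * r * (2 * σ) * (ω * coeff f 2).re - r ^ 2 * (ω ^ 2 * (coeff f 3 - coeff f 2 ^ 2)).re
        - (2 * σ) ^ 2 * Real.log r + 1) 1 := by
      have hl : ContinuousAt (fun r : ℝ => Real.log r) 1 :=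
        Real.continuousAt_log one_ne_zero
      fun_prop (disch := norm_num)
    exact hcont.tendsto.mono_left nhdsWithin_le_nhds
  have hfin := ge_of_tendsto hlim (b := 0) (by
    have hmem : Set.Ioo (0 : ℝ) 1 ∈ 𝓝[<] (1 : ℝ) := Ioo_mem_nhdsLT (by norm_num)
    filter_upwards [hmem] with r hr
    exact key r hr.1 hr.2)
  rw [Real.log_one] at hfin
  have e1 : (1 / M) ^ 2 = 1 / M ^ 2 := by rw [div_pow, one_pow]
  rw [e1] at hfin
  linarith

end Pool.Agent.PSB
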