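import Pool.Agent.PSB.Stmts

set_option autoImplicit false

namespace Pool.Agent.PSB

open Complex Metric MeasureTheory

open scoped ComplexConjugate

namespace OUT_

theorem coeff_zero (f : ℂ → ℂ) : coeff f 0 = f 0 := by
  simp [coeff]

theorem coeff_one (f : ℂ → ℂ) : coeff f 1 = deriv f 0 := by
  simp [coeff, iteratedDeriv_one]

theorem coeff_dslope (f : ℂ → ℂ) (hf : DifferentiableOn ℂ f (ball 0 1)) (n : ℕ) :
    coeff (dslope f 0) n = coeff f (n + 1) := by
  have hb : ball (0 : ℂ) 1 ∈ nhds (0 : ℂ) := ball_mem_nhds 0 one_pos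
  have hfa : AnalyticAt ℂ f 0 := hf.analyticAt hb
  have hg : DifferentiableOn ℂ (dslope f 0) (ball 0 1) :=
    (Complex.differentiableOn_dslope hb).2 hf
  have hga : AnalyticAt ℂ (dslope f 0) 0 := hg.analyticAt hb
  have h1 := HasFPowerSeriesAt.has_fpower_series_dslope_fslope hfa.hasFPowerSeriesAt
  have h2 := hga.hasFPowerSeriesAt
  have h3 := h1.eq_formalMultilinearSeries h2
  have h4 := congrArg (fun p => FormalMultilinearSeries.coeff p n) h3
  simp only [FormalMultilinearSeries.coeff_fslope, FormalMultilinearSeries.coeff_ofScalars] at h4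
  unfold coeff
  exact h4.symm

theorem ee_norm (θ : ℝ) : ‖ee θ‖ = 1 := by
  unfold ee
  exact Complex.norm_exp_ofReal_mul_I θ

theorem ee_cont : Continuous ee := by
  unfold ee
  fun_prop

theorem phi_cont (x0 : ℝ) (x1 : ℂ) : Continuous (phi x0 x1) := by
  unfold phi
  have := ee_cont
  have h2 : Continuous fun θ : ℝ => (x1 * ee θ).re :=
    Complex.continuous_re.comp (continuous_const.mul this)
  exact continuous_const.add (continuous_const.mul h2)

end OUT_

open OUT_ in
theorem out_proof (h1 : Stmt_MVA) (h2 : Stmt_MV) (h3 : Stmt_DSL) : Stmt_OUT := by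
  intro F hF b a2 a3 hb hb0 hc2 hc3 r hr hr1 x0 x1
  have hbn : ball (0 : ℂ) 1 ∈ nhds (0 : ℂ) := ball_mem_nhds 0 one_pos
  have h0m : (0 : ℂ) ∈ ball (0 : ℂ) 1 := mem_ball_self one_pos
  have hrc : (r : ℂ) ≠ 0 := by exact_mod_cast hr.ne'
  obtain ⟨hgd, hgn, -⟩ := h3 F hF.diff hF.inj hF.zero 0 h0m
  set g : ℂ → ℂ := dslope F 0 with hgdef
  have hFg : ∀ z : ℂ, z ≠ 0 → F z = z * g z := by
    intro z hz
    rw [hgdef, dslope_of_ne _ hz, slope_def_field, hF.zero]
    field_simp
    simp [mul_comm]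
  have hg0 : g 0 = b := by rw [hgdef, dslope_same, hb]
  have hkd : DifferentiableOn ℂ (dslope g 0) (ball 0 1) :=
    (Complex.differentiableOn_dslope hbn).2 hgd
  have hk0 : dslope g 0 0 = b * a2 := by
    rw [dslope_same, ← coeff_one, hgdef, coeff_dslope F hF.diff, hc2]
  have hg1 : deriv g 0 = b * a2 := by
    rw [← coeff_one, hgdef, coeff_dslope F hF.diff, hc2]
  have hk1 : deriv (dslope g 0) 0 = b * a3 := by
    rw [← coeff_one, coeff_dslope g hgd, hgdef, coeff_dslope F hF.diff, hc3]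
  set k : ℂ → ℂ := dslope g 0 with hkdef
  have hgk : ∀ z : ℂ, z ≠ 0 → g z = b + z * k z := by
    intro z hz
    rw [hkdef, dslope_of_ne _ hz, slope_def_field, hg0]
    field_simp
    ring
  let H : ℂ → ℂ := fun z => -(r : ℂ) * x1 * conj b * F z - (r : ℂ) * conj x1 * (k z / g z)
    - (x0 : ℂ) * (Real.log r : ℂ) + x1 / (r : ℂ) * z
  have hHd : DifferentiableOn ℂ H (ball 0 1) := by
    have e1 := hF.diff
    have e2 : DifferentiableOn ℂ (fun z => k z / g z) (ball 0 1) := hkd.div hgd hgn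
    exact (((e1.const_mul _).sub (e2.const_mul _)).sub (differentiableOn_const _)).add
      (differentiableOn_id.const_mul _)
  have hH0 : H 0 = -(r : ℂ) * conj x1 * a2 - (x0 : ℂ) * (Real.log r : ℂ) := by
    simp only [H, hF.zero, hk0, hg0]
    field_simp
    ring
  have hH1 : deriv H 0 = -(r : ℂ) * x1 * conj b * b - (r : ℂ) * conj x1 * (a3 - a2 ^ 2)
      + x1 / (r : ℂ) := by
    have dF : HasDerivAt F b 0 := by
      rw [← hb]
      exact (hF.diff.differentiableAt hbn).hasDerivAt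
    have dg : HasDerivAt g (b * a2) 0 := by
      rw [← hg1]
      exact (hgd.differentiableAt hbn).hasDerivAt
    have dk : HasDerivAt k (b * a3) 0 := by
      rw [← hk1]
      exact (hkd.differentiableAt hbn).hasDerivAt
    have dq := dk.div dg (hgn 0 h0m)
    have dH : HasDerivAt H (-(r : ℂ) * x1 * conj b * b - (r : ℂ) * conj x1 *
        ((b * a3 * g 0 - k 0 * (b * a2)) / g 0 ^ 2) + x1 / (r : ℂ) * 1) 0 :=
      (((dF.const_mul _).sub (dq.const_mul _)).sub_const _).add
        ((hasDerivAt_id (0 : ℂ)).const_mul _)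
    rw [dH.deriv, hg0, hk0]
    field_simp
  have hz : ∀ β : ℝ, (r : ℂ) * ee β ∈ ball (0 : ℂ) 1 := by
    intro β
    rw [mem_ball_zero_iff, norm_mul, ee_norm, Complex.norm_real, Real.norm_eq_abs, abs_of_pos hr]
    linarith
  have hz0 : ∀ β : ℝ, (r : ℂ) * ee β ≠ 0 := by
    intro β
    refine mul_ne_zero hrc ?_
    intro h
    have := ee_norm β
    rw [h, norm_zero] at this
    exact zero_ne_one this
  have hzc : Continuous fun β : ℝ => (r : ℂ) * ee β := continuous_const.mul ee_cont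
  have hint : ∀ β : ℝ, (r * (conj x1 * (-deriv F 0 * conj (F (r * ee β)))).re
        - x0 * Real.log ‖F (r * ee β) / (r * ee β)‖
        - r * (conj x1 * (1 / (r * ee β) - deriv F 0 / F (r * ee β))).re
        - x0 * Real.log r + (x1 * ee β).re) * phi x0 x1 β =
      (H (r * ee β)).re * phi x0 x1 β - x0 * (Real.log ‖g (r * ee β)‖ * phi x0 x1 β) := by
    intro β
    have e1 : F (r * ee β) / (r * ee β) = g (r * ee β) := by
      rw [hFg _ (hz0 β), mul_div_cancel_left₀ _ (hz0 β)]
    have e2 : 1 / (r * ee β) - deriv F 0 / F (r * ee β) = k (r * ee β) / g (r * ee β) := by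
      have n1 := hz0 β
      have n2 := hgn _ (hz β)
      have n3 := hgk _ (hz0 β)
      rw [hFg _ (hz0 β), hb]
      set ζ : ℂ := (r : ℂ) * ee β
      rw [div_sub_div _ _ n1 (mul_ne_zero n1 n2), div_eq_div_iff (mul_ne_zero n1 (mul_ne_zero n1 n2)) n2]
      have : g ζ - b = ζ * k ζ := by rw [n3]; ring
      linear_combination ζ * g ζ * this
    rw [e1, e2, hb]
    have e3 : (r : ℝ) * (conj x1 * (-b * conj (F (r * ee β)))).re =
        (-(r : ℂ) * x1 * conj b * F (r * ee β)).re := by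
      have : -(r : ℂ) * x1 * conj b * F (r * ee β) =
          conj ((r : ℂ) * (conj x1 * (-b * conj (F (r * ee β))))) := by
        simp only [map_mul, map_neg, Complex.conj_conj, Complex.conj_ofReal]
        ring
      rw [this, Complex.conj_re, Complex.re_ofReal_mul]
    have e4 : (r : ℝ) * (conj x1 * (k (r * ee β) / g (r * ee β))).re =
        ((r : ℂ) * conj x1 * (k (r * ee β) / g (r * ee β))).re := by
      rw [mul_assoc, Complex.re_ofReal_mul]
    have e5 : (x1 * ee β).re = (x1 / (r : ℂ) * (r * ee β)).re := by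
      congr 1
      field_simp
    have e6 : x0 * Real.log r = ((x0 : ℂ) * (Real.log r : ℂ)).re := by
      rw [← Complex.ofReal_mul, Complex.ofReal_re]
    rw [e3, e4, e5, e6]
    simp only [H, Complex.add_re, Complex.sub_re]
    ring
  have hcH : Continuous fun β : ℝ => (H (r * ee β)).re * phi x0 x1 β := by
    refine (Complex.continuous_re.comp ?_).mul (phi_cont x0 x1)
    exact hHd.continuousOn.comp_continuous hzc hz
  have hcg : Continuous fun β : ℝ => Real.log ‖g (r * ee β)‖ * phi x0 x1 β := by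
    refine Continuous.mul ?_ (phi_cont x0 x1)
    refine Continuous.log ?_ ?_
    · exact (hgd.continuousOn.comp_continuous hzc hz).norm
    · intro β
      exact norm_ne_zero_iff.2 (hgn _ (hz β))
  rw [intervalIntegral.integral_congr (g := fun β : ℝ => (H (r * ee β)).re * phi x0 x1 β -
    x0 * (Real.log ‖g (r * ee β)‖ * phi x0 x1 β)) (fun β _ => hint β)]
  rw [intervalIntegral.integral_sub (hcH.intervalIntegrable _ _)
    ((hcg.intervalIntegrable _ _).const_mul _), intervalIntegral.integral_const_mul,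
    h1 H hHd r hr hr1 x0 x1, h2 g hgd hgn r hr hr1 x0 x1, hH0, hH1, hg0, hg1]
  have f1 : b * a2 / b = a2 := by field_simp
  have f2 : conj x1 * (-(r : ℂ) * x1 * conj b * b - (r : ℂ) * conj x1 * (a3 - a2 ^ 2)
      + x1 / (r : ℂ)) = ((-r * ‖x1‖ ^ 2 * ‖b‖ ^ 2 + ‖x1‖ ^ 2 / r : ℝ) : ℂ)
      - (r : ℂ) * (conj x1 ^ 2 * (a3 - a2 ^ 2)) := by
    have g1 : conj x1 * x1 = ((‖x1‖ ^ 2 : ℝ) : ℂ) := by
      rw [Complex.ofReal_pow, ← Complex.conj_mul']
    have g2 : conj b * b = ((‖b‖ ^ 2 : ℝ) : ℂ) := by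
      rw [Complex.ofReal_pow, ← Complex.conj_mul']
    push_cast at g1 g2 ⊢
    rw [← g1, ← g2]
    ring
  have f3 : (-(r : ℂ) * conj x1 * a2 - (x0 : ℂ) * (Real.log r : ℂ)).re =
      -r * (conj x1 * a2).re - x0 * Real.log r := by
    have : -(r : ℂ) * conj x1 * a2 - (x0 : ℂ) * (Real.log r : ℂ) =
        ((-r : ℝ) : ℂ) * (conj x1 * a2) - ((x0 * Real.log r : ℝ) : ℂ) := by
      push_cast
      ring
    rw [this, Complex.sub_re, Complex.re_ofReal_mul, Complex.ofReal_re]
  rw [f1, f2, f3, Complex.sub_re, Complex.ofReal_re, Complex.re_ofReal_mul]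
  field_simp
  ring

end Pool.Agent.PSB
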