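import Pool.Agent.PSB.Stmts

/-!
PSB, module SLO.
-/

set_option autoImplicit false

namespace Pool.Agent.PSB

open Finset

namespace SLO_

/-- the trigonometric sum -/
noncomputable def g (n : ℕ) (φ : ℝ) : ℝ := -2 * ∑ k ∈ Finset.Ico 1 n, Real.cos (k * φ)

theorem bdd (n : ℕ) : BddAbove (Set.range (g n)) := by
  refine ⟨2 * n, ?_⟩
  rintro _ ⟨φ, rfl⟩
  unfold g
  have h1 : ∑ k ∈ Finset.Ico 1 n, (-1 : ℝ) ≤ ∑ k ∈ Finset.Ico 1 n, Real.cos (k * φ) :=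
    Finset.sum_le_sum (fun k _ => Real.neg_one_le_cos _)
  have h2 : ∑ k ∈ Finset.Ico 1 n, (-1 : ℝ) = -((n - 1 : ℕ) : ℝ) := by
    simp
  have h3 : ((n - 1 : ℕ) : ℝ) ≤ n := by exact_mod_cast Nat.sub_le n 1
  linarith

theorem slope_eq (n : ℕ) : slope' n = ⨆ φ : ℝ, g n φ := rfl

theorem g_le (n : ℕ) (φ : ℝ) : g n φ ≤ slope' n := by
  rw [slope_eq]; exact le_ciSup (bdd n) φ

theorem alt (n : ℕ) : 2 * ∑ k ∈ Finset.Ico 1 (n + 1), Real.cos (k * Real.pi) =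
    -1 - (-1) ^ (n + 1) := by
  induction n with
  | zero => simp
  | succ n ih =>
    rw [Finset.sum_Ico_succ_top (by omega : 1 ≤ n + 1), mul_add, ih, Real.cos_nat_mul_pi]
    ring

theorem slope_nonneg (n : ℕ) (hn : 1 ≤ n) : 0 ≤ slope' n := by
  refine le_trans ?_ (g_le n Real.pi)
  obtain ⟨m, rfl⟩ : ∃ m, n = m + 1 := ⟨n - 1, by omega⟩
  have h1 := alt m
  have h2 : (-1 : ℝ) ≤ (-1) ^ (m + 1) := by
    rcases neg_one_pow_eq_or ℝ (m + 1) with h | h <;> rw [h] <;> norm_num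
  unfold g
  linarith

theorem sum_k (n : ℕ) : ∑ k ∈ Finset.Ico 1 n, (k : ℝ) ≤ n ^ 2 / 2 := by
  induction n with
  | zero => simp
  | succ n ih =>
    rcases Nat.eq_zero_or_pos n with h | h
    · subst h; simp
    · rw [Finset.sum_Ico_succ_top (by omega : 1 ≤ n)]
      push_cast
      nlinarith

theorem ee_re (x : ℝ) : (ee x).re = Real.cos x := by
  unfold ee
  exact Complex.exp_ofReal_mul_I_re x

theorem ee_norm (x : ℝ) : ‖ee x‖ = 1 := by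
  unfold ee
  exact Complex.norm_exp_ofReal_mul_I x

/-- upper bound for the model -/
theorem upper (n : ℕ) (hn : 1 ≤ n) (ε φ : ℝ) (hε : 0 < ε) :
    ‖1 - 2 * (ε : ℂ) * ∑ k ∈ Finset.Ico 1 n, ee (k * φ)‖ ≤
      1 + slope' n * ε + 2 * n ^ 2 * ε ^ 2 := by
  obtain ⟨K, hK⟩ : ∃ K, K = ∑ k ∈ Finset.Ico 1 n, ee (k * φ) := ⟨_, rfl⟩
  rw [← hK]
  have hc := slope_nonneg n hn
  have hre : -2 * K.re ≤ slope' n := by
    have h1 := g_le n φ
    unfold g at h1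
    have h2 : K.re = ∑ k ∈ Finset.Ico 1 n, Real.cos (k * φ) := by
      rw [hK, Complex.re_sum]
      exact Finset.sum_congr rfl (fun k _ => ee_re _)
    rw [h2]; exact h1
  have hnorm : ‖K‖ ≤ n := by
    rw [hK]
    refine le_trans (norm_sum_le _ _) ?_
    have h1 : ∑ k ∈ Finset.Ico 1 n, ‖ee (k * φ)‖ = ((n - 1 : ℕ) : ℝ) := by
      rw [Finset.sum_congr rfl (fun k _ => ee_norm _)]
      simp
    rw [h1]
    exact_mod_cast Nat.sub_le n 1
  have hsq : ‖1 - 2 * (ε : ℂ) * K‖ ^ 2 = 1 - 4 * ε * K.re + 4 * ε ^ 2 * ‖K‖ ^ 2 := by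
    rw [← Complex.normSq_eq_norm_sq, ← Complex.normSq_eq_norm_sq, Complex.normSq_apply,
      Complex.normSq_apply]
    simp only [Complex.sub_re, Complex.sub_im, Complex.mul_re, Complex.mul_im, Complex.one_re,
      Complex.one_im, Complex.ofReal_re, Complex.ofReal_im, Complex.re_ofNat, Complex.im_ofNat]
    ring
  have hK2 : ‖K‖ ^ 2 ≤ (n : ℝ) ^ 2 := pow_le_pow_left₀ (norm_nonneg _) hnorm 2
  have hpos : 0 ≤ 1 + slope' n * ε + 2 * (n : ℝ) ^ 2 * ε ^ 2 := by positivity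
  refine abs_le_of_sq_le_sq' ?_ hpos |>.2
  rw [hsq]
  have h1 : 4 * ε ^ 2 * ‖K‖ ^ 2 ≤ 4 * ε ^ 2 * (n : ℝ) ^ 2 :=
    mul_le_mul_of_nonneg_left hK2 (by positivity)
  have h2 : ε * (-2 * K.re) ≤ ε * slope' n := mul_le_mul_of_nonneg_left hre hε.le
  have h3 : 0 ≤ slope' n * ε + 2 * (n : ℝ) ^ 2 * ε ^ 2 := by positivity
  nlinarith [sq_nonneg (slope' n * ε + 2 * (n : ℝ) ^ 2 * ε ^ 2)]

/-- lower bound for the model -/
theorem lower (n : ℕ) (M φ s : ℝ) (hM : 1 < M) (hM2 : M ≤ 2) (hs : 0 < s) (hs2 : s ^ 2 = M - 1) :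
    1 + (M ^ 2 - 1) / 2 * g n φ - 21 / 8 * (n : ℝ) ^ 2 * s ^ 3 ≤
    ‖1 - ((M : ℂ) ^ 2 - 1) * ∑ k ∈ Finset.Ico 1 n,
      (((1 - Real.sqrt (1 - 1 / M ^ 2) : ℝ) : ℂ)) ^ k * ee (k * φ)‖ := by
  obtain ⟨t, ht⟩ : ∃ t, t = Real.sqrt (1 - 1 / M ^ 2) := ⟨_, rfl⟩
  rw [← ht]
  have hMpos : 0 < M := by linarith
  have h0 : 0 ≤ 1 - 1 / M ^ 2 := by
    have : 1 / M ^ 2 ≤ 1 := by
      rw [div_le_one (by positivity)]
      nlinarith
    linarith
  have ht0 : 0 ≤ t := by rw [ht]; exact Real.sqrt_nonneg _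
  have htsq : t ^ 2 = 1 - 1 / M ^ 2 := by rw [ht]; exact Real.sq_sqrt h0
  have ht1 : t ≤ 1 := by
    have : 0 < 1 / M ^ 2 := by positivity
    nlinarith
  have hts : t ≤ 7 / 4 * s := by
    have h1 : 1 - 1 / M ^ 2 ≤ M ^ 2 - 1 := by
      have h2 : 1 / M ^ 2 * M ^ 2 = 1 := by field_simp
      have h3 : 0 < 1 / M ^ 2 := by positivity
      nlinarith [sq_nonneg (M ^ 2 - 1)]
    have h4 : t ^ 2 ≤ (7 / 4 * s) ^ 2 := by
      rw [htsq]
      nlinarith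
    exact abs_le_of_sq_le_sq' h4 (by positivity) |>.2
  have hρ0 : 0 ≤ 1 - t := by linarith
  -- the real part
  refine le_trans ?_ (Complex.re_le_norm _)
  have hre : (1 - ((M : ℂ) ^ 2 - 1) * ∑ k ∈ Finset.Ico 1 n,
      (((1 - t : ℝ) : ℂ)) ^ k * ee (k * φ)).re =
      1 - (M ^ 2 - 1) * ∑ k ∈ Finset.Ico 1 n, (1 - t) ^ k * Real.cos (k * φ) := by
    have e1 : ((M : ℂ) ^ 2 - 1) = ((M ^ 2 - 1 : ℝ) : ℂ) := by push_cast; ring
    rw [e1, Complex.sub_re, Complex.one_re, Complex.re_ofReal_mul, Complex.re_sum]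
    congr 2
    refine Finset.sum_congr rfl (fun k _ => ?_)
    rw [← Complex.ofReal_pow, Complex.re_ofReal_mul, ee_re]
  rw [hre]
  have hsum : ∑ k ∈ Finset.Ico 1 n, (1 - t) ^ k * Real.cos (k * φ) ≤
      ∑ k ∈ Finset.Ico 1 n, Real.cos (k * φ) + t * ((n : ℝ) ^ 2 / 2) := by
    have h1 : ∑ k ∈ Finset.Ico 1 n, (1 - t) ^ k * Real.cos (k * φ) ≤
        ∑ k ∈ Finset.Ico 1 n, (Real.cos (k * φ) + t * k) := by
      refine Finset.sum_le_sum (fun k _ => ?_)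
      have h2 : 1 + (k : ℝ) * (-t) ≤ (1 + (-t)) ^ k :=
        one_add_mul_le_pow (by linarith) k
      have h3 : (1 - t) ^ k ≤ 1 := pow_le_one₀ hρ0 (by linarith)
      have h4 : 1 - k * t ≤ (1 - t) ^ k := by
        have : (1 + (-t)) = 1 - t := by ring
        rw [this] at h2
        linarith
      have h5 : -1 ≤ Real.cos (k * φ) := Real.neg_one_le_cos _
      have h6 : 0 ≤ (1 - (1 - t) ^ k) * (Real.cos (k * φ) + 1) :=
        mul_nonneg (by linarith) (by linarith)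
      nlinarith
    rw [Finset.sum_add_distrib, ← Finset.mul_sum] at h1
    have h2 := mul_le_mul_of_nonneg_left (sum_k n) ht0
    linarith
  have hM3 : M ^ 2 - 1 ≤ 3 * s ^ 2 := by rw [hs2]; nlinarith
  have hMp : 0 ≤ M ^ 2 - 1 := by nlinarith
  have h7 := mul_le_mul_of_nonneg_left hsum hMp
  have h8 : (M ^ 2 - 1) * (t * ((n : ℝ) ^ 2 / 2)) ≤ 3 * s ^ 2 * (7 / 4 * s * ((n : ℝ) ^ 2 / 2)) :=
    mul_le_mul hM3 (mul_le_mul_of_nonneg_right hts (by positivity)) (by positivity) (by positivity)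
  unfold g
  nlinarith

end SLO_

open SLO_ in
theorem slo_proof (h1 : Stmt_GUB) (h2 : Stmt_GLB) : Stmt_SLO := by
  intro n M hn hM hM2
  have hε : 0 < M - 1 := by linarith
  obtain ⟨s, hs⟩ : ∃ s, s = Real.sqrt (M - 1) := ⟨_, rfl⟩
  have hs0 : 0 < s := by rw [hs]; exact Real.sqrt_pos.2 hε
  have hs2 : s ^ 2 = M - 1 := by rw [hs]; exact Real.sq_sqrt hε.le
  have hs1 : s ≤ 1 := by nlinarith
  have hpow : (M - 1) ^ (3 / 2 : ℝ) = s ^ 3 := by
    have e1 : (3 / 2 : ℝ) = 1 + 1 / 2 := by norm_num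
    rw [e1, Real.rpow_add hε, Real.rpow_one, ← Real.sqrt_eq_rpow, ← hs, ← hs2]
    ring
  rw [hpow]
  have hc := slope_nonneg n hn
  have hs3 : 0 < s ^ 3 := pow_pos hs0 3
  have hn2 : (0 : ℝ) ≤ (n : ℝ) ^ 2 := by positivity
  rw [abs_le]
  constructor
  · -- lower bound
    have key : ∀ δ : ℝ, 0 < δ → 1 + (M - 1) * (slope' n - δ) - (M - 1) ^ 2 / 2 * δ -
        21 / 8 * (n : ℝ) ^ 2 * s ^ 3 ≤ Lam n M := by
      intro δ hδ
      have h3 : slope' n - δ < ⨆ φ : ℝ, g n φ := by rw [← slope_eq]; linarith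
      obtain ⟨φ, hφ⟩ := exists_lt_of_lt_ciSup h3
      refine le_trans ?_ (le_trans (lower n M φ s hM hM2 hs0 hs2) (h2 M hM n hn φ))
      have e1 : (M ^ 2 - 1) / 2 * g n φ = (M - 1) * g n φ + (M - 1) ^ 2 / 2 * g n φ := by ring
      rw [e1]
      have h4 : (M - 1) * (slope' n - δ) ≤ (M - 1) * g n φ :=
        mul_le_mul_of_nonneg_left hφ.le hε.le
      have h5 : (M - 1) ^ 2 / 2 * (-δ) ≤ (M - 1) ^ 2 / 2 * g n φ :=
        mul_le_mul_of_nonneg_left (by linarith) (by positivity)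
      linarith
    have key2 : 1 + (M - 1) * slope' n - 21 / 8 * (n : ℝ) ^ 2 * s ^ 3 ≤ Lam n M := by
      refine le_of_forall_pos_le_add (fun η hη => ?_)
      have h3 := key (η / 2) (by positivity)
      have h4 : (M - 1) * (η / 2) ≤ 1 * (η / 2) :=
        mul_le_mul_of_nonneg_right (by linarith) (by positivity)
      have h5 : (M - 1) ^ 2 / 2 * (η / 2) ≤ 1 * (η / 2) :=
        mul_le_mul_of_nonneg_right (by nlinarith) (by positivity)
      nlinarith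
    nlinarith [mul_nonneg hn2 hs3.le]
  · -- upper bound
    have h3 : Lam n M ≤ 1 + slope' n * (M - 1) + 2 * (n : ℝ) ^ 2 * (M - 1) ^ 2 := by
      unfold Lam
      refine Real.sSup_le ?_ (by positivity)
      rintro r ⟨f, hf, z, hz, rfl⟩
      obtain ⟨φ, hφ⟩ := h1 M f hM hf n hn z hz
      refine le_trans hφ ?_
      have h4 := upper n hn (M - 1) φ hε
      have e1 : (((M - 1 : ℝ)) : ℂ) = (M : ℂ) - 1 := by push_cast; ring
      rw [e1] at h4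
      exact h4
    have h4 : (M - 1) ^ 2 ≤ s ^ 3 := by
      rw [← hs2]
      nlinarith [mul_nonneg hs3.le (by linarith : 0 ≤ 1 - s)]
    have h5 : 2 * (n : ℝ) ^ 2 * (M - 1) ^ 2 ≤ 2 * (n : ℝ) ^ 2 * s ^ 3 :=
      mul_le_mul_of_nonneg_left h4 (by positivity)
    nlinarith [mul_nonneg hn2 hs3.le]

end Pool.Agent.PSB
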