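import Pool.Agent.PSB.Stmts

/-!
# PSB, module UB3: the sharp upper bound for `n = 3`
-/

set_option autoImplicit false

namespace Pool.Agent.PSB

namespace UB3_

/-- the real inequality at the end -/
lemma real_ineq (L C S P Q b T : ℝ) (hL0 : 0 < L) (hL1 : L < 1) (hCS : C ^ 2 + S ^ 2 = 1)
    (hT : T ≤ (2 * C ^ 2 - 1) + (C * P - S * Q) + (P ^ 2 - Q ^ 2 + 1 - b - P ^ 2 / L)) :
    T ≤ 2 - b + L / (4 * (1 - L)) := by
  have h1L : 0 < 1 - L := by linarith
  set K : ℝ := L / (4 * (1 - L)) with hK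
  have hK0 : 0 ≤ K := by positivity
  -- `C P - (1/L - 1) P^2 ≤ C^2 K`
  have hP : C * P + P ^ 2 - P ^ 2 / L ≤ C ^ 2 * K := by
    have e : C ^ 2 * K - (C * P + P ^ 2 - P ^ 2 / L) =
        (L * C - 2 * (1 - L) * P) ^ 2 / (4 * L * (1 - L)) := by
      rw [hK]
      field_simp
      ring
    have h0 : 0 ≤ (L * C - 2 * (1 - L) * P) ^ 2 / (4 * L * (1 - L)) := by positivity
    linarith
  have hQ : -(S * Q) - Q ^ 2 ≤ S ^ 2 / 4 := by nlinarith [sq_nonneg (S / 2 + Q)]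
  have hC : C ^ 2 ≤ 1 := by nlinarith [sq_nonneg S]
  have hCK : (1 - C ^ 2) * (2 + K - 1 / 4) ≥ 0 :=
    mul_nonneg (by linarith) (by linarith)
  nlinarith

end UB3_

open UB3_ in
theorem ub3_proof (h1 : Stmt_NEH) : Stmt_UB3 := by
  intro M f hM hL hf z hz
  have hL0 : 0 < Real.log M := Real.log_pos hM
  have h0 : coeff f 0 = 0 := by
    simp [coeff, hf.zero]
  have h1' : coeff f 1 = 1 := by
    simp [coeff, iteratedDeriv_one, hf.one]
  obtain ⟨T, hT⟩ : ∃ T : ℂ, T = 1 + coeff f 2 * z + coeff f 3 * z ^ 2 := ⟨_, rfl⟩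
  have hps : psum f 3 z = z * T := by
    rw [hT]
    simp only [psum, Finset.sum_range_succ, Finset.sum_range_zero, h0, h1']
    ring
  have hnorm : ‖psum f 3 z‖ = ‖T‖ := by
    rw [hps, norm_mul, hz, one_mul]
  rw [hnorm]
  obtain ⟨κ, hκ1, hκ2⟩ : ∃ κ : ℂ, ‖κ‖ = 1 ∧ κ ^ 2 * T = (‖T‖ : ℂ) := by
    refine ⟨Complex.exp (((-(Complex.arg T / 2) : ℝ) : ℂ) * Complex.I), ?_, ?_⟩
    · exact Complex.norm_exp_ofReal_mul_I _
    · have hTT := Complex.norm_mul_exp_arg_mul_I T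
      have hsq : Complex.exp (((-(Complex.arg T / 2) : ℝ) : ℂ) * Complex.I) ^ 2 =
          Complex.exp (-((Complex.arg T : ℂ) * Complex.I)) := by
        rw [← Complex.exp_nat_mul]
        congr 1
        push_cast
        ring
      rw [hsq]
      nth_rw 2 [← hTT]
      rw [mul_left_comm, ← Complex.exp_add, neg_add_cancel, Complex.exp_zero, mul_one]
  have hωn : ‖κ * z‖ = 1 := by rw [norm_mul, hκ1, hz, one_mul]
  have hneh := h1 M f hM hf (κ * z) ((κ * z * coeff f 2).re / (2 * Real.log M)) hωn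
  have hCS : κ.re ^ 2 + κ.im ^ 2 = 1 := by
    have h := Complex.sq_norm κ
    rw [hκ1, Complex.normSq_apply] at h
    nlinarith
  refine real_ineq (Real.log M) κ.re κ.im (κ * z * coeff f 2).re (κ * z * coeff f 2).im
    (1 / M ^ 2) ‖T‖ hL0 hL hCS ?_
  have hTre : ‖T‖ = (κ ^ 2).re + (κ * (κ * z * coeff f 2)).re +
      ((κ * z) ^ 2 * coeff f 3).re := by
    have h2 : (κ ^ 2 * T).re = ‖T‖ := by rw [hκ2]; exact Complex.ofReal_re _
    rw [← h2, hT, ← Complex.add_re, ← Complex.add_re]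
    congr 1
    ring
  have hk2 : (κ ^ 2).re = 2 * κ.re ^ 2 - 1 := by
    rw [sq, Complex.mul_re]
    nlinarith
  have hkω : (κ * (κ * z * coeff f 2)).re =
      κ.re * (κ * z * coeff f 2).re - κ.im * (κ * z * coeff f 2).im := Complex.mul_re _ _
  have hsplit : ((κ * z) ^ 2 * (coeff f 3 - coeff f 2 ^ 2)).re =
      ((κ * z) ^ 2 * coeff f 3).re -
        ((κ * z * coeff f 2).re ^ 2 - (κ * z * coeff f 2).im ^ 2) := by
    have e : (κ * z) ^ 2 * (coeff f 3 - coeff f 2 ^ 2) =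
        (κ * z) ^ 2 * coeff f 3 - (κ * z * coeff f 2) * (κ * z * coeff f 2) := by ring
    rw [e, Complex.sub_re, Complex.mul_re (κ * z * coeff f 2) (κ * z * coeff f 2)]
    ring
  rw [hsplit] at hneh
  rw [hTre, hk2, hkω]
  have hσ : 4 * ((κ * z * coeff f 2).re / (2 * Real.log M)) ^ 2 * Real.log M -
      4 * ((κ * z * coeff f 2).re / (2 * Real.log M)) * (κ * z * coeff f 2).re =
      -((κ * z * coeff f 2).re ^ 2 / Real.log M) := by
    field_simp
    ring
  linarith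

end Pool.Agent.PSB
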