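import Pool.Agent.PSB.Stmts

/-!
# Uniform bound for the partial sums
-/

set_option autoImplicit false

namespace Pool.Agent.PSB

open Complex Metric

namespace UNI_

lemma exp43 : Real.exp (-(4 / 3)) ≤ 0.267 := by
  have h := Real.sum_le_exp_of_nonneg (x := 4 / 3) (by norm_num) 6
  have h2 : (1 / 0.267 : ℝ) ≤ Real.exp (4 / 3) := by
    refine le_trans ?_ h
    norm_num [Finset.sum_range_succ, Nat.factorial]
  rw [Real.exp_neg, inv_le_comm₀ (Real.exp_pos _) (by norm_num)]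
  rw [one_div] at h2
  exact h2

/-- the factor -/
noncomputable def cc (r : ℝ) (n k : ℕ) : ℝ := (if k ≤ n then 1 else 0) - r ^ k

lemma sum_cc (n K : ℕ) (hn : 2 ≤ n) (hK : n + 1 ≤ K) (r : ℝ) (hr : r = 1 - 2 / 3 / (n + 1)) :
    ∑ k ∈ Finset.Ico 2 K, cc r n k ^ 2 / k ≤ 0.4225 := by
  have hn0 : (0 : ℝ) < n + 1 := by positivity
  have hn3 : (3 : ℝ) ≤ n + 1 := by
    have : ((3 : ℕ) : ℝ) ≤ ((n + 1 : ℕ) : ℝ) := Nat.cast_le.2 (by omega)
    push_cast at this
    linarith
  obtain ⟨t, ht⟩ : ∃ t : ℝ, t = 1 / (n + 1) := ⟨_, rfl⟩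
  have ht0 : 0 < t := by rw [ht]; positivity
  have ht1 : t ≤ 1 / 3 := by
    rw [ht]
    exact one_div_le_one_div_of_le (by norm_num) hn3
  have htn : t * (n + 1) = 1 := by rw [ht]; field_simp
  have hrt : r = 1 - 2 / 3 * t := by rw [hr, ht]; ring
  have hr0 : 0 < r := by rw [hrt]; linarith
  have hr1 : r < 1 := by rw [hrt]; linarith
  rw [← Finset.sum_Ico_consecutive _ (by omega : 2 ≤ n + 1) hK]
  have h1 : ∑ k ∈ Finset.Ico 2 (n + 1), cc r n k ^ 2 / k ≤ 2 / 9 * (1 - t) := by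
    have e1 : ∀ k ∈ Finset.Ico 2 (n + 1), cc r n k ^ 2 / k ≤ (1 - r) ^ 2 * k := by
      intro k hk
      have hk2 := Finset.mem_Ico.1 hk
      have hk0 : (0 : ℝ) < k := by
        have : 0 < k := by omega
        exact_mod_cast this
      have hb : 1 - r ^ k ≤ k * (1 - r) := by
        have := one_add_mul_le_pow (a := r - 1) (by linarith) k
        have e : (1 + (r - 1)) ^ k = r ^ k := by ring_nf
        rw [e] at this
        linarith
      have hp : 0 ≤ 1 - r ^ k := by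
        have := pow_le_one₀ hr0.le hr1.le (n := k)
        linarith
      have hc : cc r n k = 1 - r ^ k := by
        unfold cc
        rw [if_pos (by omega)]
      rw [hc, div_le_iff₀ hk0]
      have : (1 - r ^ k) ^ 2 ≤ (k * (1 - r)) ^ 2 := pow_le_pow_left₀ hp hb 2
      calc (1 - r ^ k) ^ 2 ≤ (k * (1 - r)) ^ 2 := this
        _ = (1 - r) ^ 2 * k * k := by ring
    have e2 : ∑ k ∈ Finset.Ico 2 (n + 1), (1 - r) ^ 2 * (k : ℝ) ≤
        ∑ k ∈ Finset.range (n + 1), (1 - r) ^ 2 * (k : ℝ) := by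
      apply Finset.sum_le_sum_of_subset_of_nonneg
      · intro k hk
        exact Finset.mem_range.2 (Finset.mem_Ico.1 hk).2
      · intro k _ _
        positivity
    have e3 : ∑ k ∈ Finset.range (n + 1), (1 - r) ^ 2 * (k : ℝ) = (1 - r) ^ 2 * (n * (n + 1) / 2) := by
      rw [← Finset.mul_sum]
      congr 1
      have := Finset.sum_range_id_mul_two (n + 1)
      have h2 : ((∑ i ∈ Finset.range (n + 1), i : ℕ) : ℝ) * 2 = (n + 1) * n := by
        have h3 := congrArg (fun x : ℕ => (x : ℝ)) this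
        push_cast at h3
        push_cast
        exact h3
      push_cast at h2
      linarith
    have e4 : (1 - r) ^ 2 * (n * (n + 1) / 2) = 2 / 9 * (1 - t) := by
      have hn' : (n : ℝ) = (n + 1) - 1 := by ring
      have e5 : 1 - r = 2 / 3 * t := by rw [hrt]; ring
      rw [e5]
      have e6 : t * n = 1 - t := by
        have : t * (n + 1) = t * n + t := by ring
        linarith
      calc (2 / 3 * t) ^ 2 * (n * (n + 1) / 2) = 2 / 9 * (t * n) * (t * (n + 1)) := by ring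
        _ = 2 / 9 * (1 - t) := by rw [e6, htn]; ring
    calc _ ≤ ∑ k ∈ Finset.Ico 2 (n + 1), (1 - r) ^ 2 * (k : ℝ) := Finset.sum_le_sum e1
      _ ≤ _ := e2
      _ = _ := by rw [e3, e4]
  have h2 : ∑ k ∈ Finset.Ico (n + 1) K, cc r n k ^ 2 / k ≤ 0.4005 / (2 - 2 / 3 * t) := by
    have e1 : ∀ k ∈ Finset.Ico (n + 1) K, cc r n k ^ 2 / k ≤ t * (r ^ 2) ^ k := by
      intro k hk
      have hk2 := Finset.mem_Ico.1 hk
      have hk0 : (n + 1 : ℝ) ≤ k := by exact_mod_cast hk2.1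
      have hc : cc r n k = - r ^ k := by
        unfold cc
        rw [if_neg (by omega)]
        ring
      have hk1 : (0 : ℝ) < k := by linarith
      rw [hc, div_le_iff₀ hk1]
      have e : (-r ^ k) ^ 2 = (r ^ 2) ^ k := by rw [← pow_mul, mul_comm 2 k, pow_mul]; ring
      rw [e]
      have h3 : 1 ≤ t * k := by
        calc (1 : ℝ) = t * (n + 1) := htn.symm
          _ ≤ t * k := mul_le_mul_of_nonneg_left hk0 ht0.le
      have h4 : 0 ≤ (r ^ 2) ^ k := by positivity
      calc (r ^ 2) ^ k = 1 * (r ^ 2) ^ k := by ring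
        _ ≤ (t * k) * (r ^ 2) ^ k := mul_le_mul_of_nonneg_right h3 h4
        _ = t * (r ^ 2) ^ k * k := by ring
    have hr21 : r ^ 2 < 1 := by nlinarith
    have e2 : ∑ k ∈ Finset.Ico (n + 1) K, (r ^ 2) ^ k ≤ (r ^ 2) ^ (n + 1) / (1 - r ^ 2) :=
      geom_sum_Ico_le_of_lt_one (by positivity) hr21
    have e3 : (r ^ 2) ^ (n + 1) ≤ 0.267 := by
      have h3 : r ≤ Real.exp (r - 1) := by
        have := Real.add_one_le_exp (r - 1)
        linarith
      calc (r ^ 2) ^ (n + 1) = r ^ (2 * (n + 1)) := by rw [pow_mul]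
        _ ≤ Real.exp (r - 1) ^ (2 * (n + 1)) := pow_le_pow_left₀ hr0.le h3 _
        _ = Real.exp (-(4 / 3)) := by
          rw [← Real.exp_nat_mul]
          congr 1
          push_cast
          rw [hrt]
          have : (2 * ((n : ℝ) + 1)) * (1 - 2 / 3 * t - 1) = -(4 / 3) * (t * (n + 1)) := by ring
          rw [this, htn]
          ring
        _ ≤ 0.267 := exp43
    have e4 : 1 - r ^ 2 = 2 / 3 * t * (2 - 2 / 3 * t) := by rw [hrt]; ring
    have hd : 0 < 2 - 2 / 3 * t := by linarith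
    calc ∑ k ∈ Finset.Ico (n + 1) K, cc r n k ^ 2 / k
        ≤ ∑ k ∈ Finset.Ico (n + 1) K, t * (r ^ 2) ^ k := Finset.sum_le_sum e1
      _ = t * ∑ k ∈ Finset.Ico (n + 1) K, (r ^ 2) ^ k := by rw [Finset.mul_sum]
      _ ≤ t * ((r ^ 2) ^ (n + 1) / (1 - r ^ 2)) := mul_le_mul_of_nonneg_left e2 ht0.le
      _ ≤ t * (0.267 / (1 - r ^ 2)) := by
          apply mul_le_mul_of_nonneg_left _ ht0.le
          apply div_le_div_of_nonneg_right e3
          linarith
      _ = 0.4005 / (2 - 2 / 3 * t) := by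
          rw [e4]
          field_simp
          norm_num
  have hd : 0 < 2 - 2 / 3 * t := by linarith
  have h3 : 2 / 9 * (1 - t) + 0.4005 / (2 - 2 / 3 * t) ≤ 0.4225 := by
    rw [← le_sub_iff_add_le', div_le_iff₀ hd]
    nlinarith
  linarith

lemma schwarz {M : ℝ} {f : ℂ → ℂ} (hf : InS M f) {w : ℂ} (hw : ‖w‖ < 1) :
    ‖f w‖ ≤ M * ‖w‖ := by
  have h := Complex.dist_le_div_mul_dist_of_mapsTo_ball (f := f) (c := 0) (R₁ := 1) (R₂ := M)
    (z := w) hf.diff (by
      intro z hz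
      rw [hf.zero, mem_closedBall_zero_iff]
      exact hf.bdd z hz) (by rw [mem_ball_zero_iff]; exact hw)
  rwa [hf.zero, dist_zero_right, dist_zero_right, div_one] at h

lemma coeff_zero {M : ℝ} {f : ℂ → ℂ} (hf : InS M f) : coeff f 0 = 0 := by
  unfold coeff
  simp [hf.zero]

lemma coeff_one {M : ℝ} {f : ℂ → ℂ} (hf : InS M f) : coeff f 1 = 1 := by
  unfold coeff
  simp [hf.one]

lemma hasSum {M : ℝ} {f : ℂ → ℂ} (hf : InS M f) {w : ℂ} (hw : ‖w‖ < 1) :
    HasSum (fun k => coeff f k * w ^ k) (f w) := by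
  have hd : DifferentiableOn ℂ f (ball 0 ((1 : NNReal) : ℝ)) := by
    rw [NNReal.coe_one]
    exact hf.diff
  have h := Complex.hasSum_taylorSeries_on_ball (c := 0) (r := 1) hd (z := w)
    (by rw [mem_ball_zero_iff]; simpa using hw)
  have e : (fun k => coeff f k * w ^ k) =
      fun n : ℕ => ((n.factorial : ℂ))⁻¹ • (w - 0) ^ n • iteratedDeriv n f 0 := by
    funext k
    unfold coeff
    rw [smul_eq_mul, smul_eq_mul, sub_zero]
    ring
  rw [e]
  exact h

/-- the difference of the two partial sums -/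
lemma diff_bound (hA : Stmt_ARE) {M : ℝ} (hM : 1 < M) {f : ℂ → ℂ} (hf : InS M f) {n : ℕ}
    (hn : 2 ≤ n) {r : ℝ} (hr : r = 1 - 2 / 3 / (n + 1)) (hr1 : r ≤ 1) {z : ℂ} (hz : ‖z‖ = 1) {K : ℕ}
    (hK : n + 1 ≤ K) :
    ‖psum f n z - ∑ k ∈ Finset.range K, coeff f k * ((r : ℂ) * z) ^ k‖ ≤
      (1 - r) + 0.65 * Real.sqrt (M ^ 2 - 1) := by
  have e1 : psum f n z - ∑ k ∈ Finset.range K, coeff f k * ((r : ℂ) * z) ^ k =
      ∑ k ∈ Finset.range K, (cc r n k : ℂ) * (coeff f k * z ^ k) := by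
    unfold psum
    have e2 : ∑ k ∈ Finset.range (n + 1), coeff f k * z ^ k =
        ∑ k ∈ Finset.range K, if k ≤ n then coeff f k * z ^ k else 0 := by
      rw [← Finset.sum_filter]
      congr 1
      ext k
      rw [Finset.mem_filter, Finset.mem_range, Finset.mem_range]
      omega
    rw [e2, ← Finset.sum_sub_distrib]
    refine Finset.sum_congr rfl (fun k _ => ?_)
    unfold cc
    rw [mul_pow]
    by_cases h : k ≤ n
    · rw [if_pos h, if_pos h]
      push_cast
      ring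
    · rw [if_neg h, if_neg h]
      push_cast
      ring
  rw [e1]
  have hsplit : ∀ g : ℕ → ℝ, ∑ k ∈ Finset.range K, g k = g 0 + g 1 + ∑ k ∈ Finset.Ico 2 K, g k := by
    intro g
    rw [← Finset.sum_range_add_sum_Ico g (by omega : 2 ≤ K), Finset.sum_range_succ,
      Finset.sum_range_one]
  refine (norm_sum_le _ _).trans ?_
  rw [hsplit]
  have t0 : ‖(cc r n 0 : ℂ) * (coeff f 0 * z ^ 0)‖ = 0 := by
    rw [coeff_zero hf]
    simp
  have t1 : ‖(cc r n 1 : ℂ) * (coeff f 1 * z ^ 1)‖ = 1 - r := by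
    rw [coeff_one hf, norm_mul, norm_mul, norm_one, pow_one, hz]
    unfold cc
    rw [if_pos (by omega), pow_one, Complex.norm_real, Real.norm_eq_abs, abs_of_nonneg (by linarith)]
    ring
  rw [t0, t1, zero_add]
  have t2 : ∑ k ∈ Finset.Ico 2 K, ‖(cc r n k : ℂ) * (coeff f k * z ^ k)‖ ≤
      Real.sqrt 0.4225 * Real.sqrt (M ^ 2 - 1) := by
    have e3 : ∀ k ∈ Finset.Ico 2 K, ‖(cc r n k : ℂ) * (coeff f k * z ^ k)‖ =
        (|cc r n k| / Real.sqrt k) * (Real.sqrt k * ‖coeff f k‖) := by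
      intro k hk
      have hk2 := Finset.mem_Ico.1 hk
      have hk0 : (0 : ℝ) < k := by
        have : 0 < k := by omega
        exact_mod_cast this
      have hs : Real.sqrt k ≠ 0 := (Real.sqrt_pos.2 hk0).ne'
      rw [norm_mul, norm_mul, norm_pow, hz, one_pow, Complex.norm_real, Real.norm_eq_abs]
      field_simp
    rw [Finset.sum_congr rfl e3]
    refine (Real.sum_mul_le_sqrt_mul_sqrt _ _ _).trans ?_
    apply mul_le_mul _ _ (Real.sqrt_nonneg _) (Real.sqrt_nonneg _)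
    · apply Real.sqrt_le_sqrt
      refine le_trans (le_of_eq ?_) (sum_cc n K hn hK r hr)
      refine Finset.sum_congr rfl (fun k _ => ?_)
      rw [div_pow, sq_abs, Real.sq_sqrt (Nat.cast_nonneg k)]
    · apply Real.sqrt_le_sqrt
      have h := hA M f hM hf (K - 1)
      rw [Nat.sub_add_cancel (by omega), hsplit, coeff_one hf] at h
      have e4 : ∑ k ∈ Finset.Ico 2 K, (Real.sqrt k * ‖coeff f k‖) ^ 2 =
          ∑ k ∈ Finset.Ico 2 K, (k : ℝ) * ‖coeff f k‖ ^ 2 := by
        refine Finset.sum_congr rfl (fun k _ => ?_)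
        rw [mul_pow, Real.sq_sqrt (Nat.cast_nonneg k)]
      rw [e4]
      simp only [Nat.cast_zero, zero_mul, Nat.cast_one, norm_one, one_pow, mul_one, zero_add] at h
      linarith
  have e5 : Real.sqrt 0.4225 = 0.65 := by
    rw [show (0.4225 : ℝ) = 0.65 ^ 2 by norm_num]
    exact Real.sqrt_sq (by norm_num)
  rw [e5] at t2
  linarith

end UNI_

open UNI_ in
theorem uni_proof (h1 : Stmt_ARE) : Stmt_UNI := by
  intro M hM n
  have hs := Real.sqrt_nonneg (M ^ 2 - 1)
  unfold Lam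
  apply Real.sSup_le _ (by positivity)
  rintro x ⟨f, hf, z, hz, rfl⟩
  rcases Nat.lt_or_ge n 2 with hn | hn
  · have h0 := coeff_zero hf
    have h1' := coeff_one hf
    have : ‖psum f n z‖ ≤ 1 := by
      unfold psum
      interval_cases n
      · simp [h0]
      · simp [Finset.sum_range_succ, h0, h1', hz]
    have : 0 ≤ 0.65 * Real.sqrt (M ^ 2 - 1) := by positivity
    linarith
  · obtain ⟨r, hr⟩ : ∃ r : ℝ, r = 1 - 2 / 3 / (n + 1) := ⟨_, rfl⟩
    have hn0 : (0 : ℝ) < n + 1 := by positivity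
    have hn3 : (3 : ℝ) ≤ n + 1 := by
      have : ((3 : ℕ) : ℝ) ≤ ((n + 1 : ℕ) : ℝ) := Nat.cast_le.2 (by omega)
      push_cast at this
      linarith
    have hd0 : 0 < 2 / 3 / ((n : ℝ) + 1) := by positivity
    have hd1 : 2 / 3 / ((n : ℝ) + 1) < 1 := by
      rw [div_lt_one hn0]
      linarith
    have hr0 : 0 < r := by rw [hr]; linarith
    have hr1 : r < 1 := by rw [hr]; linarith
    have hnz : ‖(r : ℂ) * z‖ = r := by
      rw [norm_mul, hz, mul_one, Complex.norm_real, Real.norm_eq_abs, abs_of_pos hr0]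
    have hsum := (hasSum hf (w := (r : ℂ) * z) (by rw [hnz]; exact hr1)).tendsto_sum_nat
    have hlim := (hsum.const_sub (psum f n z)).norm
    have hle : ‖psum f n z - f ((r : ℂ) * z)‖ ≤ (1 - r) + 0.65 * Real.sqrt (M ^ 2 - 1) := by
      refine le_of_tendsto hlim ?_
      filter_upwards [Filter.eventually_ge_atTop (n + 1)] with K hK
      exact diff_bound h1 hM hf hn hr hr1.le hz hK
    have hsch := schwarz hf (w := (r : ℂ) * z) (by rw [hnz]; exact hr1)
    rw [hnz] at hsch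
    have htri : ‖psum f n z‖ ≤ ‖psum f n z - f ((r : ℂ) * z)‖ + ‖f ((r : ℂ) * z)‖ := by
      have := norm_add_le (psum f n z - f ((r : ℂ) * z)) (f ((r : ℂ) * z))
      rwa [sub_add_cancel] at this
    nlinarith

end Pool.Agent.PSB
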