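import Pool.Agent.PSB.GLM
import Pool.Agent.PSB.MVA
import Pool.Agent.PSB.MV
import Pool.Agent.PSB.LC
import Pool.Agent.PSB.INN
import Pool.Agent.PSB.OUT
import Pool.Agent.PSB.ENG
import Pool.Agent.PSB.ARE
import Pool.Agent.PSB.UNI
import Pool.Agent.PSB.GPD
import Pool.Agent.PSB.KPD
import Pool.Agent.PSB.KIN
import Pool.Agent.PSB.LIN
import Pool.Agent.PSB.LOW
import Pool.Agent.PSB.DSL
import Pool.Agent.PSB.NEH
import Pool.Agent.PSB.UB3
import Pool.Agent.PSB.JET
import Pool.Agent.PSB.JCM
import Pool.Agent.PSB.STP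
import Pool.Agent.PSB.CHN
import Pool.Agent.PSB.CLS
import Pool.Agent.PSB.LIM
import Pool.Agent.PSB.LB3
import Pool.Agent.PSB.FC
import Pool.Agent.PSB.GUB
import Pool.Agent.PSB.GEO
import Pool.Agent.PSB.GLB
import Pool.Agent.PSB.SLO
import Pool.Agent.PSB.KOE
import Pool.Agent.PSB.KLB

set_option autoImplicit false

namespace Pool.Agent.PSB

theorem low : Stmt_LOW := low_proof
theorem mva : Stmt_MVA := mva_proof
theorem dsl : Stmt_DSL := dsl_proof
theorem mv : Stmt_MV := mv_proof mva
theorem lc : Stmt_LC := lc_proof mv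
theorem inn : Stmt_INN := inn_proof mv lc dsl
theorem out : Stmt_OUT := out_proof mva mv dsl
theorem gpd : Stmt_GPD := gpd_proof kpd_proof kin_proof
theorem glm : Stmt_GLM := glm_proof gpd lin_proof
theorem eng : Stmt_ENG := eng_proof glm low inn out
theorem neh : Stmt_NEH := neh_proof eng
theorem ub3 : Stmt_UB3 := ub3_proof neh
theorem chn : Stmt_CHN := chn_proof jcm_proof stp_proof
theorem lb3 : Stmt_LB3 := lb3_proof chn cls_proof lim_proof jet_proof
theorem gub : Stmt_GUB := gub_proof fc_proof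
theorem geo : Stmt_GEO := geo_proof stp_proof
theorem glb : Stmt_GLB := glb_proof geo
theorem slo : Stmt_SLO := slo_proof gub glb
theorem uni : Stmt_UNI := uni_proof are_proof
theorem klb : Stmt_KLB := klb_proof koe_proof

end Pool.Agent.PSB
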