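import Pool.Agent.PSB.GLB

set_option autoImplicit false

namespace Pool.Agent.PSB

open MeasureTheory Complex Metric

theorem inS_id {M : ℝ} (hM : 1 < M) : InS M (fun z => z) := by
  refine ⟨differentiableOn_id, fun x _ y _ h => h, rfl, ?_, ?_⟩
  · simp
  · intro z hz
    have : ‖z‖ < 1 := by simpa using hz
    linarith

theorem set_nonempty (n : ℕ) {M : ℝ} (hM : 1 < M) :
    {r : ℝ | ∃ f : ℂ → ℂ, InS M f ∧ ∃ z : ℂ, ‖z‖ = 1 ∧ r = ‖psum f n z‖}.Nonempty :=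
  ⟨_, _, inS_id hM, 1, norm_one, rfl⟩

theorem lam3_le (h : Stmt_UB3) {M : ℝ} (hM : 1 < M) (hL : Real.log M < 1) :
    Lam 3 M ≤ 2 - 1 / M ^ 2 + Real.log M / (4 * (1 - Real.log M)) := by
  refine csSup_le (set_nonempty 3 hM) ?_
  rintro r ⟨f, hf, z, hz, rfl⟩
  exact h M f hM hL hf z hz

theorem le_lam3 (h : Stmt_LB3) {M : ℝ} (hM : 1 < M) {σ : ℝ} (h0 : 0 ≤ σ) (h1 : σ ≤ 1 / M) :
    1 + 2 * σ * Real.log M + 4 * σ ^ 2 * Real.log M ^ 2 - 4 * σ ^ 2 * Real.log M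
        + (1 - 1 / M ^ 2) ≤ Lam 3 M := by
  refine le_of_forall_pos_le_add fun η hη => ?_
  obtain ⟨f, hf, hf2⟩ := h M σ hM h0 h1 η hη
  have h2 : ‖psum f 3 1‖ ≤ Lam 3 M := le_csSup (GLB_.bdd 3 M) ⟨f, hf, 1, norm_one, rfl⟩
  linarith

theorem lam3_eq (hu : Stmt_UB3) (hl : Stmt_LB3) {M : ℝ} (hM : 1 < M)
    (h : M + 4 * Real.log M ≤ 4) :
    Lam 3 M = 2 - 1 / M ^ 2 + Real.log M / (4 * (1 - Real.log M)) := by
  have hL0 : 0 < Real.log M := Real.log_pos hM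
  have hL : Real.log M < 1 := by linarith
  refine le_antisymm (lam3_le hu hM hL) ?_
  have h4 : 0 < 4 * (1 - Real.log M) := by linarith
  have h5 : (1 : ℝ) / (4 * (1 - Real.log M)) ≤ 1 / M :=
    one_div_le_one_div_of_le (by linarith) (by linarith)
  have h6 := le_lam3 hl hM (σ := 1 / (4 * (1 - Real.log M))) (by positivity) h5
  refine le_trans (le_of_eq ?_) h6
  have h7 : (1 - Real.log M) ≠ 0 := by linarith
  field_simp
  ring

/-- The maximum over the circle of the upper majorant is attained. -/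
theorem exists_max (M : ℝ) (n : ℕ) :
    ∃ φ₀ : ℝ, ∀ φ : ℝ, ‖1 - 2 * ((M : ℂ) - 1) * ∑ k ∈ Finset.Ico 1 n, ee (k * φ)‖ ≤
      ‖1 - 2 * ((M : ℂ) - 1) * ∑ k ∈ Finset.Ico 1 n, ee (k * φ₀)‖ := by
  have hc : Continuous (fun φ : ℝ =>
      ‖1 - 2 * ((M : ℂ) - 1) * ∑ k ∈ Finset.Ico 1 n, ee (k * φ)‖) := by
    unfold ee
    fun_prop
  obtain ⟨φ₀, -, h⟩ := isCompact_Icc.exists_isMaxOn
    (Set.nonempty_Icc.mpr Real.two_pi_pos.le) hc.continuousOn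
  refine ⟨φ₀, fun φ => ?_⟩
  obtain ⟨m, hm⟩ : ∃ m : ℤ, φ - m * (2 * Real.pi) ∈ Set.Icc 0 (2 * Real.pi) := by
    refine ⟨⌊φ / (2 * Real.pi)⌋, ?_, ?_⟩
    · have := Int.floor_le (φ / (2 * Real.pi))
      rw [le_div_iff₀ Real.two_pi_pos] at this
      linarith
    · have := (Int.lt_floor_add_one (φ / (2 * Real.pi))).le
      rw [div_le_iff₀ Real.two_pi_pos] at this
      linarith
  have h1 := h hm
  have h2 : ∀ k : ℕ, ee (k * φ) = ee (k * (φ - m * (2 * Real.pi))) := by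
    intro k
    unfold ee
    have h3 : (((k * (φ - m * (2 * Real.pi)) : ℝ) : ℂ)) * Complex.I =
        (((k * φ : ℝ) : ℂ)) * Complex.I - ((k * m : ℤ) : ℂ) * (2 * Real.pi * Complex.I) := by
      push_cast
      ring
    rw [h3, Complex.exp_sub, Complex.exp_int_mul_two_pi_mul_I, div_one]
  simp only [h2]
  exact h1

theorem lam_le (h : Stmt_GUB) {M : ℝ} (hM : 1 < M) {n : ℕ} (hn : 1 ≤ n) :
    ∃ φ : ℝ, Lam n M ≤ ‖1 - 2 * ((M : ℂ) - 1) * ∑ k ∈ Finset.Ico 1 n, ee (k * φ)‖ := by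
  obtain ⟨φ₀, h0⟩ := exists_max M n
  refine ⟨φ₀, csSup_le (set_nonempty n hM) ?_⟩
  rintro r ⟨f, hf, z, hz, rfl⟩
  obtain ⟨φ, h1⟩ := h M f hM hf n hn z hz
  exact h1.trans (h0 φ)

end Pool.Agent.PSB
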