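import Pool.Agent.PSB.Stmts

set_option autoImplicit false

namespace Pool.Agent.PSB

open MeasureTheory Complex Filter Topology

namespace GLM_

open scoped ComplexConjugate

lemma abs_log_le {a b x : ℝ} (ha : 0 < a) (hax : a ≤ x) (hxb : x ≤ b) :
    |Real.log x| ≤ |Real.log a| + |Real.log b| := by
  have hx : 0 < x := lt_of_lt_of_le ha hax
  have h1 : Real.log a ≤ Real.log x := Real.log_le_log ha hax
  have h2 : Real.log x ≤ Real.log b := Real.log_le_log hx hxb
  rw [abs_le]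
  constructor
  · have := neg_abs_le (Real.log a)
    have := abs_nonneg (Real.log b)
    linarith
  · have := le_abs_self (Real.log b)
    have := abs_nonneg (Real.log a)
    linarith

/-- the key identity at `τ = 1`. -/
lemma norm_max_sub (w w' : ℂ) :
    ‖((max ‖w‖ ‖w'‖ : ℝ) : ℂ) ^ 2 - (conj w * w')‖ = max ‖w‖ ‖w'‖ * ‖w - w'‖ := by
  rcases le_total ‖w'‖ ‖w‖ with h | h
  · rw [max_eq_left h]
    have e : ((‖w‖ : ℝ) : ℂ) ^ 2 = conj w * w := by
      rw [← Complex.conj_mul' w]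
    rw [e, ← mul_sub, norm_mul, Complex.norm_conj]
  · rw [max_eq_right h]
    have e : ((‖w'‖ : ℝ) : ℂ) ^ 2 = conj w' * w' := by
      rw [← Complex.conj_mul' w']
    rw [e, ← sub_mul, norm_mul, ← map_sub, Complex.norm_conj, norm_sub_rev, mul_comm]

lemma norm_max_sub_tau (τ : ℝ) (h0 : 0 < τ) (h1 : τ ≤ 1) (w w' : ℂ) :
    (1 / 2) * (max ‖w‖ ‖w'‖ * ‖w - w'‖) ≤
      ‖((max ‖w‖ ‖w'‖ : ℝ) : ℂ) ^ 2 - (τ : ℂ) * (conj w * w')‖ := by
  have key : ∀ u v : ℂ, ‖v‖ ≤ ‖u‖ → ‖u - v‖ ≤ 2 * ‖u - (τ : ℂ) * v‖ := by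
    intro u v huv
    have e1 : ‖(τ : ℂ) * v‖ = τ * ‖v‖ := by
      rw [norm_mul, Complex.norm_real, Real.norm_of_nonneg h0.le]
    have e2 : (1 - τ) * ‖v‖ ≤ ‖u - (τ : ℂ) * v‖ := by
      have := norm_sub_norm_le u ((τ : ℂ) * v)
      rw [e1] at this
      nlinarith [norm_nonneg v]
    have e3 : ‖u - v‖ ≤ ‖u - (τ : ℂ) * v‖ + (1 - τ) * ‖v‖ := by
      have : u - v = (u - (τ : ℂ) * v) - ((1 - τ : ℝ) : ℂ) * v := by
        push_cast; ring
      rw [this]
      refine (norm_sub_le _ _).trans ?_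
      rw [norm_mul, Complex.norm_real, Real.norm_of_nonneg (by linarith)]
    linarith
  rcases le_total ‖w'‖ ‖w‖ with h | h
  · rw [max_eq_left h]
    have e : ((‖w‖ : ℝ) : ℂ) ^ 2 - (τ : ℂ) * (conj w * w') = conj w * (w - (τ : ℂ) * w') := by
      rw [← Complex.conj_mul' w]; ring
    rw [e, norm_mul, Complex.norm_conj]
    have := key w w' h
    nlinarith [norm_nonneg w]
  · rw [max_eq_right h]
    have e : ((‖w'‖ : ℝ) : ℂ) ^ 2 - (τ : ℂ) * (conj w * w') =
        w' * conj (w' - (τ : ℂ) * w) := by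
      rw [← Complex.conj_mul' w', map_sub, map_mul, Complex.conj_ofReal]; ring
    rw [e, norm_mul, Complex.norm_conj]
    have := key w' w h
    rw [norm_sub_rev w' w] at this
    nlinarith [norm_nonneg w']

lemma bound_GT {c0 c1 : ℝ} (hc0 : 0 < c0) (hc1 : c1 < 1) {τ : ℝ} (h0 : 0 < τ) (h1 : τ < 1)
    {w w' : ℂ} (hw : c0 ≤ ‖w‖) (_hw' : c0 ≤ ‖w'‖) (hv : ‖w‖ ≤ c1) (hv' : ‖w'‖ ≤ c1)
    (hne : w ≠ w') :
    |GT τ w w'| ≤ (|Real.log (1 - c1 ^ 2)| + |Real.log 2|) +
      (|Real.log (1 / 2 * c0)| + |Real.log ‖w - w'‖| + |Real.log 2|) +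
      (|Real.log c0| + |Real.log 1|) := by
  have hc1' : 0 ≤ c1 := le_trans (norm_nonneg w) hv
  have hmul : ‖conj w * w'‖ ≤ c1 ^ 2 := by
    rw [norm_mul, Complex.norm_conj]
    nlinarith [norm_nonneg w, norm_nonneg w']
  have hc1sq : c1 ^ 2 < 1 := by nlinarith
  have hτmul : ‖(τ : ℂ) * (conj w * w')‖ ≤ c1 ^ 2 := by
    rw [norm_mul, Complex.norm_real, Real.norm_of_nonneg h0.le]
    nlinarith [norm_nonneg (conj w * w')]
  have hm0 : c0 ≤ max ‖w‖ ‖w'‖ := le_trans hw (le_max_left _ _)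
  have hm1 : max ‖w‖ ‖w'‖ ≤ c1 := max_le hv hv'
  have hd : 0 < ‖w - w'‖ := norm_pos_iff.mpr (sub_ne_zero.mpr hne)
  -- T1
  have T1 : |Real.log ‖1 - (τ : ℂ) * (conj w * w')‖| ≤
      |Real.log (1 - c1 ^ 2)| + |Real.log 2| := by
    apply abs_log_le (by linarith)
    · have := norm_sub_norm_le (1 : ℂ) ((τ : ℂ) * (conj w * w'))
      rw [norm_one] at this
      linarith
    · have := norm_sub_le (1 : ℂ) ((τ : ℂ) * (conj w * w'))
      rw [norm_one] at this
      linarith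
  have T2 : |Real.log ‖((max ‖w‖ ‖w'‖ : ℝ) : ℂ) ^ 2 - (τ : ℂ) * (conj w * w')‖| ≤
      |Real.log (1 / 2 * c0)| + |Real.log ‖w - w'‖| + |Real.log 2| := by
    have hle : (1 / 2 * c0) * ‖w - w'‖ ≤
        ‖((max ‖w‖ ‖w'‖ : ℝ) : ℂ) ^ 2 - (τ : ℂ) * (conj w * w')‖ := by
      refine le_trans ?_ (norm_max_sub_tau τ h0 h1.le w w')
      nlinarith
    have hub : ‖((max ‖w‖ ‖w'‖ : ℝ) : ℂ) ^ 2 - (τ : ℂ) * (conj w * w')‖ ≤ 2 := by
      refine (norm_sub_le _ _).trans ?_
      rw [norm_pow, Complex.norm_real, Real.norm_of_nonneg (by linarith)]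
      have : (max ‖w‖ ‖w'‖) ^ 2 ≤ c1 ^ 2 := by
        have h00 : 0 ≤ max ‖w‖ ‖w'‖ := by linarith
        nlinarith
      linarith
    have hpos : 0 < (1 / 2 * c0) * ‖w - w'‖ := by positivity
    have := abs_log_le hpos hle hub
    have e : |Real.log ((1 / 2 * c0) * ‖w - w'‖)| ≤
        |Real.log (1 / 2 * c0)| + |Real.log ‖w - w'‖| := by
      rw [Real.log_mul (by positivity) hd.ne']
      exact abs_add_le _ _
    linarith
  have T3 : |Real.log (max ‖w‖ ‖w'‖)| ≤ |Real.log c0| + |Real.log 1| :=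
    abs_log_le hc0 hm0 (by linarith)
  unfold GT
  refine (abs_add_le _ _).trans ?_
  refine add_le_add ((abs_sub _ _).trans (add_le_add T1 T2)) T3

lemma tendsto_GT {w w' : ℂ} (h1 : ‖w‖ < 1) (h1' : ‖w'‖ < 1) (h0 : w ≠ 0)
    (hne : w ≠ w') {τ : ℕ → ℝ} (hτ : Tendsto τ atTop (𝓝 1)) :
    Tendsto (fun n => GT (τ n) w w') atTop (𝓝 (GD w w')) := by
  have hd : 0 < ‖w - w'‖ := norm_pos_iff.mpr (sub_ne_zero.mpr hne)
  have hm : 0 < max ‖w‖ ‖w'‖ := lt_of_lt_of_le (norm_pos_iff.mpr h0) (le_max_left _ _)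
  have hτc : Tendsto (fun n => ((τ n : ℝ) : ℂ)) atTop (𝓝 (1 : ℂ)) := by
    have := (Complex.continuous_ofReal.tendsto 1).comp hτ
    simpa [Function.comp_def] using this
  have A : Tendsto (fun n => ‖1 - ((τ n : ℝ) : ℂ) * (conj w * w')‖) atTop
      (𝓝 ‖1 - (1 : ℂ) * (conj w * w')‖) :=
    (tendsto_const_nhds.sub (hτc.mul_const _)).norm
  have B : Tendsto (fun n => ‖((max ‖w‖ ‖w'‖ : ℝ) : ℂ) ^ 2 - ((τ n : ℝ) : ℂ) * (conj w * w')‖)
      atTop (𝓝 ‖((max ‖w‖ ‖w'‖ : ℝ) : ℂ) ^ 2 - (1 : ℂ) * (conj w * w')‖) :=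
    (tendsto_const_nhds.sub (hτc.mul_const _)).norm
  have hA : ‖1 - (1 : ℂ) * (conj w * w')‖ ≠ 0 := by
    have h2 : ‖conj w * w'‖ < 1 := by
      rw [norm_mul, Complex.norm_conj]
      nlinarith [norm_nonneg w, norm_nonneg w']
    have := norm_sub_norm_le (1 : ℂ) (1 * (conj w * w'))
    rw [norm_one, one_mul] at this
    rw [one_mul]
    linarith
  have hB : ‖((max ‖w‖ ‖w'‖ : ℝ) : ℂ) ^ 2 - (1 : ℂ) * (conj w * w')‖ =
      max ‖w‖ ‖w'‖ * ‖w - w'‖ := by
    rw [one_mul]; exact norm_max_sub w w'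
  have hB' : ‖((max ‖w‖ ‖w'‖ : ℝ) : ℂ) ^ 2 - (1 : ℂ) * (conj w * w')‖ ≠ 0 := by
    rw [hB]; positivity
  have LA := A.log hA
  have LB := B.log hB'
  have L := (LA.sub LB).add_const (Real.log (max ‖w‖ ‖w'‖))
  have e : Real.log ‖1 - (1 : ℂ) * (conj w * w')‖ -
      Real.log ‖((max ‖w‖ ‖w'‖ : ℝ) : ℂ) ^ 2 - (1 : ℂ) * (conj w * w')‖ +
      Real.log (max ‖w‖ ‖w'‖) = GD w w' := by
    rw [hB, Real.log_mul hm.ne' hd.ne', one_mul]
    unfold GD
    ring
  rw [e] at L
  exact L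

lemma continuous_ee : Continuous ee := by
  unfold ee
  fun_prop

instance : IsFiniteMeasure nu := by
  unfold nu
  infer_instance

lemma ae_ne : ∀ᵐ p : ℝ × ℝ ∂(nu.prod nu), ee p.1 ≠ ee p.2 := by
  have hmeas : MeasurableSet {p : ℝ × ℝ | ee p.1 = ee p.2} := by
    have : IsClosed {p : ℝ × ℝ | ee p.1 = ee p.2} :=
      isClosed_eq (continuous_ee.comp continuous_fst) (continuous_ee.comp continuous_snd)
    exact this.measurableSet
  have : (nu.prod nu) {p : ℝ × ℝ | ee p.1 = ee p.2} = 0 := by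
    rw [Measure.measure_prod_null hmeas]
    refine Eventually.of_forall fun x => ?_
    have hc : ({y : ℝ | ee x = ee y}).Countable := by
      have hsub : {y : ℝ | ee x = ee y} ⊆ Set.range (fun n : ℤ => x - n * (2 * Real.pi)) := by
        intro y hy
        have hy' : Complex.exp (x * Complex.I) = Complex.exp (y * Complex.I) := hy
        rw [Complex.exp_eq_exp_iff_exists_int] at hy'
        obtain ⟨n, hn⟩ := hy'
        refine ⟨n, ?_⟩
        have h2 : (x : ℂ) = y + n * (2 * Real.pi) := by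
          have hI : (Complex.I : ℂ) ≠ 0 := Complex.I_ne_zero
          apply mul_right_cancel₀ hI
          rw [hn]; ring
        have h3 : x = y + n * (2 * Real.pi) := by exact_mod_cast h2
        simp only
        linarith
      exact (Set.countable_range _).mono hsub
    have hz : (volume : Measure ℝ) {y : ℝ | ee x = ee y} = 0 := hc.measure_zero _
    have : nu {y : ℝ | ee x = ee y} = 0 := by
      unfold nu
      exact Measure.restrict_apply_eq_zero' measurableSet_Ioc |>.mpr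
        (measure_mono_null Set.inter_subset_left hz)
    exact this
  rw [ae_iff]
  simpa using this

lemma ae_mem : ∀ᵐ p : ℝ × ℝ ∂(nu.prod nu),
    p.1 ∈ Set.Icc 0 (2 * Real.pi) ∧ p.2 ∈ Set.Icc 0 (2 * Real.pi) := by
  unfold nu
  rw [Measure.prod_restrict]
  filter_upwards [ae_restrict_mem (measurableSet_Ioc.prod measurableSet_Ioc)] with p hp
  exact ⟨Set.Ioc_subset_Icc_self hp.1, Set.Ioc_subset_Icc_self hp.2⟩

end GLM_

open GLM_ in
theorem glm_proof (hGPD : Stmt_GPD) (hLIN : Stmt_LIN) : Stmt_GLM := by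
  intro w φ c hw hφ hw0 hw1 hc hcw
  have hK : IsCompact (Set.Icc (0 : ℝ) (2 * Real.pi)) := isCompact_Icc
  have hKne : (Set.Icc (0 : ℝ) (2 * Real.pi)).Nonempty :=
    Set.nonempty_Icc.mpr (by positivity)
  obtain ⟨x0, hx0, hmin⟩ := hK.exists_isMinOn hKne (hw.norm.continuousOn)
  obtain ⟨x1, hx1, hmax⟩ := hK.exists_isMaxOn hKne (hw.norm.continuousOn)
  obtain ⟨x2, hx2, hmax2⟩ := hK.exists_isMaxOn hKne (hφ.norm.continuousOn)
  have hc0 : 0 < ‖w x0‖ := norm_pos_iff.mpr (hw0 x0)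
  have hc1 : ‖w x1‖ < 1 := hw1 x1
  set c0 : ℝ := ‖w x0‖ with hc0def
  set c1 : ℝ := ‖w x1‖ with hc1def
  set P : ℝ := ‖φ x2‖ with hPdef
  have hP : 0 ≤ P := norm_nonneg _
  set K : ℝ := (|Real.log (1 - c1 ^ 2)| + |Real.log 2|) +
      (|Real.log (1 / 2 * c0)| + (|Real.log c| + |Real.log 2|) + |Real.log 2|) +
      (|Real.log c0| + |Real.log 1|) with hKdef
  set bound : ℝ × ℝ → ℝ := fun p => (K + |Real.log ‖ee p.1 - ee p.2‖|) * (P * P) with hbound
  have hbint : Integrable bound (nu.prod nu) := by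
    apply Integrable.mul_const
    apply Integrable.add
    · exact integrable_const _
    · exact hLIN.abs
  -- sequence
  set τ : ℕ → ℝ := fun n => 1 - 1 / ((n : ℝ) + 2) with hτdef
  have hτ0 : ∀ n, 0 < τ n := by
    intro n
    have : (1 : ℝ) / ((n : ℝ) + 2) < 1 := by
      rw [div_lt_one (by positivity)]
      have : (0 : ℝ) ≤ n := Nat.cast_nonneg n
      linarith
    simp only [hτdef]; linarith
  have hτ1 : ∀ n, τ n < 1 := by
    intro n
    have : (0 : ℝ) < 1 / ((n : ℝ) + 2) := by positivity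
    simp only [hτdef]; linarith
  have hτlim : Tendsto τ atTop (𝓝 1) := by
    have h1 : Tendsto (fun n : ℕ => 1 / ((n : ℝ) + 2)) atTop (𝓝 0) := by
      have h2 : Tendsto (fun n : ℕ => (n : ℝ) + 2) atTop atTop :=
        tendsto_atTop_add_const_right _ _ tendsto_natCast_atTop_atTop
      have h3 := h2.inv_tendsto_atTop
      refine h3.congr fun n => ?_
      simp [one_div]
    have h4 := h1.const_sub (1 : ℝ)
    rw [sub_zero] at h4
    exact h4
  -- pointwise bound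
  have hptb : ∀ t : ℝ, 0 < t → t < 1 → ∀ p : ℝ × ℝ, ee p.1 ≠ ee p.2 →
      p.1 ∈ Set.Icc 0 (2 * Real.pi) → p.2 ∈ Set.Icc 0 (2 * Real.pi) →
      ‖GT t (w p.1) (w p.2) * (φ p.1 * φ p.2)‖ ≤ bound p := by
    intro t ht0 ht1 p hpne hp1 hp2
    have hee : 0 < ‖ee p.1 - ee p.2‖ := norm_pos_iff.mpr (sub_ne_zero.mpr hpne)
    have hlow := hcw p.1 p.2
    have hwd : 0 < ‖w p.1 - w p.2‖ := lt_of_lt_of_le (by positivity) hlow
    have hwne : w p.1 ≠ w p.2 := by
      intro h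
      rw [h, sub_self, norm_zero] at hwd
      exact lt_irrefl _ hwd
    have a1 : c0 ≤ ‖w p.1‖ := hmin hp1
    have a2 : c0 ≤ ‖w p.2‖ := hmin hp2
    have b1 : ‖w p.1‖ ≤ c1 := hmax hp1
    have b2 : ‖w p.2‖ ≤ c1 := hmax hp2
    have G := bound_GT hc0 hc1 ht0 ht1 a1 a2 b1 b2 hwne
    have hup : ‖w p.1 - w p.2‖ ≤ 2 := by
      have := norm_sub_le (w p.1) (w p.2)
      linarith
    have L := abs_log_le (by positivity) hlow hup
    have L2 : |Real.log (c * ‖ee p.1 - ee p.2‖)| ≤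
        |Real.log c| + |Real.log ‖ee p.1 - ee p.2‖| := by
      rw [Real.log_mul hc.ne' hee.ne']
      exact abs_add_le _ _
    have G2 : |GT t (w p.1) (w p.2)| ≤ K + |Real.log ‖ee p.1 - ee p.2‖| := by
      rw [hKdef]; linarith
    have F1 : ‖φ p.1‖ ≤ P := hmax2 hp1
    have F2 : ‖φ p.2‖ ≤ P := hmax2 hp2
    rw [norm_mul, norm_mul, Real.norm_eq_abs (GT t (w p.1) (w p.2))]
    exact mul_le_mul G2 (mul_le_mul F1 F2 (norm_nonneg _) hP) (by positivity)
      (le_trans (abs_nonneg _) G2)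
  have hmeasT : ∀ t : ℝ, Measurable (fun p : ℝ × ℝ => GT t (w p.1) (w p.2) * (φ p.1 * φ p.2)) := by
    intro t
    have m1 : Measurable fun p : ℝ × ℝ => Real.log ‖1 - (t : ℂ) * ((starRingEnd ℂ) (w p.1) * w p.2)‖ := by
      apply Real.measurable_log.comp
      apply Continuous.measurable
      have : Continuous fun p : ℝ × ℝ => (starRingEnd ℂ) (w p.1) :=
        Complex.continuous_conj.comp (hw.comp continuous_fst)
      fun_prop
    have m2 : Measurable fun p : ℝ × ℝ => Real.log ‖((max ‖w p.1‖ ‖w p.2‖ : ℝ) : ℂ) ^ 2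
        - (t : ℂ) * ((starRingEnd ℂ) (w p.1) * w p.2)‖ := by
      apply Real.measurable_log.comp
      apply Continuous.measurable
      have h1 : Continuous fun p : ℝ × ℝ => (starRingEnd ℂ) (w p.1) :=
        Complex.continuous_conj.comp (hw.comp continuous_fst)
      have h2 : Continuous fun p : ℝ × ℝ => ((max ‖w p.1‖ ‖w p.2‖ : ℝ) : ℂ) := by
        apply Complex.continuous_ofReal.comp
        exact (hw.comp continuous_fst).norm.max (hw.comp continuous_snd).norm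
      have h3 : Continuous fun p : ℝ × ℝ => w p.2 := hw.comp continuous_snd
      exact ((h2.pow 2).sub (continuous_const.mul (h1.mul h3))).norm
    have m3 : Measurable fun p : ℝ × ℝ => Real.log (max ‖w p.1‖ ‖w p.2‖) := by
      apply Real.measurable_log.comp
      apply Continuous.measurable
      exact (hw.comp continuous_fst).norm.max (hw.comp continuous_snd).norm
    have m4 : Measurable fun p : ℝ × ℝ => φ p.1 * φ p.2 := by
      apply Continuous.measurable
      exact (hφ.comp continuous_fst).mul (hφ.comp continuous_snd)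
    exact ((m1.sub m2).add m3).mul m4
  have hmeasD : Measurable (fun p : ℝ × ℝ => GD (w p.1) (w p.2) * (φ p.1 * φ p.2)) := by
    have m1 : Measurable fun p : ℝ × ℝ => Real.log ‖1 - ((starRingEnd ℂ) (w p.1) * w p.2)‖ := by
      apply Real.measurable_log.comp
      apply Continuous.measurable
      have h1 : Continuous fun p : ℝ × ℝ => (starRingEnd ℂ) (w p.1) :=
        Complex.continuous_conj.comp (hw.comp continuous_fst)
      have h3 : Continuous fun p : ℝ × ℝ => w p.2 := hw.comp continuous_snd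
      exact (continuous_const.sub (h1.mul h3)).norm
    have m2 : Measurable fun p : ℝ × ℝ => Real.log ‖w p.1 - w p.2‖ := by
      apply Real.measurable_log.comp
      apply Continuous.measurable
      exact ((hw.comp continuous_fst).sub (hw.comp continuous_snd)).norm
    have m4 : Measurable fun p : ℝ × ℝ => φ p.1 * φ p.2 := by
      apply Continuous.measurable
      exact (hφ.comp continuous_fst).mul (hφ.comp continuous_snd)
    exact (m1.sub m2).mul m4
  have hlim : ∀ᵐ p : ℝ × ℝ ∂(nu.prod nu),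
      Tendsto (fun n => GT (τ n) (w p.1) (w p.2) * (φ p.1 * φ p.2)) atTop
        (𝓝 (GD (w p.1) (w p.2) * (φ p.1 * φ p.2))) := by
    filter_upwards [ae_ne] with p hp
    have hlow := hcw p.1 p.2
    have hee : 0 < ‖ee p.1 - ee p.2‖ := norm_pos_iff.mpr (sub_ne_zero.mpr hp)
    have hwd : 0 < ‖w p.1 - w p.2‖ := lt_of_lt_of_le (by positivity) hlow
    have hwne : w p.1 ≠ w p.2 := by
      intro h
      rw [h, sub_self, norm_zero] at hwd
      exact lt_irrefl _ hwd
    exact (tendsto_GT (hw1 _) (hw1 _) (hw0 _) hwne hτlim).mul_const _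
  have hbnd : ∀ n : ℕ, ∀ᵐ p : ℝ × ℝ ∂(nu.prod nu),
      ‖GT (τ n) (w p.1) (w p.2) * (φ p.1 * φ p.2)‖ ≤ bound p := by
    intro n
    filter_upwards [ae_ne, ae_mem] with p hp hp2
    exact hptb (τ n) (hτ0 n) (hτ1 n) p hp hp2.1 hp2.2
  have hconv := tendsto_integral_of_dominated_convergence bound
    (fun n => (hmeasT (τ n)).aestronglyMeasurable) hbint hbnd hlim
  constructor
  · refine Integrable.mono' hbint hmeasD.aestronglyMeasurable ?_
    have hall : ∀ᵐ p : ℝ × ℝ ∂(nu.prod nu), ∀ n : ℕ,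
        ‖GT (τ n) (w p.1) (w p.2) * (φ p.1 * φ p.2)‖ ≤ bound p := ae_all_iff.mpr hbnd
    filter_upwards [hlim, hall] with p h1 h2
    exact le_of_tendsto h1.norm (Eventually.of_forall h2)
  · refine ge_of_tendsto hconv (Eventually.of_forall fun n => ?_)
    exact hGPD (τ n) (hτ0 n) (hτ1 n) w φ hw hφ hw0 hw1

end Pool.Agent.PSB
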