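import Pool.Agent.PSB.Stmts

set_option autoImplicit false

namespace Pool.Agent.PSB

open MeasureTheory Complex Metric

namespace STP_

/-- the basic parameter facts -/
theorem params {ε : ℝ} (hε : 0 < ε) :
    0 < rho ε ∧ rho ε < 1 ∧ (1 - rho ε) ^ 2 = 2 * ε / (1 + 2 * ε) ∧ 0 < sc ε ∧
      sc ε ^ 2 * (1 + 2 * ε) = 1 ∧ (1 + 2 * ε) * rho ε ^ 2 ≤ 1 := by
  have h1 : 0 < 1 + 2 * ε := by linarith
  have h2 : 0 < 2 * ε / (1 + 2 * ε) := by positivity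
  have h3 : 2 * ε / (1 + 2 * ε) < 1 := by
    rw [div_lt_one h1]; linarith
  have hq0 : 0 < Real.sqrt (2 * ε / (1 + 2 * ε)) := Real.sqrt_pos.mpr h2
  have hqs : Real.sqrt (2 * ε / (1 + 2 * ε)) ^ 2 = 2 * ε / (1 + 2 * ε) := Real.sq_sqrt h2.le
  have hq1 : Real.sqrt (2 * ε / (1 + 2 * ε)) < 1 := by
    nlinarith
  refine ⟨?_, ?_, ?_, ?_, ?_, ?_⟩
  · unfold rho; linarith
  · unfold rho; linarith
  · unfold rho
    have h5 : (1 - (1 - Real.sqrt (2 * ε / (1 + 2 * ε)))) ^ 2 =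
        Real.sqrt (2 * ε / (1 + 2 * ε)) ^ 2 := by ring
    rw [h5, hqs]
  · unfold sc; positivity
  · unfold sc
    rw [div_pow, Real.sq_sqrt h1.le]
    field_simp
  · unfold rho
    have h4 : (1 + 2 * ε) * (1 - 2 * ε / (1 + 2 * ε)) = 1 := by
      field_simp
      ring
    have h5 : (1 - Real.sqrt (2 * ε / (1 + 2 * ε))) ^ 2 ≤ 1 - 2 * ε / (1 + 2 * ε) := by
      nlinarith
    calc (1 + 2 * ε) * (1 - Real.sqrt (2 * ε / (1 + 2 * ε))) ^ 2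
        ≤ (1 + 2 * ε) * (1 - 2 * ε / (1 + 2 * ε)) := by gcongr
      _ = 1 := h4

theorem norm_u {ε : ℝ} {κ : ℂ} (hε : 0 < ε) (hκ : ‖κ‖ = 1) {w : ℂ} (hw : ‖w‖ < 1) :
    ‖(rho ε : ℂ) * κ * w‖ < rho ε := by
  obtain ⟨h1, -⟩ := params hε
  rw [norm_mul, norm_mul, hκ, Complex.norm_real, Real.norm_eq_abs, abs_of_pos h1]
  nlinarith

theorem one_sub_ne {ε : ℝ} {κ : ℂ} (hε : 0 < ε) (hκ : ‖κ‖ = 1) {w : ℂ} (hw : ‖w‖ < 1) :
    1 - (rho ε : ℂ) * κ * w ≠ 0 := by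
  intro h
  have h1 : (rho ε : ℂ) * κ * w = 1 := by linear_combination -h
  have h2 := norm_u hε hκ hw
  rw [h1, norm_one] at h2
  have := (params hε).2.1
  linarith

theorem diff {ε : ℝ} {κ : ℂ} (hε : 0 < ε) (hκ : ‖κ‖ = 1) :
    DifferentiableOn ℂ (stp ε κ) (ball 0 1) := by
  intro w hw
  have hw' : ‖w‖ < 1 := by simpa using hw
  have h := one_sub_ne hε hκ hw'
  refine DifferentiableAt.differentiableWithinAt ?_
  unfold stp
  have h1 : DifferentiableAt ℂ (fun w : ℂ => 2 * (ε : ℂ) * ((rho ε : ℂ) * κ * w ^ 2)) w := by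
    fun_prop
  have h2 : DifferentiableAt ℂ (fun w : ℂ => 1 - (rho ε : ℂ) * κ * w) w := by
    fun_prop
  exact ((differentiableAt_id.sub (h1.div h2 h)).const_mul _)

theorem inj {ε : ℝ} {κ : ℂ} (hε : 0 < ε) (hκ : ‖κ‖ = 1) :
    Set.InjOn (stp ε κ) (ball 0 1) := by
  intro z hz w hw h
  have hz' : ‖z‖ < 1 := by simpa using hz
  have hw' : ‖w‖ < 1 := by simpa using hw
  obtain ⟨hr0, hr1, hq, hs0, hs1, -⟩ := params hε
  have huz := norm_u hε hκ hz'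
  have huw := norm_u hε hκ hw'
  have hnz := one_sub_ne hε hκ hz'
  have hnw := one_sub_ne hε hκ hw'
  have hκ0 : κ ≠ 0 := by
    intro h0; rw [h0, norm_zero] at hκ; exact zero_ne_one hκ
  have hrc : (rho ε : ℂ) ≠ 0 := by exact_mod_cast hr0.ne'
  have hsc : (sc ε : ℂ) ≠ 0 := by exact_mod_cast hs0.ne'
  unfold stp at h
  have h1 := mul_left_cancel₀ hsc h
  -- algebra
  have h2 : (z - w) * ((1 + 2 * (ε : ℂ)) * ((1 - (rho ε : ℂ) * κ * z) * (1 - (rho ε : ℂ) * κ * w))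
      - 2 * ε) = 0 := by
    have h3 : (1 - (rho ε : ℂ) * κ * z) * (1 - (rho ε : ℂ) * κ * w) *
        (z - 2 * (ε : ℂ) * ((rho ε : ℂ) * κ * z ^ 2) / (1 - (rho ε : ℂ) * κ * z)) =
        (1 - (rho ε : ℂ) * κ * z) * (1 - (rho ε : ℂ) * κ * w) *
        (w - 2 * (ε : ℂ) * ((rho ε : ℂ) * κ * w ^ 2) / (1 - (rho ε : ℂ) * κ * w)) := by
      rw [h1]
    field_simp at h3
    linear_combination h3
  rcases mul_eq_zero.mp h2 with h4 | h4
  · linear_combination h4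
  · exfalso
    have h5 : (1 + 2 * (ε : ℂ)) * ((1 - (rho ε : ℂ) * κ * z) * (1 - (rho ε : ℂ) * κ * w)) = 2 * ε := by
      linear_combination h4
    have h6 : (1 + 2 * ε) * (‖1 - (rho ε : ℂ) * κ * z‖ * ‖1 - (rho ε : ℂ) * κ * w‖) = 2 * ε := by
      have := congrArg norm h5
      rw [norm_mul, norm_mul] at this
      have h7 : ‖(1 + 2 * (ε : ℂ))‖ = 1 + 2 * ε := by
        have : (1 + 2 * (ε : ℂ)) = ((1 + 2 * ε : ℝ) : ℂ) := by push_cast; ring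
        rw [this, Complex.norm_real, Real.norm_eq_abs, abs_of_pos (by linarith)]
      have h8 : ‖(2 * (ε : ℂ))‖ = 2 * ε := by
        have : (2 * (ε : ℂ)) = ((2 * ε : ℝ) : ℂ) := by push_cast; ring
        rw [this, Complex.norm_real, Real.norm_eq_abs, abs_of_pos (by linarith)]
      rw [h7, h8] at this
      exact this
    have h9 : 1 - rho ε < ‖1 - (rho ε : ℂ) * κ * z‖ := by
      have := norm_sub_norm_le (1 : ℂ) ((rho ε : ℂ) * κ * z)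
      rw [norm_one] at this
      linarith
    have h10 : 1 - rho ε < ‖1 - (rho ε : ℂ) * κ * w‖ := by
      have := norm_sub_norm_le (1 : ℂ) ((rho ε : ℂ) * κ * w)
      rw [norm_one] at this
      linarith
    have h11 : (1 - rho ε) * (1 - rho ε) < ‖1 - (rho ε : ℂ) * κ * z‖ * ‖1 - (rho ε : ℂ) * κ * w‖ := by
      apply mul_lt_mul'' h9 h10 <;> linarith
    have h12 : (1 + 2 * ε) * ((1 - rho ε) * (1 - rho ε)) = 2 * ε := by
      have : (1 - rho ε) * (1 - rho ε) = (1 - rho ε) ^ 2 := by ring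
      rw [this, hq]
      field_simp
    have h13 : 0 < 1 + 2 * ε := by linarith
    nlinarith

theorem maps {ε : ℝ} {κ : ℂ} (hε : 0 < ε) (hκ : ‖κ‖ = 1) {w : ℂ} (hw : ‖w‖ < 1) :
    ‖stp ε κ w‖ < 1 := by
  obtain ⟨hr0, hr1, hq, hs0, hs1, hR⟩ := params hε
  have hu := norm_u hε hκ hw
  have hn := one_sub_ne hε hκ hw
  set u : ℂ := (rho ε : ℂ) * κ * w with hudef
  have h1 : stp ε κ w = (sc ε : ℂ) * w * ((1 - (1 + 2 * ε) * u) / (1 - u)) := by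
    unfold stp
    rw [← hudef]
    field_simp
    rw [hudef]; ring
  have h2 : ‖1 - (1 + 2 * (ε : ℂ)) * u‖ ^ 2 ≤ (1 + 2 * ε) * ‖1 - u‖ ^ 2 := by
    have e1 : ‖1 - (1 + 2 * (ε : ℂ)) * u‖ ^ 2 =
        (1 - (1 + 2 * ε) * u.re) ^ 2 + ((1 + 2 * ε) * u.im) ^ 2 := by
      rw [← Complex.normSq_eq_norm_sq, Complex.normSq_apply]
      simp
      ring
    have e2 : ‖1 - u‖ ^ 2 = (1 - u.re) ^ 2 + u.im ^ 2 := by
      rw [← Complex.normSq_eq_norm_sq, Complex.normSq_apply]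
      simp
      ring
    have e3 : u.re ^ 2 + u.im ^ 2 ≤ rho ε ^ 2 := by
      have : ‖u‖ ^ 2 = u.re ^ 2 + u.im ^ 2 := by
        rw [← Complex.normSq_eq_norm_sq, Complex.normSq_apply]; ring
      rw [← this]
      exact pow_le_pow_left₀ (norm_nonneg _) hu.le 2
    rw [e1, e2]
    have e4 : (1 + 2 * ε) * (u.re ^ 2 + u.im ^ 2) ≤ 1 := by
      have : 0 < 1 + 2 * ε := by linarith
      nlinarith
    have e5 : 0 ≤ 2 * ε * (1 - (1 + 2 * ε) * (u.re ^ 2 + u.im ^ 2)) := by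
      apply mul_nonneg <;> linarith
    nlinarith
  have h3 : 0 < ‖1 - u‖ := norm_pos_iff.mpr hn
  have h4 : sc ε * (‖1 - (1 + 2 * (ε : ℂ)) * u‖ / ‖1 - u‖) ≤ 1 := by
    rw [← mul_div_assoc, div_le_one h3]
    apply le_of_sq_le_sq _ h3.le
    rw [mul_pow]
    calc sc ε ^ 2 * ‖1 - (1 + 2 * (ε : ℂ)) * u‖ ^ 2
        ≤ sc ε ^ 2 * ((1 + 2 * ε) * ‖1 - u‖ ^ 2) := by gcongr
      _ = (sc ε ^ 2 * (1 + 2 * ε)) * ‖1 - u‖ ^ 2 := by ring
      _ = ‖1 - u‖ ^ 2 := by rw [hs1, one_mul]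
  rw [h1, norm_mul, norm_mul, norm_div, Complex.norm_real, Real.norm_eq_abs, abs_of_pos hs0]
  calc sc ε * ‖w‖ * (‖1 - (1 + 2 * (ε : ℂ)) * u‖ / ‖1 - u‖)
      = ‖w‖ * (sc ε * (‖1 - (1 + 2 * (ε : ℂ)) * u‖ / ‖1 - u‖)) := by ring
    _ ≤ ‖w‖ * 1 := by gcongr
    _ < 1 := by rw [mul_one]; exact hw

theorem jet {ε : ℝ} {κ : ℂ} (hε : 0 < ε) (hκ : ‖κ‖ = 1) :
    Jet3 (stp ε κ) (sc ε) ((sc ε : ℂ) * (-2 * ε * rho ε * κ))
      ((sc ε : ℂ) * (-2 * ε * rho ε ^ 2 * κ ^ 2)) := by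
  unfold Jet3
  have h1 : ∀ᶠ z : ℂ in nhds 0, ‖stp ε κ z - ((sc ε : ℂ) * z + (sc ε : ℂ) * (-2 * ε * rho ε * κ) * z ^ 2 +
      (sc ε : ℂ) * (-2 * ε * rho ε ^ 2 * κ ^ 2) * z ^ 3)‖ ≤
      ‖(sc ε : ℂ) * (-2 * ε) * (rho ε * κ) ^ 3‖ * (1 / (1 - rho ε)) * ‖z ^ 4‖ := by
    have hb : ball (0 : ℂ) 1 ∈ nhds (0 : ℂ) := ball_mem_nhds _ one_pos
    filter_upwards [hb] with z hz
    have hz' : ‖z‖ < 1 := by simpa using hz
    have hn := one_sub_ne hε hκ hz'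
    have hu := norm_u hε hκ hz'
    obtain ⟨hr0, hr1, -⟩ := params hε
    have e1 : stp ε κ z - ((sc ε : ℂ) * z + (sc ε : ℂ) * (-2 * ε * rho ε * κ) * z ^ 2 +
      (sc ε : ℂ) * (-2 * ε * rho ε ^ 2 * κ ^ 2) * z ^ 3) =
      ((sc ε : ℂ) * (-2 * ε) * (rho ε * κ) ^ 3) * (1 / (1 - (rho ε : ℂ) * κ * z)) * z ^ 4 := by
      unfold stp
      have hd : (1 - (rho ε : ℂ) * κ * z)⁻¹ * (1 - (rho ε : ℂ) * κ * z) = 1 := inv_mul_cancel₀ hn
      rw [div_eq_mul_inv, one_div]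
      linear_combination (-(2 * (sc ε : ℂ) * ε * rho ε * κ * z ^ 2) * (1 + (rho ε : ℂ) * κ * z)) * hd
    rw [e1, norm_mul, norm_mul]
    have e2 : ‖1 / (1 - (rho ε : ℂ) * κ * z)‖ ≤ 1 / (1 - rho ε) := by
      rw [norm_div, norm_one]
      have h5 : 1 - rho ε ≤ ‖1 - (rho ε : ℂ) * κ * z‖ := by
        have := norm_sub_norm_le (1 : ℂ) ((rho ε : ℂ) * κ * z)
        rw [norm_one] at this
        linarith
      exact one_div_le_one_div_of_le (by linarith) h5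
    gcongr
  exact Asymptotics.IsBigO.of_bound _ h1

end STP_

theorem stp_proof : Stmt_STP := by
  intro ε κ hε hκ
  refine ⟨⟨STP_.diff hε hκ, STP_.inj hε hκ, ?_, ?_⟩, STP_.jet hε hκ⟩
  · simp [stp]
  · intro z hz
    exact STP_.maps hε hκ (by simpa using hz)

end Pool.Agent.PSB
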