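import Pool.Agent.PSB.Defs

/-!
Partial sums of bounded univalent functions (MP_910507_an): statements of the modules.
-/

namespace Pool.Agent.PSB

open MeasureTheory Complex Metric

open scoped ComplexConjugate

/-- KPD: positive definiteness of the kernel at level `s`. -/
def Stmt_KPD : Prop :=
  ∀ (τ s : ℝ), 0 < τ → τ < 1 → 0 < s → s ≤ 1 → ∀ (w : ℝ → ℂ) (φ : ℝ → ℝ), Continuous w → Continuous φ →
    0 ≤ I2 (fun α β => KS τ s (w α) (w β) * (φ α * φ β))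

/-- KIN: the regularised Green kernel is an integral of the kernels `KS`. -/
def Stmt_KIN : Prop :=
  ∀ (τ : ℝ), 0 < τ → τ < 1 → ∀ w w' : ℂ, w ≠ 0 → w' ≠ 0 → ‖w‖ < 1 → ‖w'‖ < 1 →
    GT τ w w' = ∫ s in (0 : ℝ)..1, KS τ s w w' / s

/-- GPD: positive definiteness of the regularised Green kernel. -/
def Stmt_GPD : Prop :=
  ∀ (τ : ℝ), 0 < τ → τ < 1 → ∀ (w : ℝ → ℂ) (φ : ℝ → ℝ), Continuous w → Continuous φ →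
    (∀ α, w α ≠ 0) → (∀ α, ‖w α‖ < 1) →
    0 ≤ I2 (fun α β => GT τ (w α) (w β) * (φ α * φ β))

/-- LIN: integrability of the logarithmic kernel of the circle. -/
def Stmt_LIN : Prop :=
  Integrable (fun p : ℝ × ℝ => Real.log ‖ee p.1 - ee p.2‖) (nu.prod nu)

/-- GLM: positive definiteness of the Green kernel on a curve. -/
def Stmt_GLM : Prop :=
  ∀ (w : ℝ → ℂ) (φ : ℝ → ℝ) (c : ℝ), Continuous w → Continuous φ →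
    (∀ α, w α ≠ 0) → (∀ α, ‖w α‖ < 1) → 0 < c →
    (∀ α β, c * ‖ee α - ee β‖ ≤ ‖w α - w β‖) →
    Integrable (fun p : ℝ × ℝ => GD (w p.1) (w p.2) * (φ p.1 * φ p.2)) (nu.prod nu) ∧
    0 ≤ I2 (fun α β => GD (w α) (w β) * (φ α * φ β))

/-- LOW: injective holomorphic functions are bi-Lipschitz from below on smaller discs. -/
def Stmt_LOW : Prop :=
  ∀ F : ℂ → ℂ, DifferentiableOn ℂ F (ball 0 1) → Set.InjOn F (ball 0 1) →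
    ∀ r : ℝ, 0 < r → r < 1 → ∃ c : ℝ, 0 < c ∧
      ∀ z ∈ closedBall (0 : ℂ) r, ∀ ζ ∈ closedBall (0 : ℂ) r, c * ‖z - ζ‖ ≤ ‖F z - F ζ‖

/-- MVA: mean values of the real part of a holomorphic function. -/
def Stmt_MVA : Prop :=
  ∀ h : ℂ → ℂ, DifferentiableOn ℂ h (ball 0 1) → ∀ r : ℝ, 0 < r → r < 1 → ∀ (x0 : ℝ) (x1 : ℂ),
    ∫ θ in (0 : ℝ)..(2 * Real.pi), (h (r * ee θ)).re * phi x0 x1 θ =
      2 * Real.pi * (x0 * (h 0).re + r * (conj x1 * deriv h 0).re)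

/-- MV: mean values of `log |g|`. -/
def Stmt_MV : Prop :=
  ∀ g : ℂ → ℂ, DifferentiableOn ℂ g (ball 0 1) → (∀ z ∈ ball (0 : ℂ) 1, g z ≠ 0) →
    ∀ r : ℝ, 0 < r → r < 1 → ∀ (x0 : ℝ) (x1 : ℂ),
    ∫ θ in (0 : ℝ)..(2 * Real.pi), Real.log ‖g (r * ee θ)‖ * phi x0 x1 θ =
      2 * Real.pi * (x0 * Real.log ‖g 0‖ + r * (conj x1 * (deriv g 0 / g 0)).re)

/-- LC: the logarithmic kernel of the circle. -/
def Stmt_LC : Prop :=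
  ∀ (x0 : ℝ) (x1 : ℂ) (β : ℝ),
    IntervalIntegrable (fun α => Real.log ‖ee α - ee β‖) volume 0 (2 * Real.pi) ∧
    ∫ α in (0 : ℝ)..(2 * Real.pi), Real.log ‖ee α - ee β‖ * phi x0 x1 α =
      -(2 * Real.pi * (x1 * ee β).re)

/-- DSL: difference quotients of an injective holomorphic function. -/
def Stmt_DSL : Prop :=
  ∀ F : ℂ → ℂ, DifferentiableOn ℂ F (ball 0 1) → Set.InjOn F (ball 0 1) → F 0 = 0 →
    ∀ ζ ∈ ball (0 : ℂ) 1,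
      DifferentiableOn ℂ (dslope F ζ) (ball 0 1) ∧ (∀ z ∈ ball (0 : ℂ) 1, dslope F ζ z ≠ 0) ∧
      (ζ ≠ 0 → dslope F ζ 0 = F ζ / ζ ∧
        deriv (dslope F ζ) 0 / dslope F ζ 0 = 1 / ζ - deriv F 0 / F ζ)

/-- INN: the inner integral. -/
def Stmt_INN : Prop :=
  ∀ F : ℂ → ℂ, SelfU F → ∀ r : ℝ, 0 < r → r < 1 → ∀ (x0 : ℝ) (x1 : ℂ) (β : ℝ),
    ∫ α in (0 : ℝ)..(2 * Real.pi), GD (F (r * ee α)) (F (r * ee β)) * phi x0 x1 α =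
      2 * Real.pi * (r * (conj x1 * (-deriv F 0 * conj (F (r * ee β)))).re
        - x0 * Real.log ‖F (r * ee β) / (r * ee β)‖
        - r * (conj x1 * (1 / (r * ee β) - deriv F 0 / F (r * ee β))).re
        - x0 * Real.log r + (x1 * ee β).re)

/-- OUT: the outer integral. -/
def Stmt_OUT : Prop :=
  ∀ F : ℂ → ℂ, SelfU F → ∀ (b a2 a3 : ℂ), deriv F 0 = b → b ≠ 0 → coeff F 2 = b * a2 → coeff F 3 = b * a3 →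
    ∀ r : ℝ, 0 < r → r < 1 → ∀ (x0 : ℝ) (x1 : ℂ),
    ∫ β in (0 : ℝ)..(2 * Real.pi), (r * (conj x1 * (-deriv F 0 * conj (F (r * ee β)))).re
        - x0 * Real.log ‖F (r * ee β) / (r * ee β)‖
        - r * (conj x1 * (1 / (r * ee β) - deriv F 0 / F (r * ee β))).re
        - x0 * Real.log r + (x1 * ee β).re) * phi x0 x1 β =
      2 * Real.pi * (-(r ^ 2 * ‖b‖ ^ 2 * ‖x1‖ ^ 2) - x0 ^ 2 * Real.log ‖b‖
        - 2 * r * x0 * (conj x1 * a2).re - r ^ 2 * (conj x1 ^ 2 * (a3 - a2 ^ 2)).re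
        - x0 ^ 2 * Real.log r + ‖x1‖ ^ 2)

/-- ENG: the energy inequality on the circle of radius `r`. -/
def Stmt_ENG : Prop :=
  ∀ F : ℂ → ℂ, SelfU F → ∀ (b a2 a3 : ℂ), deriv F 0 = b → b ≠ 0 → coeff F 2 = b * a2 → coeff F 3 = b * a3 →
    ∀ r : ℝ, 0 < r → r < 1 → ∀ (x0 : ℝ) (x1 : ℂ),
    0 ≤ -(r ^ 2 * ‖b‖ ^ 2 * ‖x1‖ ^ 2) - x0 ^ 2 * Real.log ‖b‖
        - 2 * r * x0 * (conj x1 * a2).re - r ^ 2 * (conj x1 ^ 2 * (a3 - a2 ^ 2)).re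
        - x0 ^ 2 * Real.log r + ‖x1‖ ^ 2

/-- NEH: the inequality of Nehari for the second and third coefficient. -/
def Stmt_NEH : Prop :=
  ∀ (M : ℝ) (f : ℂ → ℂ), 1 < M → InS M f → ∀ (ω : ℂ) (σ : ℝ), ‖ω‖ = 1 →
    (ω ^ 2 * (coeff f 3 - coeff f 2 ^ 2)).re + 4 * σ * (ω * coeff f 2).re ≤
      1 - 1 / M ^ 2 + 4 * σ ^ 2 * Real.log M

/-- UB3: the sharp upper bound for `n = 3`. -/
def Stmt_UB3 : Prop :=
  ∀ (M : ℝ) (f : ℂ → ℂ), 1 < M → Real.log M < 1 → InS M f → ∀ z : ℂ, ‖z‖ = 1 →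
    ‖psum f 3 z‖ ≤ 2 - 1 / M ^ 2 + Real.log M / (4 * (1 - Real.log M))

/-- JET: jets and coefficients. -/
def Stmt_JET : Prop :=
  ∀ (F : ℂ → ℂ) (c1 c2 c3 : ℂ), AnalyticAt ℂ F 0 → Jet3 F c1 c2 c3 →
    F 0 = 0 ∧ deriv F 0 = c1 ∧ coeff F 1 = c1 ∧ coeff F 2 = c2 ∧ coeff F 3 = c3

/-- JCM: jets of compositions. -/
def Stmt_JCM : Prop :=
  ∀ (F G : ℂ → ℂ) (c1 c2 c3 d1 d2 d3 : ℂ), Jet3 F c1 c2 c3 → Jet3 G d1 d2 d3 →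
    Jet3 (fun z => G (F z)) (d1 * c1) (d1 * c2 + d2 * c1 ^ 2)
      (d1 * c3 + 2 * d2 * c1 * c2 + d3 * c1 ^ 3)

/-- STP: the step map. -/
def Stmt_STP : Prop :=
  ∀ (ε : ℝ) (κ : ℂ), 0 < ε → ‖κ‖ = 1 →
    SelfU (stp ε κ) ∧
    Jet3 (stp ε κ) (sc ε) ((sc ε : ℂ) * (-2 * ε * rho ε * κ)) ((sc ε : ℂ) * (-2 * ε * rho ε ^ 2 * κ ^ 2))

/-- CHN: compositions of step maps. -/
def Stmt_CHN : Prop :=
  ∀ (ε : ℝ) (κ : ℕ → ℂ), 0 < ε → (∀ j, ‖κ j‖ = 1) → ∀ N : ℕ,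
    SelfU (chain ε κ N) ∧
    Jet3 (chain ε κ N) ((sc ε : ℂ) ^ N) ((sc ε : ℂ) ^ N * chA ε κ N) ((sc ε : ℂ) ^ N * chB ε κ N)

/-- CLS: closed forms for the optimal choice of directions. -/
def Stmt_CLS : Prop :=
  ∀ (M σ : ℝ) (m : ℕ), 1 < M → 0 ≤ σ → σ ≤ 1 / M → 1 ≤ m →
    ∃ κ : ℕ → ℂ, (∀ j, ‖κ j‖ = 1) ∧
      (chA (epm M m) κ (2 * m)).re =
        2 * epm M m * rho (epm M m) * (1 + sc (epm M m)) * σ * m ∧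
      |(chA (epm M m) κ (2 * m)).im| ≤ 2 * epm M m * (1 - sc (epm M m)) * m ∧
      (chQ (epm M m) κ (2 * m)).re =
        (1 + sc (epm M m) ^ 2) * (2 * σ ^ 2 * m - (1 - 1 / M ^ 2) / (1 - sc (epm M m) ^ 4))

/-- LIM: the limit of the closed forms. -/
def Stmt_LIM : Prop :=
  ∀ (M σ : ℝ), 1 < M → 0 ≤ σ → σ ≤ 1 / M →
    Filter.Tendsto (fun m : ℕ =>
      1 + 2 * epm M m * rho (epm M m) * (1 + sc (epm M m)) * σ * m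
      + (2 * epm M m * rho (epm M m) * (1 + sc (epm M m)) * σ * m) ^ 2
      - (2 * epm M m * (1 - sc (epm M m)) * m) ^ 2
      - 2 * epm M m * (1 + 2 * epm M m) * rho (epm M m) ^ 2 *
        ((1 + sc (epm M m) ^ 2) * (2 * σ ^ 2 * m - (1 - 1 / M ^ 2) / (1 - sc (epm M m) ^ 4))))
      Filter.atTop
      (nhds (1 + 2 * σ * Real.log M + 4 * σ ^ 2 * Real.log M ^ 2 - 4 * σ ^ 2 * Real.log M
        + (1 - 1 / M ^ 2)))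

/-- LB3: the lower bound for `n = 3`. -/
def Stmt_LB3 : Prop :=
  ∀ (M σ : ℝ), 1 < M → 0 ≤ σ → σ ≤ 1 / M → ∀ η : ℝ, 0 < η →
    ∃ f : ℂ → ℂ, InS M f ∧
      1 + 2 * σ * Real.log M + 4 * σ ^ 2 * Real.log M ^ 2 - 4 * σ ^ 2 * Real.log M
        + (1 - 1 / M ^ 2) - η ≤ ‖psum f 3 1‖

/-- FC: Fourier coefficients of the real part. -/
def Stmt_FC : Prop :=
  ∀ h : ℂ → ℂ, DifferentiableOn ℂ h (ball 0 1) → ∀ r : ℝ, 0 < r → r < 1 → ∀ k : ℕ,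
    ∫ θ in (0 : ℝ)..(2 * Real.pi), (((h (r * ee θ)).re : ℝ) : ℂ) * conj (ee θ) ^ k =
      if k = 0 then 2 * Real.pi * (((h 0).re : ℝ) : ℂ) else Real.pi * (r : ℂ) ^ k * coeff h k

/-- GUB: the upper bound for all `n`. -/
def Stmt_GUB : Prop :=
  ∀ (M : ℝ) (f : ℂ → ℂ), 1 < M → InS M f → ∀ n : ℕ, 1 ≤ n → ∀ z : ℂ, ‖z‖ = 1 →
    ∃ φ : ℝ, ‖psum f n z‖ ≤ ‖1 - 2 * ((M : ℂ) - 1) * ∑ k ∈ Finset.Ico 1 n, ee (k * φ)‖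

/-- GEO: the explicit functions of the lower bound. -/
def Stmt_GEO : Prop :=
  ∀ (M : ℝ) (κ : ℂ), 1 < M → ‖κ‖ = 1 →
    InS M (fun w => (M : ℂ) * stp ((M ^ 2 - 1) / 2) κ w) ∧
    ∀ k : ℕ, 1 ≤ k → coeff (fun w => (M : ℂ) * stp ((M ^ 2 - 1) / 2) κ w) (k + 1) =
      -((M : ℂ) ^ 2 - 1) * (((1 - Real.sqrt (1 - 1 / M ^ 2) : ℝ) : ℂ) * κ) ^ k

/-- GLB: the lower bound for all `n`. -/
def Stmt_GLB : Prop :=
  ∀ (M : ℝ), 1 < M → ∀ n : ℕ, 1 ≤ n → ∀ φ : ℝ,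
    ‖1 - ((M : ℂ) ^ 2 - 1) * ∑ k ∈ Finset.Ico 1 n,
      (((1 - Real.sqrt (1 - 1 / M ^ 2) : ℝ) : ℂ)) ^ k * ee (k * φ)‖ ≤ Lam n M

/-- SLO: first order asymptotics for all `n`. -/
def Stmt_SLO : Prop :=
  ∀ (n : ℕ) (M : ℝ), 1 ≤ n → 1 < M → M ≤ 2 →
    |Lam n M - 1 - slope' n * (M - 1)| ≤ 3 * n ^ 2 * (M - 1) ^ (3 / 2 : ℝ)

/-- ARE: the area inequality. -/
def Stmt_ARE : Prop :=
  ∀ (M : ℝ) (f : ℂ → ℂ), 1 < M → InS M f → ∀ N : ℕ,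
    ∑ k ∈ Finset.range (N + 1), (k : ℝ) * ‖coeff f k‖ ^ 2 ≤ M ^ 2

/-- UNI: uniform bound. -/
def Stmt_UNI : Prop :=
  ∀ (M : ℝ), 1 < M → ∀ n : ℕ, Lam n M ≤ M + 0.65 * Real.sqrt (M ^ 2 - 1)

/-- KOE: truncated Koebe functions. -/
def Stmt_KOE : Prop :=
  ∀ (M : ℝ), 1 < M →
    InS M (fun w => w / (1 - ((1 - 1 / Real.sqrt M : ℝ) : ℂ) * w) ^ 2) ∧
    ∀ k : ℕ, coeff (fun w => w / (1 - ((1 - 1 / Real.sqrt M : ℝ) : ℂ) * w) ^ 2) (k + 1) =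
      (k + 1) * ((1 - 1 / Real.sqrt M : ℝ) : ℂ) ^ k

/-- KLB: the lower bound from the truncated Koebe functions. -/
def Stmt_KLB : Prop :=
  ∀ (M : ℝ), 1 < M → ∀ n : ℕ,
    M * (1 - (1 - 1 / Real.sqrt M) ^ n * (1 + n / Real.sqrt M)) ≤ Lam n M

end Pool.Agent.PSB
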